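import Pool.Agent.Lib.MP_76b05e_lc.Frag

/-!
Binary trees, their self-delimiting codes, and fragments computing the basic operations on them.
-/

namespace Pool.Agent.Lib.MP_76b05e_lc

/-- runs in at most `t` steps -/
def RL {E : Type} (F : Frag E) (S : Stk) (e : E) (S' : Stk) (t : ℕ) : Prop :=
  ∃ t' ≤ t, Runs F S e S' t'

theorem Runs.rl {E : Type} {F : Frag E} {S S' : Stk} {e : E} {t : ℕ} (h : Runs F S e S' t) :
    RL F S e S' t := ⟨t, le_rfl, h⟩

theorem RL.mono {E : Type} {F : Frag E} {S S' : Stk} {e : E} {t t' : ℕ} (h : RL F S e S' t)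
    (ht : t ≤ t') : RL F S e S' t' := by
  obtain ⟨u, hu, r⟩ := h
  exact ⟨u, hu.trans ht, r⟩

theorem RL.bind {E E' : Type} [Finite E] {F : Frag E} {G : E → Frag E'} {S S₁ S' : Stk}
    {e : E} {e' : E'} {t₁ t₂ : ℕ} (h₁ : RL F S e S₁ t₁) (h₂ : RL (G e) S₁ e' S' t₂) :
    RL (bind F G) S e' S' (t₁ + t₂) := by
  obtain ⟨u, hu, r⟩ := h₁
  obtain ⟨v, hv, q⟩ := h₂
  exact ⟨u + v, by omega, r.bind q⟩

theorem RL.seq {E : Type} {F : Frag Unit} {G : Frag E} {S S₁ S' : Stk}
    {e' : E} {t₁ t₂ : ℕ} (h₁ : RL F S () S₁ t₁) (h₂ : RL G S₁ e' S' t₂) :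
    RL (seq F G) S e' S' (t₁ + t₂) := RL.bind h₁ h₂

theorem RL.loop_exit {E : Type} {F : Frag (Option E)} {S S' : Stk} {e : E} {t : ℕ}
    (h : RL F S (some e) S' t) : RL (loop F) S e S' t := by
  obtain ⟨u, hu, r⟩ := h
  exact ⟨u, hu, r.loop_exit⟩

theorem RL.loop_next {E : Type} {F : Frag (Option E)} {S S₁ S' : Stk} {e : E} {t₁ t₂ : ℕ}
    (h : RL F S none S₁ t₁) (h₂ : RL (loop F) S₁ e S' t₂) :
    RL (loop F) S e S' (t₁ + t₂) := by
  obtain ⟨u, hu, r⟩ := h
  obtain ⟨v, hv, q⟩ := h₂
  exact ⟨u + v, by omega, r.loop_next q⟩

theorem RL.ret {E : Type} (e : E) (S : Stk) (t : ℕ) : RL (ret e) S e S t :=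
  ⟨0, Nat.zero_le _, Runs.ret e S⟩

theorem RL.push (k : St) (b : Bool) (S : Stk) :
    RL (pushI k b) S () (Function.update S k (b :: S k)) 1 := (Runs.push k b S).rl

theorem RL.pop {k : St} {S : Stk} {o : Option Bool} (h : (S k).head? = o) :
    RL (popI k) S o (Function.update S k (S k).tail) 1 := by
  subst h; exact (Runs.pop k S).rl

theorem RL.to {E : Type} {F : Frag E} {S : Stk} {e : E} {S' : Stk} {t : ℕ}
    {S₀ : Stk} {S₁ : Stk} (h : RL F S e S' t) (h0 : S₀ = S) (h1 : S' = S₁) :
    RL F S₀ e S₁ t := by
  subst h0 h1; exact h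

theorem RL.tot_le {E : Type} {F : Frag E} {S : Stk} {e : E} {S' : Stk} {t : ℕ}
    (h : RL F S e S' t) : tot S' ≤ tot S + t := by
  obtain ⟨u, hu, r⟩ := h
  have := Reach.tot_le r
  omega

/-! ### moving -/

/-- move a whole stack onto another one (reversing it) -/
def moveAll (A B : St) : Frag Unit :=
  loop (bind (popI A) fun o => match o with
    | none => ret (some ())
    | some b => seq (pushI B b) (ret none))

theorem moveAll_rl {A B : St} (hAB : A ≠ B) : ∀ (l : List Bool) (S : Stk), S A = l →
    RL (moveAll A B) S () (Function.update (Function.update S A []) B (l.reverse ++ S B))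
      (2 * l.length + 1) := by
  intro l
  induction l with
  | nil =>
    intro S hS
    have p : RL (popI A) S none (Function.update S A (S A).tail) 1 := RL.pop (by simp [hS])
    refine RL.loop_exit ?_
    refine RL.to (RL.bind (t₁ := 1) (t₂ := 0) p (RL.ret _ _ 0)) rfl ?_
    funext k
    by_cases h1 : k = A
    · subst h1; simp [hS, Function.update_of_ne hAB]
    · by_cases h2 : k = B
      · subst h2; simp [Function.update_of_ne h1]
      · simp [Function.update_of_ne h1, Function.update_of_ne h2]
  | cons b l ih =>
    intro S hS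
    have step : RL (bind (popI A) fun o => match o with
        | none => ret (some ())
        | some b => seq (pushI B b) (ret none)) S none
        (Function.update (Function.update S A l) B (b :: S B)) 2 := by
      refine RL.to (RL.bind (t₁ := 1) (t₂ := 1) (RL.pop (o := some b) (by simp [hS]))
        (RL.seq (t₁ := 1) (t₂ := 0) (RL.push _ _ _) (RL.ret _ _ 0))) rfl ?_
      funext k
      by_cases h2 : k = B
      · subst h2; simp [hS, Function.update_of_ne hAB.symm]
      · simp [Function.update_of_ne h2, hS]
    have h3 := ih (Function.update (Function.update S A l) B (b :: S B))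
      (by rw [Function.update_of_ne hAB]; simp)
    refine (RL.to (RL.loop_next step h3) rfl ?_).mono (by simp; omega)
    funext k
    by_cases h2 : k = B
    · subst h2; simp
    · by_cases h1 : k = A
      · subst h1; simp [Function.update_of_ne h2]
      · simp [Function.update_of_ne h1, Function.update_of_ne h2]

/-- move a whole stack onto two other ones (reversing it) -/
def moveAll2 (A B C : St) : Frag Unit :=
  loop (bind (popI A) fun o => match o with
    | none => ret (some ())
    | some b => seq (pushI B b) (seq (pushI C b) (ret none)))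

theorem moveAll2_rl {A B C : St} (hAB : A ≠ B) (hAC : A ≠ C) (hBC : B ≠ C) :
    ∀ (l : List Bool) (S : Stk), S A = l →
    RL (moveAll2 A B C) S () (Function.update (Function.update (Function.update S A []) B
      (l.reverse ++ S B)) C (l.reverse ++ S C)) (3 * l.length + 1) := by
  intro l
  induction l with
  | nil =>
    intro S hS
    have p : RL (popI A) S none (Function.update S A (S A).tail) 1 := RL.pop (by simp [hS])
    refine RL.loop_exit ?_
    refine RL.to (RL.bind (t₁ := 1) (t₂ := 0) p (RL.ret _ _ 0)) rfl ?_
    funext k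
    by_cases h1 : k = A
    · subst h1; simp [hS, Function.update_of_ne hAB, Function.update_of_ne hAC]
    · by_cases h2 : k = B
      · subst h2; simp [Function.update_of_ne h1, Function.update_of_ne hBC]
      · by_cases h3 : k = C
        · subst h3; simp [Function.update_of_ne h1]
        · simp [Function.update_of_ne h1, Function.update_of_ne h2, Function.update_of_ne h3]
  | cons b l ih =>
    intro S hS
    have step : RL (bind (popI A) fun o => match o with
        | none => ret (some ())
        | some b => seq (pushI B b) (seq (pushI C b) (ret none))) S none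
        (Function.update (Function.update (Function.update S A l) B (b :: S B)) C (b :: S C)) 3 := by
      refine RL.to (RL.bind (t₁ := 1) (t₂ := 2) (RL.pop (o := some b) (by simp [hS]))
        (RL.seq (t₁ := 1) (t₂ := 1) (RL.push _ _ _)
          (RL.seq (t₁ := 1) (t₂ := 0) (RL.push _ _ _) (RL.ret _ _ 0)))) rfl ?_
      funext k
      by_cases h3 : k = C
      · subst h3; simp [Function.update_of_ne hAC.symm, Function.update_of_ne hBC.symm]
      · by_cases h2 : k = B
        · subst h2; simp [hS, Function.update_of_ne hAB.symm, Function.update_of_ne h3]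
        · simp [Function.update_of_ne h2, Function.update_of_ne h3, hS]
    have h4 := ih (Function.update (Function.update (Function.update S A l) B (b :: S B)) C
      (b :: S C)) (by rw [Function.update_of_ne hAC, Function.update_of_ne hAB]; simp)
    refine (RL.to (RL.loop_next step h4) rfl ?_).mono (by simp; omega)
    clear h4
    funext k
    by_cases h3 : k = C
    · subst h3; simp
    · by_cases h2 : k = B
      · subst h2; simp [Function.update_of_ne h3]
      · by_cases h1 : k = A
        · subst h1; simp [Function.update_of_ne h2, Function.update_of_ne h3]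
        · simp [Function.update_of_ne h1, Function.update_of_ne h2, Function.update_of_ne h3]

/-- empty a stack -/
def clearI (A : St) : Frag Unit :=
  loop (bind (popI A) fun o => match o with
    | none => ret (some ())
    | some _ => ret none)

theorem clearI_rl {A : St} : ∀ (l : List Bool) (S : Stk), S A = l →
    RL (clearI A) S () (Function.update S A []) (l.length + 1) := by
  intro l
  induction l with
  | nil =>
    intro S hS
    have p : RL (popI A) S none (Function.update S A (S A).tail) 1 := RL.pop (by simp [hS])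
    refine RL.loop_exit ?_
    refine RL.to (RL.bind (t₁ := 1) (t₂ := 0) p (RL.ret _ _ 0)) rfl ?_
    simp [hS]
  | cons b l ih =>
    intro S hS
    have step : RL (bind (popI A) fun o => match o with
        | none => ret (some ())
        | some _ => ret none) S none (Function.update S A l) 1 := by
      have p : RL (popI A) S (some b) (Function.update S A (S A).tail) 1 := RL.pop (by simp [hS])
      refine RL.to (RL.bind (t₁ := 1) (t₂ := 0) p (RL.ret _ _ 0)) rfl ?_
      simp [hS]
    have h3 := ih (Function.update S A l) (by simp)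
    exact (RL.to (RL.loop_next step h3) rfl (by simp)).mono (by simp; omega)

/-- push a word, so that its first letter comes to the top -/
def pushList (A : St) : List Bool → Frag Unit
  | [] => ret ()
  | b :: l => seq (pushList A l) (pushI A b)

theorem pushList_rl {A : St} : ∀ (l : List Bool) (S : Stk),
    RL (pushList A l) S () (Function.update S A (l ++ S A)) l.length := by
  intro l
  induction l with
  | nil => intro S; exact RL.to (RL.ret _ _ 0) rfl (by simp)
  | cons b l ih =>
    intro S
    exact RL.to (RL.seq (ih S) (RL.push _ _ _)) rfl (by simp)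

/-! ### trees -/

/-- binary trees -/
inductive D
  | nil
  | cons (a b : D)

/-- the code of a tree: Polish form, `0` for the leaf and `1` for an inner node -/
def D.enc : D → List Bool
  | .nil => [false]
  | .cons a b => true :: (a.enc ++ b.enc)

/-- the size of a tree: the length of its code -/
def D.size : D → ℕ
  | .nil => 1
  | .cons a b => a.size + b.size + 1

@[simp] theorem D.length_enc (x : D) : x.enc.length = x.size := by
  induction x with
  | nil => rfl
  | cons a b iha ihb => simp [D.enc, D.size, iha, ihb]

theorem D.size_pos (x : D) : 1 ≤ x.size := by cases x <;> simp [D.size]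

@[simp] theorem D.enc_nil : D.nil.enc = [false] := rfl
@[simp] theorem D.enc_cons (a b : D) : (D.cons a b).enc = true :: (a.enc ++ b.enc) := rfl
@[simp] theorem D.size_nil : D.nil.size = 1 := rfl
@[simp] theorem D.size_cons (a b : D) : (D.cons a b).size = a.size + b.size + 1 := rfl

/-- the body of the loop of `moveVal` -/
def mvBody (A : St) : Frag (Option Unit) :=
  bind (popI .cnt) fun o => match o with
    | none => ret (some ())
    | some _ => bind (popI A) fun o' => match o' with
      | some true => seq (pushI .ta true) (seq (pushI .cnt true) (seq (pushI .cnt true) (ret none)))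
      | some false => seq (pushI .ta false) (ret none)
      | none => ret (some ())

/-- move the topmost code of a tree from `A` to `ta` (reversing it) -/
def moveVal (A : St) : Frag Unit := seq (pushI .cnt true) (loop (mvBody A))

theorem mv_main (x : D) : ∀ (m s a b c : List Bool) (e : Unit) (S' : Stk) (t : ℕ),
    RL (loop (mvBody .main)) (mk5 m s (x.enc.reverse ++ a) b c) e S' t →
    RL (loop (mvBody .main)) (mk5 (x.enc ++ m) s a b (true :: c)) e S' (5 * x.size + t) := by
  induction x with
  | nil =>
    intro m s a b c e S' t h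
    have step : RL (mvBody .main) (mk5 (D.nil.enc ++ m) s a b (true :: c)) none
        (mk5 m s (D.nil.enc.reverse ++ a) b c) 5 := by
      refine RL.mono (RL.to (RL.bind (t₁ := 1) (RL.pop (o := some true) rfl)
        (RL.bind (t₁ := 1) (RL.pop (o := some false) (by simp)) (RL.seq (RL.push _ _ _)
          (RL.ret _ _ 0)))) rfl ?_) (by omega)
      simp
    exact (RL.loop_next step h).mono (by simp)
  | cons x y ihx ihy =>
    intro m s a b c e S' t h
    have step : RL (mvBody .main) (mk5 ((D.cons x y).enc ++ m) s a b (true :: c)) none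
        (mk5 (x.enc ++ (y.enc ++ m)) s (true :: a) b (true :: true :: c)) 5 := by
      refine RL.mono (RL.to (RL.bind (t₁ := 1) (RL.pop (o := some true) rfl)
        (RL.bind (t₁ := 1) (RL.pop (o := some true) (by simp)) (RL.seq (RL.push _ _ _)
          (RL.seq (RL.push _ _ _) (RL.seq (RL.push _ _ _) (RL.ret _ _ 0)))))) rfl ?_) (by omega)
      simp
    have h2 := ihy m s (x.enc.reverse ++ (true :: a)) b c e S' t (by simpa using h)
    have h3 := ihx (y.enc ++ m) s (true :: a) b (true :: c) e S' _ h2
    exact (RL.loop_next step h3).mono (by simp; omega)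

theorem mv_save (x : D) : ∀ (m s a b c : List Bool) (e : Unit) (S' : Stk) (t : ℕ),
    RL (loop (mvBody .save)) (mk5 m s (x.enc.reverse ++ a) b c) e S' t →
    RL (loop (mvBody .save)) (mk5 m (x.enc ++ s) a b (true :: c)) e S' (5 * x.size + t) := by
  induction x with
  | nil =>
    intro m s a b c e S' t h
    have step : RL (mvBody .save) (mk5 m (D.nil.enc ++ s) a b (true :: c)) none
        (mk5 m s (D.nil.enc.reverse ++ a) b c) 5 := by
      refine RL.mono (RL.to (RL.bind (t₁ := 1) (RL.pop (o := some true) rfl)
        (RL.bind (t₁ := 1) (RL.pop (o := some false) (by simp)) (RL.seq (RL.push _ _ _)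
          (RL.ret _ _ 0)))) rfl ?_) (by omega)
      simp
    exact (RL.loop_next step h).mono (by simp)
  | cons x y ihx ihy =>
    intro m s a b c e S' t h
    have step : RL (mvBody .save) (mk5 m ((D.cons x y).enc ++ s) a b (true :: c)) none
        (mk5 m (x.enc ++ (y.enc ++ s)) (true :: a) b (true :: true :: c)) 5 := by
      refine RL.mono (RL.to (RL.bind (t₁ := 1) (RL.pop (o := some true) rfl)
        (RL.bind (t₁ := 1) (RL.pop (o := some true) (by simp)) (RL.seq (RL.push _ _ _)
          (RL.seq (RL.push _ _ _) (RL.seq (RL.push _ _ _) (RL.ret _ _ 0)))))) rfl ?_) (by omega)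
      simp
    have h2 := ihy m s (x.enc.reverse ++ (true :: a)) b c e S' t (by simpa using h)
    have h3 := ihx m (y.enc ++ s) (true :: a) b (true :: c) e S' _ h2
    exact (RL.loop_next step h3).mono (by simp; omega)

theorem moveVal_main (x : D) (m s a b : List Bool) :
    RL (moveVal .main) (mk5 (x.enc ++ m) s a b []) () (mk5 m s (x.enc.reverse ++ a) b [])
      (5 * x.size + 2) := by
  have h0 : RL (loop (mvBody .main)) (mk5 m s (x.enc.reverse ++ a) b []) ()
      (mk5 m s (x.enc.reverse ++ a) b []) 1 := by
    have p : RL (popI .cnt) (mk5 m s (x.enc.reverse ++ a) b []) none _ 1 := RL.pop rfl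
    refine RL.loop_exit ?_
    refine RL.to (RL.bind (t₁ := 1) (t₂ := 0) p (RL.ret _ _ 0)) rfl ?_
    simp
  have h1 := mv_main x m s a b [] () _ _ h0
  refine RL.mono (RL.seq (S₁ := mk5 (x.enc ++ m) s a b [true]) (t₁ := 1) ?_ h1) (by omega)
  exact RL.to (RL.push _ _ _) rfl (by simp)

theorem moveVal_save (x : D) (m s a b : List Bool) :
    RL (moveVal .save) (mk5 m (x.enc ++ s) a b []) () (mk5 m s (x.enc.reverse ++ a) b [])
      (5 * x.size + 2) := by
  have h0 : RL (loop (mvBody .save)) (mk5 m s (x.enc.reverse ++ a) b []) ()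
      (mk5 m s (x.enc.reverse ++ a) b []) 1 := by
    have p : RL (popI .cnt) (mk5 m s (x.enc.reverse ++ a) b []) none _ 1 := RL.pop rfl
    refine RL.loop_exit ?_
    refine RL.to (RL.bind (t₁ := 1) (t₂ := 0) p (RL.ret _ _ 0)) rfl ?_
    simp
  have h1 := mv_save x m s a b [] () _ _ h0
  refine RL.mono (RL.seq (S₁ := mk5 m (x.enc ++ s) a b [true]) (t₁ := 1) ?_ h1) (by omega)
  exact RL.to (RL.push _ _ _) rfl (by simp)

/-! ### computing functions on trees -/

/-- `F` turns `x` into `y` in time `t`, keeping the saved values -/
def Comp (F : Frag Unit) (x y : D) (t : ℕ) : Prop :=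
  ∀ s, RL F (mk5 x.enc s [] [] []) () (mk5 y.enc s [] [] []) t

theorem Comp.mono {F : Frag Unit} {x y : D} {t t' : ℕ} (h : Comp F x y t) (ht : t ≤ t') :
    Comp F x y t' := fun s => (h s).mono ht

theorem Comp.size_le {F : Frag Unit} {x y : D} {t : ℕ} (h : Comp F x y t) :
    y.size ≤ x.size + t := by
  have := (h []).tot_le
  simpa [tot_mk5] using this

theorem Comp.seq {F G : Frag Unit} {x y z : D} {t₁ t₂ : ℕ} (h₁ : Comp F x y t₁)
    (h₂ : Comp G y z t₂) : Comp (seq F G) x z (t₁ + t₂) := fun s => (h₁ s).seq (h₂ s)

theorem Comp.id (x : D) : Comp (ret ()) x x 0 := fun _ => RL.ret _ _ _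

/-- save a copy of the main value -/
def dup : Frag Unit := seq (moveAll .main .ta) (moveAll2 .ta .main .save)

theorem dup_rl (l s : List Bool) : RL dup (mk5 l s [] [] []) () (mk5 l (l ++ s) [] [] [])
    (5 * l.length + 2) := by
  have h1 := moveAll_rl (A := .main) (B := .ta) (by decide) l (mk5 l s [] [] []) rfl
  have h2 := moveAll2_rl (A := .ta) (B := .main) (C := .save) (by decide) (by decide) (by decide)
    l.reverse (mk5 [] s l.reverse [] []) rfl
  have h1' : RL (moveAll .main .ta) (mk5 l s [] [] []) () (mk5 [] s l.reverse [] [])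
    (2 * l.length + 1) := RL.to h1 rfl (by simp)
  exact (RL.to (h1'.seq h2) rfl (by simp)).mono (by simp; omega)

/-- exchange the main value and the value saved last -/
def swapT : Frag Unit :=
  seq (moveVal .save) (seq (moveAll .main .tb) (seq (moveAll .ta .main) (moveAll .tb .save)))

theorem swapT_rl (x y : D) (s : List Bool) :
    RL swapT (mk5 y.enc (x.enc ++ s) [] [] []) () (mk5 x.enc (y.enc ++ s) [] [] [])
      (7 * x.size + 4 * y.size + 5) := by
  have h1 := moveVal_save x y.enc s [] []
  have h2 := moveAll_rl (A := .main) (B := .tb) (by decide) y.enc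
    (mk5 y.enc s (x.enc.reverse ++ []) [] []) rfl
  have h2' : RL (moveAll .main .tb) (mk5 y.enc s (x.enc.reverse ++ []) [] []) ()
    (mk5 [] s x.enc.reverse y.enc.reverse []) _ := RL.to h2 rfl (by simp)
  have h3 := moveAll_rl (A := .ta) (B := .main) (by decide) x.enc.reverse
    (mk5 [] s x.enc.reverse y.enc.reverse []) rfl
  have h3' : RL (moveAll .ta .main) (mk5 [] s x.enc.reverse y.enc.reverse []) ()
    (mk5 x.enc s [] y.enc.reverse []) _ := RL.to h3 rfl (by simp)
  have h4 := moveAll_rl (A := .tb) (B := .save) (by decide) y.enc.reverse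
    (mk5 x.enc s [] y.enc.reverse []) rfl
  exact (RL.to (h1.seq (h2'.seq (h3'.seq h4))) rfl (by simp)).mono (by simp; omega)

/-- pair the value saved last with the main value -/
def consT : Frag Unit :=
  seq (moveVal .save) (seq (moveAll .ta .main) (pushI .main true))

theorem consT_rl (x y : D) (s : List Bool) :
    RL consT (mk5 y.enc (x.enc ++ s) [] [] []) () (mk5 (D.cons x y).enc s [] [] [])
      (7 * x.size + 4) := by
  have h1 := moveVal_save x y.enc s [] []
  have h3 := moveAll_rl (A := .ta) (B := .main) (by decide) x.enc.reverse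
    (mk5 y.enc s (x.enc.reverse ++ []) [] []) (by simp)
  have h3' : RL (moveAll .ta .main) (mk5 y.enc s (x.enc.reverse ++ []) [] []) ()
    (mk5 (x.enc ++ y.enc) s [] [] []) _ := RL.to h3 rfl (by simp)
  exact (RL.to (h1.seq (h3'.seq (RL.push .main true _))) rfl (by simp)).mono (by simp; omega)

/-- compute two functions of the main value and pair the results -/
def pairF (F G : Frag Unit) : Frag Unit := seq dup (seq F (seq swapT (seq G consT)))

theorem Comp.pair {F G : Frag Unit} {x y z : D} {t₁ t₂ : ℕ} (h₁ : Comp F x y t₁)
    (h₂ : Comp G x z t₂) : Comp (pairF F G) x (D.cons y z) (t₁ + t₂ + 12 * x.size + 11 * y.size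
      + 11) := by
  intro s
  have a := dup_rl x.enc s
  have b := h₁ (x.enc ++ s)
  have c := swapT_rl x y s
  have d := h₂ (y.enc ++ s)
  have e := consT_rl y z s
  exact (a.seq (b.seq (c.seq (d.seq e)))).mono (by simp; omega)

/-- left component -/
def hdF : Frag Unit :=
  bind (popI .main) fun o => match o with
    | some true => seq (moveVal .main) (seq (clearI .main) (moveAll .ta .main))
    | _ => pushI .main false

/-- right component -/
def tlF : Frag Unit :=
  bind (popI .main) fun o => match o with
    | some true => seq (moveVal .main) (clearI .ta)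
    | _ => pushI .main false

/-- left component; the leaf stays a leaf -/
def D.hd : D → D
  | .nil => .nil
  | .cons a _ => a

/-- right component; the leaf stays a leaf -/
def D.tl : D → D
  | .nil => .nil
  | .cons _ b => b

@[simp] theorem D.hd_nil : D.nil.hd = .nil := rfl
@[simp] theorem D.hd_cons (a b : D) : (D.cons a b).hd = a := rfl
@[simp] theorem D.tl_nil : D.nil.tl = .nil := rfl
@[simp] theorem D.tl_cons (a b : D) : (D.cons a b).tl = b := rfl

theorem Comp.hd (x : D) : Comp hdF x x.hd (8 * x.size + 5) := by
  intro s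
  cases x with
  | nil =>
    refine (RL.to (RL.bind (t₁ := 1) (RL.pop (o := some false) rfl) (RL.push .main false _))
      rfl ?_).mono (by simp)
    simp
  | cons a b =>
    have h1 : RL (moveVal .main) (mk5 (a.enc ++ b.enc) s [] [] []) () _ _ :=
      moveVal_main a b.enc s [] []
    have h2 := clearI_rl (A := .main) b.enc (mk5 b.enc s (a.enc.reverse ++ []) [] []) rfl
    have h2' : RL (clearI .main) (mk5 b.enc s (a.enc.reverse ++ []) [] []) ()
      (mk5 [] s a.enc.reverse [] []) _ := RL.to h2 rfl (by simp)
    have h3 := moveAll_rl (A := .ta) (B := .main) (by decide) a.enc.reverse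
      (mk5 [] s a.enc.reverse [] []) rfl
    have h4 := h1.seq (h2'.seq h3)
    refine (RL.to (RL.bind (t₁ := 1) (RL.pop (o := some true) rfl) (RL.to h4 (by simp) rfl))
      rfl ?_).mono (by simp; omega)
    simp

theorem Comp.tl (x : D) : Comp tlF x x.tl (8 * x.size + 5) := by
  intro s
  cases x with
  | nil =>
    refine (RL.to (RL.bind (t₁ := 1) (RL.pop (o := some false) rfl) (RL.push .main false _))
      rfl ?_).mono (by simp)
    simp
  | cons a b =>
    have h1 : RL (moveVal .main) (mk5 (a.enc ++ b.enc) s [] [] []) () _ _ :=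
      moveVal_main a b.enc s [] []
    have h2 := clearI_rl (A := .ta) (a.enc.reverse ++ []) (mk5 b.enc s (a.enc.reverse ++ []) [] [])
      rfl
    have h4 := h1.seq h2
    refine (RL.to (RL.bind (t₁ := 1) (RL.pop (o := some true) rfl) (RL.to h4 (by simp) rfl))
      rfl ?_).mono (by simp; omega)
    simp

/-- replace the main value by a constant -/
def constF (d : D) : Frag Unit := seq (clearI .main) (pushList .main d.enc)

theorem Comp.const (x d : D) : Comp (constF d) x d (x.size + d.size + 1) := by
  intro s
  have h1 := clearI_rl (A := .main) x.enc (mk5 x.enc s [] [] []) rfl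
  have h2 := pushList_rl (A := .main) d.enc (Function.update (mk5 x.enc s [] [] []) St.main [])
  exact (RL.to (h1.seq h2) rfl (by simp)).mono (by simp; omega)

/-- is the main value an inner node? -/
def testF : Frag Bool :=
  bind (popI .main) fun o => match o with
    | some true => seq (pushI .main true) (ret true)
    | _ => seq (pushI .main false) (ret false)

/-- is the tree an inner node? -/
def D.isCons : D → Bool
  | .nil => false
  | .cons _ _ => true

@[simp] theorem D.isCons_nil : D.nil.isCons = false := rfl
@[simp] theorem D.isCons_cons (a b : D) : (D.cons a b).isCons = true := rfl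

theorem testF_rl (x : D) (s : List Bool) :
    RL testF (mk5 x.enc s [] [] []) x.isCons (mk5 x.enc s [] [] []) 2 := by
  cases x with
  | nil =>
    exact (RL.to (RL.bind (t₁ := 1) (RL.pop (o := some false) rfl)
      (RL.seq (t₂ := 0) (RL.push .main false _) (RL.ret _ _ _))) rfl (by simp)).mono (by simp)
  | cons a b =>
    exact (RL.to (RL.bind (t₁ := 1) (RL.pop (o := some true) rfl)
      (RL.seq (t₂ := 0) (RL.push .main true _) (RL.ret _ _ _))) rfl (by simp)).mono (by simp)

/-- branch on the value computed by `C` -/
def iteF (C F G : Frag Unit) : Frag Unit :=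
  seq dup (seq C (bind testF fun b => seq (clearI .main) (seq (moveVal .save)
    (seq (moveAll .ta .main) (if b then F else G)))))

theorem Comp.ite {C F G : Frag Unit} {x c y : D} {t₁ t₂ : ℕ} (h₁ : Comp C x c t₁)
    (h₂ : Comp (if c.isCons then F else G) x y t₂) :
    Comp (iteF C F G) x y (2 * t₁ + t₂ + 13 * x.size + 8) := by
  intro s
  have a := dup_rl x.enc s
  have b := h₁ (x.enc ++ s)
  have c1 := testF_rl c (x.enc ++ s)
  have d := clearI_rl (A := .main) c.enc (mk5 c.enc (x.enc ++ s) [] [] []) rfl
  have d' : RL (clearI .main) (mk5 c.enc (x.enc ++ s) [] [] []) ()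
    (mk5 [] (x.enc ++ s) [] [] []) _ := RL.to d rfl (by simp)
  have e := moveVal_save x [] s [] []
  have f := moveAll_rl (A := .ta) (B := .main) (by decide) x.enc.reverse
    (mk5 [] s (x.enc.reverse ++ []) [] []) (by simp)
  have f' : RL (moveAll .ta .main) (mk5 [] s (x.enc.reverse ++ []) [] []) ()
    (mk5 x.enc s [] [] []) _ := RL.to f rfl (by simp)
  have g := h₂ s
  have hs := h₁.size_le
  exact (a.seq (b.seq (c1.bind (d'.seq (e.seq (f'.seq g)))))).mono (by simp; omega)

/-- run `F` as long as the value computed by `C` is an inner node -/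
def whileF (C F : Frag Unit) : Frag Unit :=
  loop (seq dup (seq C (bind testF fun b => seq (clearI .main) (seq (moveVal .save)
    (seq (moveAll .ta .main) (if b then seq F (ret none) else ret (some ())))))))

theorem whileF_stop {C F : Frag Unit} {x c : D} {t₁ : ℕ} (h₁ : Comp C x c t₁)
    (hc : c.isCons = false) (s : List Bool) :
    RL (whileF C F) (mk5 x.enc s [] [] []) () (mk5 x.enc s [] [] [])
      (2 * t₁ + 13 * x.size + 8) := by
  refine RL.loop_exit ?_
  have a := dup_rl x.enc s
  have b := h₁ (x.enc ++ s)
  have c1 := testF_rl c (x.enc ++ s)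
  have d := clearI_rl (A := .main) c.enc (mk5 c.enc (x.enc ++ s) [] [] []) rfl
  have d' : RL (clearI .main) (mk5 c.enc (x.enc ++ s) [] [] []) ()
    (mk5 [] (x.enc ++ s) [] [] []) _ := RL.to d rfl (by simp)
  have e := moveVal_save x [] s [] []
  have f := moveAll_rl (A := .ta) (B := .main) (by decide) x.enc.reverse
    (mk5 [] s (x.enc.reverse ++ []) [] []) (by simp)
  have f' : RL (moveAll .ta .main) (mk5 [] s (x.enc.reverse ++ []) [] []) ()
    (mk5 x.enc s [] [] []) _ := RL.to f rfl (by simp)
  have g : RL (if c.isCons then seq F (ret none) else ret (some ())) (mk5 x.enc s [] [] [])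
    (some ()) (mk5 x.enc s [] [] []) 0 := by simpa [hc] using RL.ret _ _ _
  have hs := h₁.size_le
  exact (a.seq (b.seq (c1.bind (d'.seq (e.seq (f'.seq g)))))).mono (by simp; omega)

theorem whileF_step {C F : Frag Unit} {x c y : D} {t₁ t₂ : ℕ} (h₁ : Comp C x c t₁)
    (hc : c.isCons = true) (h₂ : Comp F x y t₂) (s : List Bool) {S' : Stk} {t : ℕ}
    (h : RL (whileF C F) (mk5 y.enc s [] [] []) () S' t) :
    RL (whileF C F) (mk5 x.enc s [] [] []) () S' (2 * t₁ + t₂ + 13 * x.size + 8 + t) := by
  refine RL.loop_next ?_ h
  have a := dup_rl x.enc s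
  have b := h₁ (x.enc ++ s)
  have c1 := testF_rl c (x.enc ++ s)
  have d := clearI_rl (A := .main) c.enc (mk5 c.enc (x.enc ++ s) [] [] []) rfl
  have d' : RL (clearI .main) (mk5 c.enc (x.enc ++ s) [] [] []) ()
    (mk5 [] (x.enc ++ s) [] [] []) _ := RL.to d rfl (by simp)
  have e := moveVal_save x [] s [] []
  have f := moveAll_rl (A := .ta) (B := .main) (by decide) x.enc.reverse
    (mk5 [] s (x.enc.reverse ++ []) [] []) (by simp)
  have f' : RL (moveAll .ta .main) (mk5 [] s (x.enc.reverse ++ []) [] []) ()
    (mk5 x.enc s [] [] []) _ := RL.to f rfl (by simp)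
  have g : RL (if c.isCons then seq F (ret none) else ret (some ())) (mk5 x.enc s [] [] [])
    none (mk5 y.enc s [] [] []) t₂ := by
    simpa [hc] using (h₂ s).seq (t₂ := 0) (RL.ret _ _ _)
  have hs := h₁.size_le
  exact (a.seq (b.seq (c1.bind (d'.seq (e.seq (f'.seq g)))))).mono (by simp; omega)

end Pool.Agent.Lib.MP_76b05e_lc
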