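import Mathlib

/-!
The problem REACHABLE SUBSET for a fixed size, polynomial space, polynomial-time reductions.
-/

namespace Pool.Agent.Lib.MP_76b05e_lc

/-- An instance: a DFA with state set `Fin n`, input alphabet `Fin m` and total transition
function `δ`, together with a set `P` of states. -/
structure Inst where
  /-- number of states -/
  n : ℕ
  /-- number of letters -/
  m : ℕ
  /-- transition function -/
  δ : Fin n → Fin m → Fin n
  /-- the target subset -/
  P : Finset (Fin n)

/-- `q.w`: the state reached from `q` by reading the word `w`. -/
def Inst.run (I : Inst) (w : List (Fin I.m)) (q : Fin I.n) : Fin I.n := w.foldl I.δ q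

/-- `P` is reachable: `P = Q.w` for some word `w`. -/
def Inst.Reachable (I : Inst) : Prop :=
  ∃ w : List (Fin I.m), Finset.univ.image (I.run w) = I.P

/-- the number `k` in unary, as `1^k 0` -/
def unary (k : ℕ) : List Bool := List.replicate k true ++ [false]

/-- The encoding of an instance as a binary word: the number of states, the number of letters,
the transition table (state by state, letter by letter), and the characteristic function of
the subset `P`, all numbers in unary. -/
def Inst.encode (I : Inst) : List Bool :=
  unary I.n ++ unary I.m ++
  (List.finRange I.n).flatMap (fun q => (List.finRange I.m).flatMap fun a => unary (I.δ q a)) ++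
  (List.finRange I.n).flatMap fun q => unary (if q ∈ I.P then 1 else 0)

/-- The decision problem REACHABLE SUBSET with the fixed subset size `k`, as a set of binary
words: the encodings of the pairs of a DFA and a reachable subset with exactly `k` elements. -/
def ReachableSubset (k : ℕ) : Set (List Bool) :=
  {x | ∃ I : Inst, x = I.encode ∧ I.P.card = k ∧ I.Reachable}

/-- Deterministic polynomial space, for the multi-stack Turing machines `Turing.FinTM2` of
Mathlib: a machine with finite alphabets that halts on every input `x` with output `1` if
`x ∈ L` and `0` otherwise, such that in every configuration reached on input `x` the total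
number of symbols stored on the stacks is at most `p(|x|)`, for a polynomial `p`. -/
def InPSPACE (L : Set (List Bool)) : Prop :=
  ∃ (tm : Turing.FinTM2) (_ : ∀ k, Finite (tm.Γ k)) (ein : tm.Γ tm.k₀ ≃ Bool)
    (eout : tm.Γ tm.k₁ ≃ Bool) (p : Polynomial ℕ), ∀ x : List Bool,
      (x ∈ L → Nonempty (Turing.TM2Outputs tm (x.map ein.symm) (some [eout.symm true]))) ∧
      (x ∉ L → Nonempty (Turing.TM2Outputs tm (x.map ein.symm) (some [eout.symm false]))) ∧
      ∀ c : tm.Cfg, StateTransition.Reaches tm.step (Turing.initList tm (x.map ein.symm)) c →
        ∑ k ∈ @Finset.univ tm.K tm.kFin, (c.stk k).length ≤ p.eval x.length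

/-- Polynomial-time many-one reducibility, with Mathlib's `TM2ComputableInPolyTime`. -/
def PolyReducible (L L' : Set (List Bool)) : Prop :=
  ∃ f : List Bool → List Bool,
    Nonempty (Turing.TM2ComputableInPolyTime (id : List Bool → List Bool) id f) ∧
    ∀ x, x ∈ L ↔ f x ∈ L'

/-- `L` is complete for polynomial space under polynomial-time many-one reductions. -/
def PSPACEComplete (L : Set (List Bool)) : Prop :=
  InPSPACE L ∧ ∀ L', InPSPACE L' → PolyReducible L' L

end Pool.Agent.Lib.MP_76b05e_lc
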