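import Mathlib

/-!
Program fragments for a machine with five stacks of bits.
-/

namespace Pool.Agent.Lib.MP_76b05e_lc

/-- names of the five stacks -/
inductive St
  | main | save | ta | tb | cnt
  deriving DecidableEq

instance : Fintype St := ⟨{.main, .save, .ta, .tb, .cnt}, by intro x; cases x <;> decide⟩

/-- contents of the five stacks -/
abbrev Stk := St → List Bool

/-- explicit stack contents -/
def mk5 (m s a b c : List Bool) : Stk
  | .main => m
  | .save => s
  | .ta => a
  | .tb => b
  | .cnt => c

section
variable (m s a b c x : List Bool)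
@[simp] theorem mk5_main : mk5 m s a b c .main = m := rfl
@[simp] theorem mk5_save : mk5 m s a b c .save = s := rfl
@[simp] theorem mk5_ta : mk5 m s a b c .ta = a := rfl
@[simp] theorem mk5_tb : mk5 m s a b c .tb = b := rfl
@[simp] theorem mk5_cnt : mk5 m s a b c .cnt = c := rfl
@[simp] theorem upd_main : Function.update (mk5 m s a b c) .main x = mk5 x s a b c := by
  funext k; cases k <;> simp [mk5]
@[simp] theorem upd_save : Function.update (mk5 m s a b c) .save x = mk5 m x a b c := by
  funext k; cases k <;> simp [mk5]
@[simp] theorem upd_ta : Function.update (mk5 m s a b c) .ta x = mk5 m s x b c := by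
  funext k; cases k <;> simp [mk5]
@[simp] theorem upd_tb : Function.update (mk5 m s a b c) .tb x = mk5 m s a x c := by
  funext k; cases k <;> simp [mk5]
@[simp] theorem upd_cnt : Function.update (mk5 m s a b c) .cnt x = mk5 m s a b x := by
  funext k; cases k <;> simp [mk5]
end

/-- total number of symbols on the stacks -/
def tot (S : Stk) : ℕ := ∑ k, (S k).length

theorem tot_mk5 (m s a b c : List Bool) :
    tot (mk5 m s a b c) = m.length + s.length + a.length + b.length + c.length := by
  have : (Finset.univ : Finset St) = {.main, .save, .ta, .tb, .cnt} := by decide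
  simp only [tot, this]
  rw [Finset.sum_insert (by decide), Finset.sum_insert (by decide), Finset.sum_insert (by decide),
    Finset.sum_insert (by decide), Finset.sum_singleton]
  simp [add_assoc]

/-- one instruction: push a bit or pop a stack and branch on the popped symbol -/
inductive Instr (L : Type) where
  | push (k : St) (b : Bool) (l : L)
  | pop (k : St) (l : Option Bool → L)

/-- relabel the targets -/
def Instr.map {L L' : Type} (f : L → L') : Instr L → Instr L'
  | .push k b l => .push k b (f l)
  | .pop k l => .pop k (fun o => f (l o))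

/-- effect of one instruction -/
def Instr.exec {L : Type} : Instr L → Stk → L × Stk
  | .push k b l, S => (l, Function.update S k (b :: S k))
  | .pop k l, S => (l (S k).head?, Function.update S k (S k).tail)

@[simp] theorem Instr.exec_map {L L' : Type} (f : L → L') (i : Instr L) (S : Stk) :
    (i.map f).exec S = (f (i.exec S).1, (i.exec S).2) := by
  cases i <;> rfl

/-- a program fragment with finitely many labels and exits of type `E` -/
structure Frag (E : Type) where
  /-- labels -/
  L : Type
  /-- finitely many labels -/
  fin : Finite L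
  /-- where to start -/
  entry : L ⊕ E
  /-- the instruction at every label -/
  code : L → Instr (L ⊕ E)

attribute [instance] Frag.fin

/-- reachability in exactly `t` steps -/
inductive Reach {E : Type} (F : Frag E) : (F.L ⊕ E) → Stk → (F.L ⊕ E) → Stk → ℕ → Prop
  | refl (l : F.L ⊕ E) (S : Stk) : Reach F l S l S 0
  | head (l : F.L) (S : Stk) (l' : F.L ⊕ E) (S' : Stk) (t : ℕ) :
      Reach F ((F.code l).exec S).1 ((F.code l).exec S).2 l' S' t →
      Reach F (Sum.inl l) S l' S' (t + 1)

theorem Reach.trans {E : Type} {F : Frag E} {l₁ l₂ l₃ : F.L ⊕ E} {S₁ S₂ S₃ : Stk} {t₁ t₂ : ℕ}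
    (h₁ : Reach F l₁ S₁ l₂ S₂ t₁) (h₂ : Reach F l₂ S₂ l₃ S₃ t₂) :
    Reach F l₁ S₁ l₃ S₃ (t₁ + t₂) := by
  induction h₁ with
  | refl l S => simpa using h₂
  | head l S l' S' t _ ih =>
    have := Reach.head l S l₃ S₃ _ (ih h₂)
    rwa [show t + 1 + t₂ = t + t₂ + 1 by omega]

/-- running a fragment from its entry to an exit, in exactly `t` steps -/
def Runs {E : Type} (F : Frag E) (S : Stk) (e : E) (S' : Stk) (t : ℕ) : Prop :=
  Reach F F.entry S (Sum.inr e) S' t

theorem Runs.congr {E : Type} {F : Frag E} {S : Stk} {e : E} {S' : Stk} {t : ℕ}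
    (h : Runs F S e S' t) {S₀ : Stk} {S₁ : Stk} {t' : ℕ} {e' : E} (h0 : S₀ = S) (h1 : S₁ = S')
    (ht : t' = t) (he : e' = e) : Runs F S₀ e' S₁ t' := by
  subst h0 h1 ht he; exact h

/-! ### combinators -/

/-- do nothing, take exit `e` -/
def ret {E : Type} (e : E) : Frag E where
  L := Empty
  fin := inferInstance
  entry := Sum.inr e
  code := fun l => l.elim

theorem Runs.ret {E : Type} (e : E) (S : Stk) : Runs (ret e) S e S 0 := Reach.refl _ _

/-- push one bit -/
def pushI (k : St) (b : Bool) : Frag Unit where
  L := Unit
  fin := inferInstance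
  entry := Sum.inl ()
  code := fun _ => .push k b (Sum.inr ())

theorem Runs.push (k : St) (b : Bool) (S : Stk) :
    Runs (pushI k b) S () (Function.update S k (b :: S k)) 1 :=
  Reach.head _ _ _ _ _ (Reach.refl _ _)

/-- pop one bit and exit with it -/
def popI (k : St) : Frag (Option Bool) where
  L := Unit
  fin := inferInstance
  entry := Sum.inl ()
  code := fun _ => .pop k (fun o => Sum.inr o)

theorem Runs.pop (k : St) (S : Stk) :
    Runs (popI k) S (S k).head? (Function.update S k (S k).tail) 1 :=
  Reach.head _ _ _ _ _ (Reach.refl _ _)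

/-- sequencing: the exit of the first fragment selects the second -/
def bind {E E' : Type} [Finite E] (F : Frag E) (G : E → Frag E') : Frag E' where
  L := F.L ⊕ (Σ e, (G e).L)
  fin := inferInstance
  entry := match F.entry with
    | Sum.inl l => Sum.inl (Sum.inl l)
    | Sum.inr e => (G e).entry.map (fun l => Sum.inr ⟨e, l⟩) id
  code := fun l => match l with
    | Sum.inl l => (F.code l).map (fun x => match x with
        | Sum.inl l => Sum.inl (Sum.inl l)
        | Sum.inr e => (G e).entry.map (fun l => Sum.inr ⟨e, l⟩) id)
    | Sum.inr ⟨e, l⟩ => ((G e).code l).map (fun x => x.map (fun l => Sum.inr ⟨e, l⟩) id)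

/-- target translation of `bind` -/
def bindT {E E' : Type} [Finite E] (F : Frag E) (G : E → Frag E') :
    F.L ⊕ E → (bind F G).L ⊕ E' := fun x => match x with
        | Sum.inl l => Sum.inl (Sum.inl l)
        | Sum.inr e => (G e).entry.map (fun l => Sum.inr ⟨e, l⟩) id

theorem Reach.bind_left {E E' : Type} [Finite E] (F : Frag E) (G : E → Frag E')
    {l l' : F.L ⊕ E} {S S' : Stk} {t : ℕ} (h : Reach F l S l' S' t) :
    Reach (bind F G) (bindT F G l) S (bindT F G l') S' t := by
  induction h with
  | refl l S => exact Reach.refl _ _
  | head l S l' S' t _ ih =>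
    refine Reach.head (F := bind F G) (Sum.inl l) S _ S' t ?_
    simpa [bind, bindT] using ih

theorem Reach.bind_right {E E' : Type} [Finite E] (F : Frag E) (G : E → Frag E') (e : E)
    {l l' : (G e).L ⊕ E'} {S S' : Stk} {t : ℕ} (h : Reach (G e) l S l' S' t) :
    Reach (bind F G) (l.map (fun l => Sum.inr ⟨e, l⟩) id) S
      (l'.map (fun l => Sum.inr ⟨e, l⟩) id) S' t := by
  induction h with
  | refl l S => exact Reach.refl _ _
  | head l S l' S' t _ ih =>
    refine Reach.head (F := bind F G) (Sum.inr ⟨e, l⟩) S _ S' t ?_
    simpa [bind] using ih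

theorem Runs.bind {E E' : Type} [Finite E] {F : Frag E} {G : E → Frag E'} {S S₁ S' : Stk}
    {e : E} {e' : E'} {t₁ t₂ : ℕ} (h₁ : Runs F S e S₁ t₁) (h₂ : Runs (G e) S₁ e' S' t₂) :
    Runs (bind F G) S e' S' (t₁ + t₂) := by
  have a := Reach.bind_left F G h₁
  have b := Reach.bind_right F G e h₂
  have : (MP_76b05e_lc.bind F G).entry = bindT F G F.entry := by
    simp only [MP_76b05e_lc.bind, bindT]
  unfold Runs
  rw [this]
  exact a.trans b

/-- sequencing of fragments with a single exit -/
def seq {E : Type} (F : Frag Unit) (G : Frag E) : Frag E := bind F (fun _ => G)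

theorem Runs.seq {E : Type} {F : Frag Unit} {G : Frag E} {S S₁ S' : Stk} {e' : E} {t₁ t₂ : ℕ}
    (h₁ : Runs F S () S₁ t₁) (h₂ : Runs G S₁ e' S' t₂) : Runs (seq F G) S e' S' (t₁ + t₂) :=
  Runs.bind h₁ h₂

/-- loop: the exit `none` of the body goes back to the entry of the body -/
def loop {E : Type} (F : Frag (Option E)) : Frag E where
  L := Option F.L
  fin := inferInstance
  entry := match F.entry with
    | Sum.inl l => Sum.inl (some l)
    | Sum.inr none => Sum.inl none
    | Sum.inr (some e) => Sum.inr e
  code := fun l => match l with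
    | none => .push .main true (Sum.inl none)
    | some l => (F.code l).map (fun x => match x with
      | Sum.inl l => Sum.inl (some l)
      | Sum.inr (some e) => Sum.inr e
      | Sum.inr none => match F.entry with
        | Sum.inl l => Sum.inl (some l)
        | Sum.inr none => Sum.inl none
        | Sum.inr (some e) => Sum.inr e)

/-- target translation of `loop` -/
def loopT {E : Type} (F : Frag (Option E)) : F.L ⊕ Option E → (loop F).L ⊕ E := fun x => match x with
      | Sum.inl l => Sum.inl (some l)
      | Sum.inr (some e) => Sum.inr e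
      | Sum.inr none => (loop F).entry

theorem Reach.loop {E : Type} (F : Frag (Option E)) {l l' : F.L ⊕ Option E} {S S' : Stk} {t : ℕ}
    (h : Reach F l S l' S' t) :
    Reach (loop F) (loopT F l) S (loopT F l') S' t := by
  induction h with
  | refl l S => exact Reach.refl _ _
  | head l S l' S' t _ ih =>
    refine Reach.head (F := MP_76b05e_lc.loop F) (some l) S _ S' t ?_
    simp only [MP_76b05e_lc.loop, loopT] at ih ⊢
    simpa using ih

theorem loopT_entry {E : Type} (F : Frag (Option E)) : loopT F F.entry = (loop F).entry := by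
  unfold loopT
  rcases h : F.entry with l | (_ | e) <;> simp [MP_76b05e_lc.loop, h]

theorem Runs.loop_exit {E : Type} {F : Frag (Option E)} {S S' : Stk} {e : E} {t : ℕ}
    (h : Runs F S (some e) S' t) : Runs (loop F) S e S' t := by
  have a := Reach.loop F h
  rw [loopT_entry] at a
  exact a

theorem Runs.loop_next {E : Type} {F : Frag (Option E)} {S S₁ S' : Stk} {e : E} {t₁ t₂ : ℕ}
    (h : Runs F S none S₁ t₁) (h₂ : Runs (loop F) S₁ e S' t₂) :
    Runs (loop F) S e S' (t₁ + t₂) := by
  have a := Reach.loop F h
  rw [loopT_entry] at a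
  exact a.trans h₂

/-! ### growth of the stacks -/

theorem tot_update (S : Stk) (k : St) (x : List Bool) :
    tot (Function.update S k x) + (S k).length = tot S + x.length := by
  unfold tot
  have h1 := Finset.add_sum_erase Finset.univ (fun j => (S j).length) (Finset.mem_univ k)
  have h2 := Finset.add_sum_erase Finset.univ (fun j => (Function.update S k x j).length)
    (Finset.mem_univ k)
  have h3 : ∑ j ∈ Finset.univ.erase k, (Function.update S k x j).length =
      ∑ j ∈ Finset.univ.erase k, (S j).length := by
    refine Finset.sum_congr rfl fun j hj => ?_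
    rw [Function.update_of_ne (Finset.ne_of_mem_erase hj)]
  simp only [Function.update_self] at h2
  omega

theorem Instr.tot_exec {L : Type} (i : Instr L) (S : Stk) : tot (i.exec S).2 ≤ tot S + 1 := by
  cases i with
  | push k b l =>
    have := tot_update S k (b :: S k)
    simp only [Instr.exec, List.length_cons] at *
    omega
  | pop k l =>
    have := tot_update S k (S k).tail
    have h : (S k).tail.length ≤ (S k).length := by simp
    simp only [Instr.exec] at *
    omega

theorem Reach.tot_le {E : Type} {F : Frag E} {l l' : F.L ⊕ E} {S S' : Stk} {t : ℕ}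
    (h : Reach F l S l' S' t) : tot S' ≤ tot S + t := by
  induction h with
  | refl l S => simp
  | head l S l' S' t _ ih =>
    have := (F.code l).tot_exec S
    omega

end Pool.Agent.Lib.MP_76b05e_lc
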