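import Mathlib

/-!
The combinatorial heart of the hardness proof: an intersection of local automata is nonempty if
and only if a subset of `k' + 1` states is reachable in a suitable DFA.
-/

namespace Pool.Agent.Lib.MP_76b05e_lc

/-- A family of local automata: `J` cells with states `G` and a control unit with states `Cc`,
all reading words over `Fin J × E`. -/
structure LSys where
  /-- states of a cell -/
  G : Type
  /-- events -/
  E : Type
  /-- states of the control unit -/
  Cc : Type
  finG : Finite G
  finE : Finite E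
  finC : Finite Cc
  /-- transitions of a cell -/
  cell : Fin 3 → E → G → G
  /-- transitions of the control unit -/
  ctl : Bool → E → Cc → Cc
  /-- initial state of a cell -/
  init : Option Bool → G
  /-- initial state of the control unit -/
  ctl0 : Cc
  /-- accepting states of a cell -/
  accG : Bool → G → Bool
  /-- accepting states of the control unit -/
  accC : Cc → Bool

attribute [instance] LSys.finG LSys.finE LSys.finC

/-- position of cell `j` relative to the position `h` of a letter -/
def rel (j h : ℕ) : Fin 3 := if j + 1 = h then 0 else if j = h then 1 else 2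

/-- the states of the DFA outside the cells -/
inductive Sp (Cc : Type) (k : ℕ)
  | ctl (c : Cc)
  | z (i : Fin k)
  | q (i : Fin k)
  | p
  | r

/-- `Sp` as a sum -/
def Sp.toSum {Cc : Type} {k : ℕ} : Sp Cc k → Cc ⊕ (Fin k ⊕ (Fin k ⊕ Bool))
  | .ctl c => Sum.inl c
  | .z i => Sum.inr (Sum.inl i)
  | .q i => Sum.inr (Sum.inr (Sum.inl i))
  | .p => Sum.inr (Sum.inr (Sum.inr true))
  | .r => Sum.inr (Sum.inr (Sum.inr false))

instance {Cc : Type} [Finite Cc] {k : ℕ} : Finite (Sp Cc k) := by
  refine Finite.of_injective Sp.toSum ?_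
  intro a b h
  cases a <;> cases b <;> simp [Sp.toSum] at h ⊢ <;> exact h

namespace LSys

variable (s : LSys) {k J : ℕ} (x : List Bool)

/-- effect of a simulation letter on the special states -/
def spSim (b : Bool) (e : s.E) : Sp s.Cc k → Sp s.Cc k
  | .ctl c => .ctl (s.ctl b e c)
  | .z i => .z i
  | _ => .r

/-- effect of the reset letter on the special states -/
def spInit : Sp s.Cc k → Sp s.Cc k
  | .z i => .z i
  | _ => .ctl s.ctl0

/-- effect of the checking letter on the special states -/
def spChk : Sp s.Cc k → Sp s.Cc k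
  | .ctl c => if s.accC c then .p else .r
  | .z i => .q i
  | _ => .r

/-- initial state of cell `j` -/
def initG (j : ℕ) : s.G := s.init (x.reverse[j]?)

/-- the transition function of the DFA -/
def step : (Fin J × s.G) ⊕ Sp s.Cc k → (Fin J × s.E) ⊕ Bool → (Fin J × s.G) ⊕ Sp s.Cc k
  | Sum.inl (j, g), Sum.inl (h, e) => Sum.inl (j, s.cell (rel j h) e g)
  | Sum.inl (j, _), Sum.inr false => Sum.inl (j, s.initG x j)
  | Sum.inl (j, g), Sum.inr true => Sum.inr (if s.accG (j.val == 0) g then .p else .r)
  | Sum.inr b, Sum.inl (h, e) => Sum.inr (s.spSim (h.val == 0) e b)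
  | Sum.inr b, Sum.inr false => Sum.inr (s.spInit b)
  | Sum.inr b, Sum.inr true => Sum.inr (s.spChk b)

/-- run of a cell -/
def cellRun (j : ℕ) (v : List (Fin J × s.E)) (g : s.G) : s.G :=
  v.foldl (fun g a => s.cell (rel j a.1) a.2 g) g

/-- run of the control unit -/
def ctlRun (v : List (Fin J × s.E)) (c : s.Cc) : s.Cc :=
  v.foldl (fun c a => s.ctl (a.1.val == 0) a.2 c) c

/-- there is a word accepted by all local automata -/
def Acc (J : ℕ) (x : List Bool) : Prop :=
  ∃ v : List (Fin J × s.E), s.accC (s.ctlRun v s.ctl0) = true ∧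
    ∀ j : Fin J, s.accG (j.val == 0) (s.cellRun j v (s.initG x j)) = true

/-- the run of the DFA -/
def drun (w : List ((Fin J × s.E) ⊕ Bool)) (a : (Fin J × s.G) ⊕ Sp s.Cc k) :
    (Fin J × s.G) ⊕ Sp s.Cc k := w.foldl (s.step x) a

@[simp] theorem drun_nil (a : (Fin J × s.G) ⊕ Sp s.Cc k) : s.drun x [] a = a := rfl

theorem drun_append (w w' : List ((Fin J × s.E) ⊕ Bool)) (a : (Fin J × s.G) ⊕ Sp s.Cc k) :
    s.drun x (w ++ w') a = s.drun x w' (s.drun x w a) := by simp [drun]

theorem drun_cons (l) (w' : List ((Fin J × s.E) ⊕ Bool)) (a : (Fin J × s.G) ⊕ Sp s.Cc k) :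
    s.drun x (l :: w') a = s.drun x w' (s.step x a l) := by simp [drun]

theorem drun_sim_cell (v : List (Fin J × s.E)) (j : Fin J) (g : s.G) :
    s.drun (k := k) x (v.map Sum.inl) (Sum.inl (j, g)) = Sum.inl (j, s.cellRun j v g) := by
  induction v generalizing g with
  | nil => rfl
  | cons a v ih =>
    rw [List.map_cons, drun_cons]
    exact ih _

theorem drun_sim_ctl (v : List (Fin J × s.E)) (c : s.Cc) :
    s.drun (k := k) x (v.map Sum.inl) (Sum.inr (.ctl c)) = Sum.inr (.ctl (s.ctlRun v c)) := by
  induction v generalizing c with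
  | nil => rfl
  | cons a v ih =>
    rw [List.map_cons, drun_cons]
    exact ih _

theorem drun_sim_z (v : List (Fin J × s.E)) (i : Fin k) :
    s.drun x (v.map Sum.inl) (Sum.inr (.z i)) = Sum.inr (.z i) := by
  induction v with
  | nil => rfl
  | cons a v ih =>
    rw [List.map_cons, drun_cons]
    exact ih

theorem drun_sim_r (v : List (Fin J × s.E)) :
    s.drun (k := k) x (v.map Sum.inl) (Sum.inr .r) = Sum.inr .r := by
  induction v with
  | nil => rfl
  | cons a v ih =>
    rw [List.map_cons, drun_cons]
    exact ih

/-- without checking letter every cell keeps its token -/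
theorem drun_cell {w : List ((Fin J × s.E) ⊕ Bool)} (hw : Sum.inr true ∉ w) (j : Fin J)
    (g : s.G) : ∃ g', s.drun (k := k) x w (Sum.inl (j, g)) = Sum.inl (j, g') := by
  induction w generalizing g with
  | nil => exact ⟨g, rfl⟩
  | cons l w ih =>
    rw [List.mem_cons, not_or] at hw
    rcases l with ⟨h, e⟩ | (_ | _)
    · exact ih hw.2 _
    · exact ih hw.2 _
    · exact absurd rfl hw.1

/-- without checking letter the control unit keeps its token -/
theorem drun_ctl {w : List ((Fin J × s.E) ⊕ Bool)} (hw : Sum.inr true ∉ w)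
    (c : s.Cc) : ∃ c', s.drun (k := k) x w (Sum.inr (.ctl c)) = Sum.inr (.ctl c') := by
  induction w generalizing c with
  | nil => exact ⟨c, rfl⟩
  | cons l w ih =>
    rw [List.mem_cons, not_or] at hw
    rcases l with ⟨h, e⟩ | (_ | _)
    · exact ih hw.2 _
    · exact ih hw.2 _
    · exact absurd rfl hw.1

/-- the states `z` cannot be re-entered -/
theorem drun_to_z {w : List ((Fin J × s.E) ⊕ Bool)} {a : (Fin J × s.G) ⊕ Sp s.Cc k} {i : Fin k}
    (h : s.drun x w a = Sum.inr (.z i)) : a = Sum.inr (.z i) ∧ Sum.inr true ∉ w := by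
  induction w using List.reverseRecOn with
  | nil => exact ⟨h, by simp⟩
  | append_singleton w l ih =>
    rw [drun_append, drun_cons, drun_nil] at h
    have key : s.drun x w a = Sum.inr (.z i) ∧ l ≠ Sum.inr true := by
      rcases hd : s.drun x w a with ⟨j, g⟩ | b
      · rw [hd] at h
        rcases l with ⟨h', e⟩ | (_ | _)
        · simp [step] at h
        · simp [step] at h
        · simp only [step] at h
          split_ifs at h <;> simp at h
      · rw [hd] at h
        rcases l with ⟨h', e⟩ | (_ | _)
        · cases b <;> simp [step, spSim] at h ⊢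
          exact h
        · cases b <;> simp [step, spInit] at h ⊢
          exact h
        · cases b <;> simp [step, spChk] at h
          split_ifs at h
    obtain ⟨h1, h2⟩ := ih key.1
    refine ⟨h1, ?_⟩
    rw [List.mem_append, not_or]
    exact ⟨h2, by simpa using Ne.symm key.2⟩

/-- a word without checking letter: look at the last reset -/
theorem last_reset (w : List ((Fin J × s.E) ⊕ Bool)) (hw : Sum.inr true ∉ w) :
    (∃ v : List (Fin J × s.E), w = v.map Sum.inl) ∨
    ∃ (w₁ : List ((Fin J × s.E) ⊕ Bool)) (v : List (Fin J × s.E)), Sum.inr true ∉ w₁ ∧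
      w = w₁ ++ Sum.inr false :: v.map Sum.inl := by
  induction w using List.reverseRecOn with
  | nil => exact Or.inl ⟨[], rfl⟩
  | append_singleton w l ih =>
    rw [List.mem_append, not_or] at hw
    rcases l with a | (_ | _)
    · rcases ih hw.1 with ⟨v, rfl⟩ | ⟨w₁, v, h1, rfl⟩
      · exact Or.inl ⟨v ++ [a], by simp⟩
      · exact Or.inr ⟨w₁, v ++ [a], h1, by simp⟩
    · exact Or.inr ⟨w, [], hw.1, by simp⟩
    · simp at hw

/-- **The reduction**: the set `{p} ∪ {q₁, …, q_k}` is reachable if and only if the local
automata accept a common word. -/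
theorem gadget (hk : 0 < k) :
    (∃ w : List ((Fin J × s.E) ⊕ Bool), Set.range (s.drun (k := k) x w) =
      {a | a = Sum.inr .p ∨ ∃ i, a = Sum.inr (.q i)}) ↔ s.Acc J x := by
  constructor
  · rintro ⟨w, hw⟩
    have hmem : ∀ a, s.drun (k := k) x w a = Sum.inr .p ∨
        ∃ i, s.drun (k := k) x w a = Sum.inr (.q i) := by
      intro a
      have : s.drun (k := k) x w a ∈ Set.range (s.drun (k := k) x w) := ⟨a, rfl⟩
      rwa [hw] at this
    obtain ⟨a₁, ha₁⟩ : (Sum.inr .p : (Fin J × s.G) ⊕ Sp s.Cc k) ∈
        Set.range (s.drun (k := k) x w) := by rw [hw]; exact Or.inl rfl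
    obtain ⟨a₂, ha₂⟩ : (Sum.inr (.q ⟨0, hk⟩) : (Fin J × s.G) ⊕ Sp s.Cc k) ∈
        Set.range (s.drun (k := k) x w) := by rw [hw]; exact Or.inr ⟨_, rfl⟩
    rcases List.eq_nil_or_concat' w with rfl | ⟨w', l, rfl⟩
    · rcases hmem (Sum.inr .r) with h | ⟨i, h⟩ <;> simp at h
    · -- the last letter is the checking letter
      have hl : l = Sum.inr true := by
        rw [drun_append, drun_cons, drun_nil] at ha₁
        rcases hd : s.drun x w' a₁ with ⟨j, g⟩ | b
        · rw [hd] at ha₁
          rcases l with ⟨h', e⟩ | (_ | _)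
          · simp [step] at ha₁
          · simp [step] at ha₁
          · rfl
        · rw [hd] at ha₁
          rcases l with ⟨h', e⟩ | (_ | _)
          · cases b <;> simp [step, spSim] at ha₁
          · cases b <;> simp [step, spInit] at ha₁
          · rfl
      subst hl
      -- the token of `z`
      have hz : s.drun x w' a₂ = Sum.inr (.z ⟨0, hk⟩) := by
        rw [drun_append, drun_cons, drun_nil] at ha₂
        rcases hd : s.drun x w' a₂ with ⟨j, g⟩ | b
        · rw [hd] at ha₂
          simp only [step] at ha₂
          split_ifs at ha₂ <;> simp at ha₂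
        · rw [hd] at ha₂
          cases b <;> simp [step, spChk] at ha₂ ⊢
          · split_ifs at ha₂
          · exact ha₂
      have hno := (s.drun_to_z x hz).2
      rcases s.last_reset w' hno with ⟨v, rfl⟩ | ⟨w₁, v, h1, rfl⟩
      · -- no reset: the token of `r` stays
        rcases hmem (Sum.inr .r) with h | ⟨i, h⟩ <;>
          rw [drun_append, drun_sim_r, drun_cons, drun_nil] at h <;>
          simp [step, spChk] at h
      · refine ⟨v, ?_, ?_⟩
        · obtain ⟨c', hc'⟩ := s.drun_ctl (k := k) x h1 s.ctl0
          have h := hmem (Sum.inr (.ctl s.ctl0))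
          rw [drun_append, drun_append, hc', s.drun_cons x (Sum.inr false)] at h
          have e1 : s.step (J := J) (k := k) x (Sum.inr (.ctl c')) (Sum.inr false) =
            Sum.inr (.ctl s.ctl0) := rfl
          rw [e1, drun_sim_ctl, drun_cons, drun_nil] at h
          simp only [step, spChk] at h
          by_contra hne
          simp [hne] at h
        · intro j
          obtain ⟨c', hc'⟩ := s.drun_cell (k := k) x h1 j (s.initG x j)
          have h := hmem (Sum.inl (j, s.initG x j))
          rw [drun_append, drun_append, hc', s.drun_cons x (Sum.inr false)] at h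
          have e1 : s.step (J := J) (k := k) x (Sum.inl (j, c')) (Sum.inr false) =
            Sum.inl (j, s.initG x j) := rfl
          rw [e1, drun_sim_cell, drun_cons, drun_nil] at h
          simp only [step] at h
          by_contra hne
          simp [hne] at h
  · rintro ⟨v, hc, hg⟩
    refine ⟨Sum.inr false :: (v.map Sum.inl ++ [Sum.inr true]), ?_⟩
    have hctl : s.step (J := J) (k := k) x (s.drun x (v.map Sum.inl)
        (Sum.inr (.ctl s.ctl0))) (Sum.inr true) = Sum.inr .p := by
      rw [drun_sim_ctl]
      simp only [step, spChk, hc, if_true]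
    have hz : ∀ i, s.drun (J := J) (k := k) x
        (Sum.inr false :: (v.map Sum.inl ++ [Sum.inr true])) (Sum.inr (.z i)) =
        Sum.inr (.q i) := by
      intro i
      rw [drun_cons, drun_append, drun_cons, drun_nil]
      have e1 : s.step (J := J) (k := k) x (Sum.inr (.z i)) (Sum.inr false) =
        Sum.inr (.z i) := rfl
      rw [e1, drun_sim_z]
      rfl
    have hcell : ∀ j g, s.drun (J := J) (k := k) x
        (Sum.inr false :: (v.map Sum.inl ++ [Sum.inr true])) (Sum.inl (j, g)) = Sum.inr .p := by
      intro j g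
      rw [drun_cons, drun_append, drun_cons, drun_nil]
      have e1 : s.step (J := J) (k := k) x (Sum.inl (j, g)) (Sum.inr false) =
          Sum.inl (j, s.initG x j) := rfl
      rw [e1, drun_sim_cell]
      simp only [step, hg j, if_true]
    have hoth : ∀ b : Sp s.Cc k, (∀ i, b ≠ .z i) → s.drun (J := J) (k := k) x
        (Sum.inr false :: (v.map Sum.inl ++ [Sum.inr true])) (Sum.inr b) = Sum.inr .p := by
      intro b hb
      rw [drun_cons, drun_append, drun_cons, drun_nil]
      cases b with
      | z i => exact absurd rfl (hb i)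
      | ctl c => exact hctl
      | q i => exact hctl
      | p => exact hctl
      | r => exact hctl
    ext b
    simp only [Set.mem_range, Set.mem_ofPred_eq]
    constructor
    · rintro ⟨a, rfl⟩
      rcases a with ⟨j, g⟩ | b
      · exact Or.inl (hcell j g)
      · by_cases hb : ∃ i, b = .z i
        · obtain ⟨i, rfl⟩ := hb
          exact Or.inr ⟨i, hz i⟩
        · exact Or.inl (hoth b fun i hi => hb ⟨i, hi⟩)
    · rintro (rfl | ⟨i, rfl⟩)
      · exact ⟨Sum.inr .p, hoth _ (by simp)⟩
      · exact ⟨Sum.inr (.z i), hz i⟩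

end LSys

end Pool.Agent.Lib.MP_76b05e_lc
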