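import Pool.Agent.Lib.MP_76b05e_lc.Reduce

/-!
Every language in deterministic polynomial space is the language of a system of local automata.
-/

namespace Pool.Agent.Lib.MP_76b05e_lc

open Turing

section

variable {K : Type} [DecidableEq K] {Γ : K → Type} {Λ σ : Type}

/-- number of symbols that can be pushed while executing a statement -/
def wt : TM2.Stmt Γ Λ σ → ℕ
  | .push _ _ q => wt q + 1
  | .peek _ _ q => wt q
  | .pop _ _ q => wt q
  | .load _ q => wt q
  | .branch _ q₁ q₂ => max (wt q₁) (wt q₂)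
  | .goto _ => 0
  | .halt => 0

/-- micro steps: execute one primitive action -/
def micro (M : Λ → TM2.Stmt Γ Λ σ) : TM2.Stmt Γ Λ σ → σ → (∀ k, List (Γ k)) →
    Option (TM2.Stmt Γ Λ σ × σ × (∀ k, List (Γ k)))
  | .push k f q, v, S => some (q, v, Function.update S k (f v :: S k))
  | .peek k f q, v, S => some (q, f v (S k).head?, S)
  | .pop k f q, v, S => some (q, f v (S k).head?, Function.update S k (S k).tail)
  | .load f q, v, S => some (q, f v, S)
  | .branch f q₁ q₂, v, S => some (cond (f v) q₁ q₂, v, S)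
  | .goto f, v, S => some (M (f v), v, S)
  | .halt, _, _ => none

/-- reachability by micro steps -/
def Mic (M : Λ → TM2.Stmt Γ Λ σ) : TM2.Stmt Γ Λ σ × σ × (∀ k, List (Γ k)) →
    TM2.Stmt Γ Λ σ × σ × (∀ k, List (Γ k)) → Prop :=
  Relation.ReflTransGen fun a b => micro M a.1 a.2.1 a.2.2 = some b

/-- the micro configuration of a configuration -/
def tgtC (M : Λ → TM2.Stmt Γ Λ σ) : TM2.Cfg Γ Λ σ → TM2.Stmt Γ Λ σ × σ × (∀ k, List (Γ k))
  | ⟨some l, v, S⟩ => (M l, v, S)
  | ⟨none, v, S⟩ => (.halt, v, S)

theorem mic_stepAux (M : Λ → TM2.Stmt Γ Λ σ) (q : TM2.Stmt Γ Λ σ) (v : σ)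
    (S : ∀ k, List (Γ k)) : Mic M (q, v, S) (tgtC M (TM2.stepAux q v S)) := by
  induction q generalizing v S with
  | push k f q ih => exact Relation.ReflTransGen.head rfl (ih _ _)
  | peek k f q ih => exact Relation.ReflTransGen.head rfl (ih _ _)
  | pop k f q ih => exact Relation.ReflTransGen.head rfl (ih _ _)
  | load f q ih => exact Relation.ReflTransGen.head rfl (ih _ _)
  | branch f q₁ q₂ ih₁ ih₂ =>
    refine Relation.ReflTransGen.head rfl ?_
    simp only [TM2.stepAux]
    cases f v
    · exact ih₂ _ _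
    · exact ih₁ _ _
  | goto f => exact Relation.ReflTransGen.single rfl
  | halt => exact Relation.ReflTransGen.refl

theorem mic_of_reaches (M : Λ → TM2.Stmt Γ Λ σ) {c c' : TM2.Cfg Γ Λ σ}
    (h : StateTransition.Reaches (TM2.step M) c c') : Mic M (tgtC M c) (tgtC M c') := by
  induction h with
  | refl => exact Relation.ReflTransGen.refl
  | @tail b d _ hbd ih =>
    refine ih.trans ?_
    obtain ⟨l, v, S⟩ := b
    cases l with
    | none => simp at hbd
    | some l =>
      simp only [TM2.step, Option.mem_def, Option.some.injEq] at hbd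
      subst hbd
      exact mic_stepAux M _ _ _

/-- the invariant of the micro run -/
theorem mic_inv [Fintype K] (M : Λ → TM2.Stmt Γ Λ σ) {l₀ : Λ} {v₀ : σ} {S₀ : ∀ k, List (Γ k)}
    {B W : ℕ} (hW : ∀ l, wt (M l) ≤ W)
    (hB : ∀ c, StateTransition.Reaches (TM2.step M) ⟨some l₀, v₀, S₀⟩ c →
      ∑ k, (c.stk k).length ≤ B)
    {d : TM2.Stmt Γ Λ σ × σ × (∀ k, List (Γ k))} (h : Mic M (M l₀, v₀, S₀) d) :
    (∃ c, StateTransition.Reaches (TM2.step M) ⟨some l₀, v₀, S₀⟩ c ∧
      TM2.step M c = some (TM2.stepAux d.1 d.2.1 d.2.2)) ∧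
    ∑ k, (d.2.2 k).length + wt d.1 ≤ B + W := by
  have tot_upd : ∀ (S : ∀ k, List (Γ k)) (k : K) (y : List (Γ k)),
      ∑ j, (Function.update S k y j).length + (S k).length = ∑ j, (S j).length + y.length := by
    intro S k y
    have h1 := Finset.add_sum_erase Finset.univ (fun j => (S j).length) (Finset.mem_univ k)
    have h2 := Finset.add_sum_erase Finset.univ (fun j => (Function.update S k y j).length)
      (Finset.mem_univ k)
    have h3 : ∑ j ∈ Finset.univ.erase k, (Function.update S k y j).length =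
        ∑ j ∈ Finset.univ.erase k, (S j).length := by
      refine Finset.sum_congr rfl fun j hj => ?_
      rw [Function.update_of_ne (Finset.ne_of_mem_erase hj)]
    simp only [Function.update_self] at h2
    omega
  induction h with
  | refl =>
    refine ⟨⟨_, Relation.ReflTransGen.refl, rfl⟩, ?_⟩
    have h1 := hB _ Relation.ReflTransGen.refl
    have h2 := hW l₀
    simp only at *
    omega
  | @tail b d _ hbd ih =>
    obtain ⟨⟨c, hc, hs⟩, hsz⟩ := ih
    obtain ⟨q, v, S⟩ := b
    simp only at hs hsz hbd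
    cases q with
    | push k f q =>
      simp only [micro, Option.some.injEq] at hbd
      subst hbd
      refine ⟨⟨c, hc, hs⟩, ?_⟩
      have := tot_upd S k (f v :: S k)
      simp only [wt, List.length_cons] at *
      omega
    | peek k f q =>
      simp only [micro, Option.some.injEq] at hbd
      subst hbd
      exact ⟨⟨c, hc, hs⟩, hsz⟩
    | pop k f q =>
      simp only [micro, Option.some.injEq] at hbd
      subst hbd
      refine ⟨⟨c, hc, hs⟩, ?_⟩
      have := tot_upd S k (S k).tail
      have h2 : (S k).tail.length ≤ (S k).length := by simp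
      simp only [wt] at *
      omega
    | load f q =>
      simp only [micro, Option.some.injEq] at hbd
      subst hbd
      exact ⟨⟨c, hc, hs⟩, hsz⟩
    | branch f q₁ q₂ =>
      simp only [micro, Option.some.injEq] at hbd
      subst hbd
      refine ⟨⟨c, hc, ?_⟩, ?_⟩
      · rw [hs]
        simp only [TM2.stepAux]
        cases f v <;> rfl
      · simp only [wt] at hsz ⊢
        cases f v
        · simp only [cond_false]; omega
        · simp only [cond_true]; omega
    | goto f =>
      simp only [micro, Option.some.injEq] at hbd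
      subst hbd
      have hc' : StateTransition.Reaches (TM2.step M) ⟨some l₀, v₀, S₀⟩ ⟨some (f v), v, S⟩ :=
        hc.tail hs
      refine ⟨⟨_, hc', rfl⟩, ?_⟩
      have h1 := hB _ hc'
      have h2 := hW (f v)
      simp only at *
      omega
    | halt => simp [micro] at hbd

/-! ### the local automata of a machine -/

/-- the statements occurring in the machine -/
def QS (M : Λ → TM2.Stmt Γ Λ σ) : Type := {q : TM2.Stmt Γ Λ σ // ∃ l, q ∈ TM2.stmts₁ (M l)}

instance [Finite Λ] (M : Λ → TM2.Stmt Γ Λ σ) : Finite (QS M) := by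
  have h : {q : TM2.Stmt Γ Λ σ | ∃ l, q ∈ TM2.stmts₁ (M l)}.Finite := by
    have : {q : TM2.Stmt Γ Λ σ | ∃ l, q ∈ TM2.stmts₁ (M l)} =
        ⋃ l, ((TM2.stmts₁ (M l) : Finset _) : Set (TM2.Stmt Γ Λ σ)) := by
      ext q; simp
    rw [this]
    exact Set.finite_iUnion fun l => Finset.finite_toSet _
  exact h.to_subtype

open Classical in
/-- view a statement as an element of `QS` -/
noncomputable def toQS (M : Λ → TM2.Stmt Γ Λ σ) (q : TM2.Stmt Γ Λ σ) : Option (QS M) :=
  if h : ∃ l, q ∈ TM2.stmts₁ (M l) then some ⟨q, h⟩ else none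

theorem toQS_val (M : Λ → TM2.Stmt Γ Λ σ) (q : QS M) : toQS M q.1 = some q := by
  unfold toQS
  rw [dif_pos q.2]
  rfl

/-- the next control state, if the named stack and its top are as claimed -/
def nextC (M : Λ → TM2.Stmt Γ Λ σ) : TM2.Stmt Γ Λ σ → σ → (k : K) → Option (Γ k) →
    Option (TM2.Stmt Γ Λ σ × σ)
  | .push k' _ q, v, k, _ => if k' = k then some (q, v) else none
  | .peek k' f q, v, k, t => if h : k' = k then some (q, f v (h ▸ t)) else none
  | .pop k' f q, v, k, t => if h : k' = k then some (q, f v (h ▸ t)) else none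
  | .load f q, v, _, _ => some (q, f v)
  | .branch f q₁ q₂, v, _, _ => some (cond (f v) q₁ q₂, v)
  | .goto f, v, _, _ => some (M (f v), v)
  | .halt, _, _, _ => none

/-- the symbol pushed on stack `k` -/
def pushV : TM2.Stmt Γ Λ σ → σ → (k : K) → Option (Γ k)
  | .push k' f _, v, k => if h : k' = k then some (h ▸ f v) else none
  | _, _, _ => none

/-- is the statement a pop from stack `k`? -/
def isPop : TM2.Stmt Γ Λ σ → K → Bool
  | .pop k' _ _, k => decide (k' = k)
  | _, _ => false

open Classical in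
/-- transitions of a cell -/
noncomputable def cellF (M : Λ → TM2.Stmt Γ Λ σ) (r : Fin 3)
    (e : (Σ k, Option (Γ k)) × (QS M × σ)) :
    Option (∀ k, Option (Γ k)) → Option (∀ k, Option (Γ k))
  | none => none
  | some g =>
      if r = 0 then
        if g e.1.1 = e.1.2 then
          some (if isPop e.2.1.1 e.1.1 then Function.update g e.1.1 none else g)
        else none
      else if r = 1 then
        if g e.1.1 = none then some (Function.update g e.1.1 (pushV e.2.1.1 e.2.2 e.1.1))
        else none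
      else some g

open Classical in
/-- transitions of the control unit -/
noncomputable def ctlF (M : Λ → TM2.Stmt Γ Λ σ) (b : Bool)
    (e : (Σ k, Option (Γ k)) × (QS M × σ)) : Option (QS M × σ) → Option (QS M × σ)
  | none => none
  | some c =>
      if c = e.2 ∧ (b = true ↔ e.1.2 = none) then
        match nextC M e.2.1.1 e.2.2 e.1.1 e.1.2 with
        | none => none
        | some (q, v) => (toQS M q).map fun q => (q, v)
      else none

open Classical in
/-- the system of local automata of a machine -/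
noncomputable def sys (M : Λ → TM2.Stmt Γ Λ σ) [Finite K] [∀ k, Finite (Γ k)] [Finite Λ]
    [Finite σ] (k₀ k₁ : K) (l₀ : Λ) (v₀ : σ) (ein : Bool → Γ k₀) (sym : Γ k₁) : LSys where
  G := Option (∀ k, Option (Γ k))
  E := (Σ k, Option (Γ k)) × (QS M × σ)
  Cc := Option (QS M × σ)
  finG := inferInstance
  finE := inferInstance
  finC := inferInstance
  cell := cellF M
  ctl := ctlF M
  init := fun o => some fun k => if h : k = k₀ then (h.symm ▸ (o.map ein)) else none
  ctl0 := (toQS M (M l₀)).map fun q => (q, v₀)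
  accG := fun b g => match g with
    | none => false
    | some g => if b then decide (g k₁ = some sym) else true
  accC := fun c => match c with
    | none => false
    | some c => decide (c.1.1 = TM2.Stmt.halt)

/-- contents of the cell `j` -/
def cellOf (S : ∀ k, List (Γ k)) (j : ℕ) : ∀ k, Option (Γ k) := fun k => (S k).reverse[j]?

theorem cellOf_update (S : ∀ k, List (Γ k)) (k : K) (y : List (Γ k)) (j : ℕ) :
    cellOf (Function.update S k y) j = Function.update (cellOf S j) k (y.reverse[j]?) := by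
  funext k'
  by_cases h : k' = k
  · subst h; simp [cellOf]
  · simp [cellOf, Function.update_of_ne h]

theorem reverse_getElem?_last {α : Type} (l : List α) {j : ℕ} (h : j + 1 = l.length) :
    l.reverse[j]? = l.head? := by
  cases l with
  | nil => simp at h
  | cons a l =>
    simp only [List.length_cons, add_left_inj] at h
    subst h
    simp

theorem reverse_cons_getElem? {α : Type} (a : α) (l : List α) (j : ℕ) :
    (a :: l).reverse[j]? = if j = l.length then some a else l.reverse[j]? := by
  rw [List.reverse_cons, List.getElem?_append]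
  split_ifs with h1 h2 h2
  · simp at h1; omega
  · rfl
  · simp [h2]
  · simp only [List.length_reverse] at h1 ⊢
    rw [List.getElem?_eq_none (by simp; omega), List.getElem?_eq_none (by simp; omega)]

theorem reverse_tail_getElem? {α : Type} (l : List α) (j : ℕ) :
    l.tail.reverse[j]? = if j + 1 = l.length then none else l.reverse[j]? := by
  cases l with
  | nil => simp
  | cons a l =>
    rw [reverse_cons_getElem?]
    simp only [List.tail_cons, List.length_cons, add_left_inj]
    split_ifs with h
    · exact List.getElem?_eq_none (by simp; omega)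
    · rfl

theorem rel_cases (j h : ℕ) : (rel j h = 0 ∧ j + 1 = h) ∨ (rel j h = 1 ∧ j = h) ∨
    (rel j h = 2 ∧ j + 1 ≠ h ∧ j ≠ h) := by
  unfold rel
  by_cases h1 : j + 1 = h
  · left; simp [h1]
  · by_cases h2 : j = h
    · right; left; simp [h2]
    · right; right; simp [h1, h2]

section sim

variable (M : Λ → TM2.Stmt Γ Λ σ)

/-- a correct letter acts on the cells as the machine does -/
theorem step_cells (q : QS M) (v : σ) (S : ∀ k, List (Γ k)) (k : K)
    {q₁ : TM2.Stmt Γ Λ σ} {v₁ : σ} (hn : nextC M q.1 v k (S k).head? = some (q₁, v₁)) :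
    ∃ S', micro M q.1 v S = some (q₁, v₁, S') ∧ ∀ j,
      cellF M (rel j (S k).length) (⟨k, (S k).head?⟩, (q, v))
        (some (cellOf S j)) = some (cellOf S' j) := by
  have hhead : ∀ j, j + 1 = (S k).length → cellOf S j k = (S k).head? :=
    fun j hj => reverse_getElem?_last _ hj
  have hnone : cellOf S (S k).length k = none := List.getElem?_eq_none (by simp)
  -- the effect of the letter on cell `j`
  have hcell : ∀ j, cellF M (rel j (S k).length)
      (⟨k, (S k).head?⟩, (q, v)) (some (cellOf S j)) =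
      some (if j + 1 = (S k).length then
        (if isPop q.1 k then Function.update (cellOf S j) k none else cellOf S j)
      else if j = (S k).length then Function.update (cellOf S j) k (pushV q.1 v k)
      else cellOf S j) := by
    intro j
    rcases rel_cases j (S k).length with ⟨h1, h2⟩ | ⟨h1, h2⟩ | ⟨h1, h2, h3⟩
    · rw [h1]
      simp only [cellF, if_true, hhead j h2, h2]
    · rw [h1]
      have h0 : ¬ ((1 : Fin 3) = 0) := by decide
      have h4 : ¬ (j + 1 = (S k).length) := by omega
      have h5 : cellOf S j k = none := by rw [h2]; exact hnone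
      simp only [cellF, if_neg h0, if_true, h5, if_neg h4, if_pos h2]
    · rw [h1]
      have h0 : ¬ ((2 : Fin 3) = 0) := by decide
      have h4 : ¬ ((2 : Fin 3) = 1) := by decide
      simp only [cellF, if_neg h0, if_neg h4, if_neg h2, if_neg h3]
  -- no change of the stacks
  have hsame : isPop q.1 k = false → pushV q.1 v k = none → ∀ j,
      cellF M (rel j (S k).length) (⟨k, (S k).head?⟩, (q, v))
        (some (cellOf S j)) = some (cellOf S j) := by
    intro h1 h2 j
    rw [hcell, h1, h2]
    split_ifs with h3 h4 h4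
    · exact absurd h4 (by simp)
    · rfl
    · subst h4
      rw [← hnone, Function.update_eq_self]
    · rfl
  obtain ⟨q, hq⟩ := q
  simp only at hn hcell hsame ⊢
  cases q with
  | push k' f q =>
    simp only [nextC] at hn
    split_ifs at hn with hk
    subst hk
    simp only [Option.some.injEq, Prod.mk.injEq] at hn
    obtain ⟨rfl, rfl⟩ := hn
    refine ⟨_, rfl, fun j => ?_⟩
    rw [hcell, cellOf_update, reverse_cons_getElem?]
    by_cases h1 : j + 1 = (S k').length
    · have h2 : j ≠ (S k').length := by omega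
      rw [if_pos h1, if_neg h2, if_neg (by simp [isPop])]
      exact congrArg some (Function.update_eq_self k' (cellOf S j)).symm
    · by_cases h2 : j = (S k').length
      · rw [if_neg h1, if_pos h2, if_pos h2]
        rw [pushV, dif_pos rfl]
      · rw [if_neg h1, if_neg h2, if_neg h2]
        exact congrArg some (Function.update_eq_self k' (cellOf S j)).symm
  | peek k' f q =>
    simp only [nextC] at hn
    split_ifs at hn with hk
    subst hk
    simp only [Option.some.injEq, Prod.mk.injEq] at hn
    obtain ⟨rfl, rfl⟩ := hn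
    exact ⟨_, rfl, hsame rfl rfl⟩
  | pop k' f q =>
    simp only [nextC] at hn
    split_ifs at hn with hk
    subst hk
    simp only [Option.some.injEq, Prod.mk.injEq] at hn
    obtain ⟨rfl, rfl⟩ := hn
    refine ⟨_, rfl, fun j => ?_⟩
    rw [hcell, cellOf_update, reverse_tail_getElem?]
    simp only [isPop, pushV]
    split_ifs with h1 h2 h3
    · rfl
    · simp at h2
    · subst h3
      congr 2
      exact hnone.symm
    · exact congrArg some (Function.update_eq_self k' (cellOf S j)).symm
  | load f q =>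
    simp only [nextC, Option.some.injEq, Prod.mk.injEq] at hn
    obtain ⟨rfl, rfl⟩ := hn
    exact ⟨_, rfl, hsame rfl rfl⟩
  | branch f q₁ q₂ =>
    simp only [nextC, Option.some.injEq, Prod.mk.injEq] at hn
    obtain ⟨rfl, rfl⟩ := hn
    exact ⟨_, rfl, hsame rfl rfl⟩
  | goto f =>
    simp only [nextC, Option.some.injEq, Prod.mk.injEq] at hn
    obtain ⟨rfl, rfl⟩ := hn
    exact ⟨_, rfl, hsame rfl rfl⟩
  | halt => simp [nextC] at hn

/-- the control state and the cells after reading a word -/
theorem cellF_none (r : Fin 3) (e : (Σ k, Option (Γ k)) × (QS M × σ)) :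
    cellF M r e none = none := rfl

/-- a letter that kills nobody is correct -/
theorem step_sound {q : QS M} {v : σ} {S : ∀ k, List (Γ k)} {J : ℕ} {h : Fin J}
    {e : (Σ k, Option (Γ k)) × (QS M × σ)}
    (hc : ctlF M (h.val == 0) e (some (q, v)) ≠ none)
    (hg : ∀ j : Fin J, cellF M (rel j h) e (some (cellOf S j)) ≠ none) :
    ∃ (q₁ : QS M) (v₁ : σ) (S₁ : ∀ k, List (Γ k)), micro M q.1 v S = some (q₁.1, v₁, S₁) ∧
      ctlF M (h.val == 0) e (some (q, v)) = some (q₁, v₁) ∧
      ∀ j : Fin J, cellF M (rel j h) e (some (cellOf S j)) = some (cellOf S₁ j) := by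
  classical
  obtain ⟨⟨k, t⟩, ⟨q', v'⟩⟩ := e
  -- the control unit
  have h1 : (q, v) = (q', v') ∧ ((h.val == 0) = true ↔ t = none) := by
    by_contra hne
    apply hc
    simp only [ctlF]
    rw [if_neg hne]
  obtain ⟨h1a, h1b⟩ := h1
  simp only [Prod.mk.injEq] at h1a
  obtain ⟨rfl, rfl⟩ := h1a
  have hctl : ctlF M (h.val == 0) (⟨k, t⟩, (q, v)) (some (q, v)) =
      match nextC M q.1 v k t with
        | none => none
        | some (q, v) => (toQS M q).map fun q => (q, v) := by
    simp only [ctlF]
    rw [if_pos ⟨trivial, h1b⟩]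
  -- the height of the stack
  have hle : (S k).length ≤ h.val := by
    have h2 := hg h
    have h3 : rel h.val h.val = 1 := by simp [rel]
    rw [h3] at h2
    by_contra hlt
    apply h2
    simp only [cellF]
    rw [if_neg (by decide), if_pos trivial, if_neg]
    simp only [cellOf]
    intro h4
    rw [List.getElem?_eq_none_iff] at h4
    simp at h4
    omega
  have ht : (S k).length = h.val ∧ t = (S k).head? := by
    by_cases h0 : h.val = 0
    · have h2 : t = none := h1b.1 (by simp [h0])
      have h3 : S k = [] := List.length_eq_zero_iff.1 (by omega)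
      exact ⟨by rw [h3, h0]; rfl, by rw [h2, h3]; rfl⟩
    · have h2 : t ≠ none := fun h3 => by
        have := h1b.2 h3
        simp at this
        exact h0 this
      have h3 := hg ⟨h.val - 1, by omega⟩
      have h4 : rel (h.val - 1) h.val = 0 := by simp [rel]; omega
      simp only [h4] at h3
      have h5 : cellOf S (h.val - 1) k = t := by
        by_contra hne
        apply h3
        simp only [cellF, if_true]
        rw [if_neg hne]
      have h6 : (S k).length = h.val := by
        by_contra hne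
        apply h2
        rw [← h5]
        exact List.getElem?_eq_none (by simp; omega)
      refine ⟨h6, ?_⟩
      rw [← h5]
      exact reverse_getElem?_last _ (by omega)
  obtain ⟨hlen, rfl⟩ := ht
  rcases hn : nextC M q.1 v k (S k).head? with _ | ⟨q₁, v₁⟩
  · rw [hctl, hn] at hc
    exact absurd rfl hc
  · obtain ⟨S₁, hm, hcell⟩ := step_cells M q v S k hn
    rw [hctl, hn] at hc
    rcases hq : toQS M q₁ with _ | q₂
    · simp [hq] at hc
    · have hq2 : q₁ = q₂.1 := by
        unfold toQS at hq
        split_ifs at hq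
        rw [← Option.some.inj hq]
      refine ⟨q₂, v₁, S₁, by rw [hm, hq2], ?_, ?_⟩
      · rw [hctl, hn]
        simp [hq]
      · intro j
        rw [← hlen]
        exact hcell j

/-- there is a correct letter for every micro step -/
theorem step_complete (k₀ : K) {q : QS M} {v : σ} {S : ∀ k, List (Γ k)} {J : ℕ}
    (hJ : ∀ k, (S k).length < J) {q₁ : TM2.Stmt Γ Λ σ} {v₁ : σ} {S₁ : ∀ k, List (Γ k)}
    (hm : micro M q.1 v S = some (q₁, v₁, S₁)) :
    ∃ (h : Fin J) (e : (Σ k, Option (Γ k)) × (QS M × σ)) (hq : ∃ l, q₁ ∈ TM2.stmts₁ (M l)),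
      ctlF M (h.val == 0) e (some (q, v)) = some (⟨q₁, hq⟩, v₁) ∧
      ∀ j : Fin J, cellF M (rel j h) e (some (cellOf S j)) = some (cellOf S₁ j) := by
  classical
  -- the next statement occurs in the machine
  have hq : ∃ l, q₁ ∈ TM2.stmts₁ (M l) := by
    obtain ⟨q, l, hl⟩ := q
    have hsub : ∀ q' ∈ TM2.stmts₁ q, ∃ l, q' ∈ TM2.stmts₁ (M l) :=
      fun q' hq' => ⟨l, TM2.stmts₁_trans hl hq'⟩
    cases q with
    | push k' f q =>
      simp only [micro, Option.some.injEq, Prod.mk.injEq] at hm
      exact hsub _ (by rw [← hm.1]; simp [TM2.stmts₁, TM2.stmts₁_self])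
    | peek k' f q =>
      simp only [micro, Option.some.injEq, Prod.mk.injEq] at hm
      exact hsub _ (by rw [← hm.1]; simp [TM2.stmts₁, TM2.stmts₁_self])
    | pop k' f q =>
      simp only [micro, Option.some.injEq, Prod.mk.injEq] at hm
      exact hsub _ (by rw [← hm.1]; simp [TM2.stmts₁, TM2.stmts₁_self])
    | load f q =>
      simp only [micro, Option.some.injEq, Prod.mk.injEq] at hm
      exact hsub _ (by rw [← hm.1]; simp [TM2.stmts₁, TM2.stmts₁_self])
    | branch f q₁ q₂ =>
      simp only [micro, Option.some.injEq, Prod.mk.injEq] at hm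
      refine hsub _ ?_
      rw [← hm.1]
      cases f v <;> simp [TM2.stmts₁, TM2.stmts₁_self]
    | goto f =>
      simp only [micro, Option.some.injEq, Prod.mk.injEq] at hm
      exact ⟨f v, by rw [← hm.1]; exact TM2.stmts₁_self⟩
    | halt => simp [micro] at hm
  -- the stack used
  have hk : ∃ k, nextC M q.1 v k (S k).head? = some (q₁, v₁) := by
    obtain ⟨q, hq⟩ := q
    cases q with
    | push k' f q =>
      simp only [micro, Option.some.injEq, Prod.mk.injEq] at hm
      exact ⟨k', by simp [nextC, hm.1, hm.2.1]⟩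
    | peek k' f q =>
      simp only [micro, Option.some.injEq, Prod.mk.injEq] at hm
      exact ⟨k', by simp [nextC, hm.1, hm.2.1]⟩
    | pop k' f q =>
      simp only [micro, Option.some.injEq, Prod.mk.injEq] at hm
      exact ⟨k', by simp [nextC, hm.1, hm.2.1]⟩
    | load f q =>
      simp only [micro, Option.some.injEq, Prod.mk.injEq] at hm
      exact ⟨k₀, by simp [nextC, hm.1, hm.2.1]⟩
    | branch f q₁ q₂ =>
      simp only [micro, Option.some.injEq, Prod.mk.injEq] at hm
      exact ⟨k₀, by rw [nextC, hm.1, hm.2.1]⟩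
    | goto f =>
      simp only [micro, Option.some.injEq, Prod.mk.injEq] at hm
      exact ⟨k₀, by rw [nextC, hm.1, hm.2.1]⟩
    | halt => simp [micro] at hm
  obtain ⟨k, hk⟩ := hk
  obtain ⟨S', hm', hcell⟩ := step_cells M q v S k hk
  rw [hm] at hm'
  simp only [Option.some.injEq, Prod.mk.injEq, true_and] at hm'
  subst hm'
  refine ⟨⟨(S k).length, hJ k⟩, (⟨k, (S k).head?⟩, (q, v)), hq, ?_, fun j => hcell j⟩
  simp only [ctlF]
  rw [if_pos]
  · rw [hk]
    have : toQS M q₁ = some ⟨q₁, hq⟩ := toQS_val M ⟨q₁, hq⟩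
    simp only [this]
    rfl
  · refine ⟨trivial, ?_⟩
    cases h : S k with
    | nil => simp
    | cons a l => simp

end sim

section sysrun

variable (M : Λ → TM2.Stmt Γ Λ σ) [Finite K] [∀ k, Finite (Γ k)] [Finite Λ]
    [Finite σ] (k₀ k₁ : K) (l₀ : Λ) (v₀ : σ) (ein : Bool → Γ k₀) (sym : Γ k₁)
    {S₀ : ∀ k, List (Γ k)} {J : ℕ} {x : List Bool}

theorem ctlRun_append (s : LSys) (v : List (Fin J × s.E)) (a : Fin J × s.E) (c : s.Cc) :
    s.ctlRun (v ++ [a]) c = s.ctl (a.1.val == 0) a.2 (s.ctlRun v c) := by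
  simp [LSys.ctlRun]

theorem cellRun_append (s : LSys) (j : ℕ) (v : List (Fin J × s.E)) (a : Fin J × s.E) (g : s.G) :
    s.cellRun j (v ++ [a]) g = s.cell (rel j a.1) a.2 (s.cellRun j v g) := by
  simp [LSys.cellRun]

theorem run_sound
    (hS₀ : ∀ j, (sys M k₀ k₁ l₀ v₀ ein sym).initG x j = (some (cellOf S₀ j) :
      Option (∀ k, Option (Γ k))))
    (v : List (Fin J × (sys M k₀ k₁ l₀ v₀ ein sym).E))
    (hc : (sys M k₀ k₁ l₀ v₀ ein sym).ctlRun v (sys M k₀ k₁ l₀ v₀ ein sym).ctl0 ≠
      (none : Option (QS M × σ)))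
    (hg : ∀ j : Fin J, (sys M k₀ k₁ l₀ v₀ ein sym).cellRun j v
      ((sys M k₀ k₁ l₀ v₀ ein sym).initG x j) ≠ (none : Option (∀ k, Option (Γ k)))) :
    ∃ (q : QS M) (w : σ) (S : ∀ k, List (Γ k)), Mic M (M l₀, v₀, S₀) (q.1, w, S) ∧
      (sys M k₀ k₁ l₀ v₀ ein sym).ctlRun v (sys M k₀ k₁ l₀ v₀ ein sym).ctl0 =
        (some (q, w) : Option (QS M × σ)) ∧
      ∀ j : Fin J, (sys M k₀ k₁ l₀ v₀ ein sym).cellRun j v
        ((sys M k₀ k₁ l₀ v₀ ein sym).initG x j) =
        (some (cellOf S j) : Option (∀ k, Option (Γ k))) := by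
  induction v using List.reverseRecOn with
  | nil =>
    have h0 : toQS M (M l₀) = some ⟨M l₀, l₀, TM2.stmts₁_self⟩ :=
      toQS_val M ⟨M l₀, l₀, TM2.stmts₁_self⟩
    refine ⟨⟨M l₀, l₀, TM2.stmts₁_self⟩, v₀, S₀, Relation.ReflTransGen.refl, ?_, ?_⟩
    · show (toQS M (M l₀)).map (fun q => (q, v₀)) = _
      rw [h0]
      rfl
    · intro j
      exact hS₀ j
  | append_singleton v a ih =>
    have hc' : (sys M k₀ k₁ l₀ v₀ ein sym).ctlRun v (sys M k₀ k₁ l₀ v₀ ein sym).ctl0 ≠
        (none : Option (QS M × σ)) := by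
      intro h
      apply hc
      rw [ctlRun_append, h]
      rfl
    have hg' : ∀ j : Fin J, (sys M k₀ k₁ l₀ v₀ ein sym).cellRun j v
        ((sys M k₀ k₁ l₀ v₀ ein sym).initG x j) ≠ (none : Option (∀ k, Option (Γ k))) := by
      intro j h
      apply hg j
      rw [cellRun_append, h]
      rfl
    obtain ⟨q, w, S, hmic, hq, hcell⟩ := ih hc' hg'
    have hc2 : ctlF M (a.1.val == 0) a.2 (some (q, w)) ≠ none := by
      intro h
      apply hc
      rw [ctlRun_append, hq]
      exact h
    have hg2 : ∀ j : Fin J, cellF M (rel j a.1) a.2 (some (cellOf S j)) ≠ none := by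
      intro j h
      apply hg j
      rw [cellRun_append, hcell]
      exact h
    obtain ⟨q₁, v₁, S₁, hm, h1, h2⟩ := step_sound M hc2 hg2
    refine ⟨q₁, v₁, S₁, hmic.tail hm, ?_, ?_⟩
    · rw [ctlRun_append, hq]
      exact h1
    · intro j
      rw [cellRun_append, hcell]
      exact h2 j

theorem run_complete
    (hS₀ : ∀ j, (sys M k₀ k₁ l₀ v₀ ein sym).initG x j = (some (cellOf S₀ j) :
      Option (∀ k, Option (Γ k))))
    (hJ : ∀ d, Mic M (M l₀, v₀, S₀) d → ∀ k, (d.2.2 k).length < J)
    {d : TM2.Stmt Γ Λ σ × σ × (∀ k, List (Γ k))} (hd : Mic M (M l₀, v₀, S₀) d) :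
    ∃ (v : List (Fin J × (sys M k₀ k₁ l₀ v₀ ein sym).E)) (hq : ∃ l, d.1 ∈ TM2.stmts₁ (M l)),
      (sys M k₀ k₁ l₀ v₀ ein sym).ctlRun v (sys M k₀ k₁ l₀ v₀ ein sym).ctl0 =
        (some (⟨d.1, hq⟩, d.2.1) : Option (QS M × σ)) ∧
      ∀ j : Fin J, (sys M k₀ k₁ l₀ v₀ ein sym).cellRun j v
        ((sys M k₀ k₁ l₀ v₀ ein sym).initG x j) =
        (some (cellOf d.2.2 j) : Option (∀ k, Option (Γ k))) := by
  induction hd with
  | refl =>
    have h0 : toQS M (M l₀) = some ⟨M l₀, l₀, TM2.stmts₁_self⟩ :=
      toQS_val M ⟨M l₀, l₀, TM2.stmts₁_self⟩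
    refine ⟨[], ⟨l₀, TM2.stmts₁_self⟩, ?_, ?_⟩
    · show (toQS M (M l₀)).map (fun q => (q, v₀)) = _
      rw [h0]
      rfl
    · intro j
      exact hS₀ j
  | @tail b d hb hbd ih =>
    obtain ⟨v, hq, h1, h2⟩ := ih
    obtain ⟨h, e, hq', h3, h4⟩ := step_complete M k₀ (q := ⟨b.1, hq⟩) (hJ b hb) hbd
    let a : Fin J × (sys M k₀ k₁ l₀ v₀ ein sym).E := (h, e)
    refine ⟨v ++ [a], hq', ?_, ?_⟩
    · rw [ctlRun_append, h1]
      exact h3
    · intro j
      rw [cellRun_append, h2]
      exact h4 j

/-- the system accepts if and only if the machine halts with `sym` at the bottom of the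
output stack -/
theorem acc_iff
    (hS₀ : ∀ j, (sys M k₀ k₁ l₀ v₀ ein sym).initG x j = (some (cellOf S₀ j) :
      Option (∀ k, Option (Γ k))))
    (hJ0 : 0 < J)
    (hJ : ∀ d, Mic M (M l₀, v₀, S₀) d → ∀ k, (d.2.2 k).length < J) :
    (sys M k₀ k₁ l₀ v₀ ein sym).Acc J x ↔
      ∃ (w : σ) (S : ∀ k, List (Γ k)), Mic M (M l₀, v₀, S₀) (.halt, w, S) ∧
        cellOf S 0 k₁ = some sym := by
  classical
  constructor
  · rintro ⟨v, hc, hg⟩
    have hc' : (sys M k₀ k₁ l₀ v₀ ein sym).ctlRun v (sys M k₀ k₁ l₀ v₀ ein sym).ctl0 ≠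
        (none : Option (QS M × σ)) := by
      intro h
      rw [h] at hc
      exact absurd hc (by simp [sys])
    have hg' : ∀ j : Fin J, (sys M k₀ k₁ l₀ v₀ ein sym).cellRun j v
        ((sys M k₀ k₁ l₀ v₀ ein sym).initG x j) ≠ (none : Option (∀ k, Option (Γ k))) := by
      intro j h
      have := hg j
      rw [h] at this
      exact absurd this (by simp [sys])
    obtain ⟨q, w, S, hmic, hq, hcell⟩ := run_sound M k₀ k₁ l₀ v₀ ein sym hS₀ v hc' hg'
    rw [hq] at hc
    have hc2 : q.1 = TM2.Stmt.halt := by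
      have : decide (q.1 = (TM2.Stmt.halt : TM2.Stmt Γ Λ σ)) = true := hc
      exact of_decide_eq_true this
    have h0 := hg ⟨0, hJ0⟩
    rw [hcell ⟨0, hJ0⟩] at h0
    have h1 : cellOf S 0 k₁ = some sym := by
      have : (if (0 == 0) = true then decide (cellOf S 0 k₁ = some sym) else true) = true := h0
      simpa using this
    exact ⟨w, S, by rw [← hc2]; exact hmic, h1⟩
  · rintro ⟨w, S, hmic, hsym⟩
    obtain ⟨v, hq, h1, h2⟩ := run_complete M k₀ k₁ l₀ v₀ ein sym hS₀ hJ hmic
    refine ⟨v, ?_, fun j => ?_⟩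
    · rw [h1]
      show decide ((TM2.Stmt.halt : TM2.Stmt Γ Λ σ) = TM2.Stmt.halt) = true
      simp
    · rw [h2]
      show (if (j.val == 0) = true then decide (cellOf S j k₁ = some sym) else true) = true
      by_cases hj : j.val = 0
      · rw [hj]; simp [hsym]
      · simp [hj]

end sysrun

end

end Pool.Agent.Lib.MP_76b05e_lc
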