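import Pool.Agent.Lib.MP_76b05e_lc.Hard

/-!
Hardness for polynomial space.
-/

namespace Pool.Agent.Lib.MP_76b05e_lc

open Turing

theorem poly_eval (p : Polynomial ℕ) : Poly (fun n => p.eval n) := by
  induction p using Polynomial.induction_on with
  | C a => simpa using Poly.const a
  | add p q hp hq => simpa using hp.add hq
  | monomial n a _ =>
    simpa using (Poly.const a).mul (Poly.id.pow (n + 1))

theorem reaches_of_iterate {C : Type} (f : C → Option C) (n : ℕ) (a c : C)
    (h : (flip Option.bind f)^[n] (some a) = some c) : StateTransition.Reaches f a c := by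
  induction n generalizing a with
  | zero =>
    simp only [Function.iterate_zero, id_eq, Option.some.injEq] at h
    subst h
    exact Relation.ReflTransGen.refl
  | succ n ih =>
    rw [Function.iterate_succ_apply] at h
    have h0 : flip Option.bind f (some a) = f a := rfl
    rw [h0] at h
    cases hfa : f a with
    | none =>
      rw [hfa] at h
      have hn : ∀ m, (flip Option.bind f)^[m] none = none := by
        intro m
        induction m with
        | zero => rfl
        | succ m ihm => rw [Function.iterate_succ_apply]; exact ihm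
      rw [hn] at h
      exact absurd h (by simp)
    | some b =>
      rw [hfa] at h
      exact Relation.ReflTransGen.head hfa (ih b h)

theorem halt_unique {C : Type} (f : C → Option C) {a b c : C}
    (hb : StateTransition.Reaches f a b) (hc : StateTransition.Reaches f a c)
    (hb' : f b = none) (hc' : f c = none) : b = c := by
  rcases StateTransition.reaches_total hb hc with h | h
  · rcases Relation.ReflTransGen.cases_head h with h | ⟨d, hd, _⟩
    · exact h
    · rw [hb'] at hd; exact absurd hd (by simp)
  · rcases Relation.ReflTransGen.cases_head h with h | ⟨d, hd, _⟩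
    · exact h.symm
    · rw [hc'] at hd; exact absurd hd (by simp)

theorem stk_dite {K : Type} [DecidableEq K] {Γ : K → Type} (k₀ : K) (l : List (Γ k₀)) (k : K)
    (j : ℕ) :
    (@dite (List (Γ k)) (k = k₀) _ (fun h => by rw [h]; exact l) fun _ => []).reverse[j]? =
      if h : k = k₀ then h.symm ▸ (l.reverse[j]?) else none := by
  by_cases h : k = k₀
  · subst h; simp
  · simp [h]

/-- **Hardness**: every language in deterministic polynomial space reduces to REACHABLE SUBSET
for subsets with `k + 1 ≥ 2` elements. -/
theorem hard (k : ℕ) (hk : 0 < k) (L : Set (List Bool)) (hL : InPSPACE L) :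
    PolyReducible L (ReachableSubset (k + 1)) := by
  classical
  obtain ⟨tm, hfin, ein, eout, p, H⟩ := hL
  let _ := tm.kFin
  let _ := tm.ΛFin
  let _ := tm.σFin
  -- bound for the number of pushes in one step
  obtain ⟨W, hW⟩ : ∃ W, ∀ l, wt (tm.m l) ≤ W :=
    ⟨Finset.univ.sup fun l => wt (tm.m l), fun l => Finset.le_sup (f := fun l => wt (tm.m l))
      (Finset.mem_univ l)⟩
  obtain ⟨e, he⟩ := ((poly_eval p).add (Poly.const W)).add (Poly.const 1)
  let s : LSys := sys tm.m tm.k₀ tm.k₁ tm.main tm.initialState ein.symm (eout.symm true)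
  refine s.reducible k e hk L fun x => ?_
  obtain ⟨h1, h2, h3⟩ := H x
  let S₀ : ∀ k, List (tm.Γ k) := (initList tm (x.map ein.symm)).stk
  have hinit : (initList tm (x.map ein.symm)) =
      (⟨some tm.main, tm.initialState, S₀⟩ : TM2.Cfg tm.Γ tm.Λ tm.σ) := rfl
  have hS₀ : ∀ j, s.initG x j = (some (cellOf S₀ j) : Option (∀ k, Option (tm.Γ k))) := by
    intro j
    show some _ = some _
    congr 1
    funext k
    have := stk_dite (Γ := tm.Γ) tm.k₀ (x.map ein.symm) k j
    show _ = (S₀ k).reverse[j]?
    refine Eq.trans ?_ this.symm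
    rw [← List.map_reverse, List.getElem?_map]
  have hB : ∀ c, StateTransition.Reaches (TM2.step tm.m)
      ⟨some tm.main, tm.initialState, S₀⟩ c → ∑ k, (c.stk k).length ≤ p.eval x.length :=
    fun c hc => h3 c hc
  have hinv := fun d hd => mic_inv tm.m (d := d) hW hB hd
  have hJ : ∀ d, Mic tm.m (tm.m tm.main, tm.initialState, S₀) d →
      ∀ k, (d.2.2 k).length < (x.length + 2) ^ e := by
    intro d hd k
    have h4 := (hinv d hd).2
    have h5 : (d.2.2 k).length ≤ ∑ k, (d.2.2 k).length :=
      Finset.single_le_sum (f := fun k => (d.2.2 k).length) (fun _ _ => Nat.zero_le _)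
        (Finset.mem_univ k)
    have h6 : p.eval x.length + W + 1 ≤ (x.length + 2) ^ e := he x.length
    omega
  have hacc := acc_iff tm.m tm.k₀ tm.k₁ tm.main tm.initialState ein.symm (eout.symm true)
    (S₀ := S₀) (J := (x.length + 2) ^ e) (x := x) hS₀ (by positivity) hJ
  refine Iff.trans ?_ hacc.symm
  -- the bottom of the output stack in a halting configuration
  have hbot : ∀ b : Bool, cellOf (haltList tm [eout.symm b]).stk 0 tm.k₁ = some (eout.symm b) := by
    intro b
    have := stk_dite (Γ := tm.Γ) tm.k₁ [eout.symm b] tm.k₁ 0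
    refine Eq.trans this ?_
    simp
  have hreach : ∀ b : Bool, Nonempty (TM2Outputs tm (x.map ein.symm) (some [eout.symm b])) →
      StateTransition.Reaches (TM2.step tm.m) ⟨some tm.main, tm.initialState, S₀⟩
        (haltList tm [eout.symm b]) := by
    rintro b ⟨o⟩
    exact reaches_of_iterate _ o.steps _ _ o.evals_in_steps
  constructor
  · intro hx
    have h4 := mic_of_reaches tm.m (hreach true (h1 hx))
    exact ⟨_, _, h4, hbot true⟩
  · rintro ⟨w, S, hmic, hsym⟩
    by_contra hx
    have h4 := hreach false (h2 hx)
    obtain ⟨⟨c, hc, hstep⟩, -⟩ := hinv _ hmic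
    have h5 : StateTransition.Reaches (TM2.step tm.m) ⟨some tm.main, tm.initialState, S₀⟩
        (⟨none, w, S⟩ : TM2.Cfg tm.Γ tm.Λ tm.σ) := hc.tail hstep
    have h6 := halt_unique _ h4 h5 rfl rfl
    have h7 : (haltList tm [eout.symm false]).stk = S := by rw [h6]
    rw [← h7, hbot false] at hsym
    simp at hsym

end Pool.Agent.Lib.MP_76b05e_lc
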