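import Pool.Agent.Lib.MP_76b05e_lc.TM
import Pool.Agent.Lib.MP_76b05e_lc.Gadget

/-!
The reduction as a polynomial-time function on words.
-/

namespace Pool.Agent.Lib.MP_76b05e_lc

/-! ### decomposing tables -/

theorem flatMap_finRange {α : Type} (n : ℕ) (g : Fin n → List α) :
    (List.finRange n).flatMap g = (List.ofFn g).flatten := by
  rw [List.flatMap_def, List.ofFn_eq_map]

theorem flatMap_finRange_add {α : Type} (a b : ℕ) (f : Fin (a + b) → List α) :
    (List.finRange (a + b)).flatMap f =
      (List.finRange a).flatMap (fun i => f (Fin.castAdd b i)) ++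
      (List.finRange b).flatMap (fun i => f (Fin.natAdd a i)) := by
  simp only [flatMap_finRange, List.ofFn_add, List.flatten_append]
  rfl

theorem flatMap_finRange_mul {α : Type} (a b : ℕ) (f : Fin (a * b) → List α) :
    (List.finRange (a * b)).flatMap f =
      (List.finRange a).flatMap (fun i => (List.finRange b).flatMap fun j =>
        f (finProdFinEquiv (i, j))) := by
  simp only [flatMap_finRange, List.ofFn_mul]
  rw [List.flatten_flatten, List.map_ofFn]
  congr 2
  funext i
  simp only [Function.comp]
  congr 2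
  funext j
  congr 1
  ext
  simp [finProdFinEquiv, Nat.mul_comm, Nat.add_comm]

theorem flatMap_finRange_val {α : Type} (n : ℕ) (f : ℕ → List α) :
    (List.finRange n).flatMap (fun i => f i.val) = (List.range n).flatMap f := by
  rw [← List.map_coe_finRange_eq_range, List.flatMap_map]

/-- numbering of a disjoint union -/
noncomputable def num (J : ℕ) (G B : Type) [Finite G] [Finite B] :
    (Fin J × G) ⊕ B ≃ Fin (J * Nat.card G + Nat.card B) :=
  (Equiv.sumCongr ((Equiv.prodCongr (Equiv.refl _) (Finite.equivFin G)).trans finProdFinEquiv)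
    (Finite.equivFin B)).trans finSumFinEquiv

theorem num_inl (J : ℕ) (G B : Type) [Finite G] [Finite B] (j : Fin J) (g : G) :
    (num J G B (Sum.inl (j, g))).val = Nat.card G * j + (Finite.equivFin G g).val := by
  simp [num, finProdFinEquiv, Nat.add_comm]

theorem num_inr (J : ℕ) (G B : Type) [Finite G] [Finite B] (b : B) :
    (num J G B (Sum.inr b)).val = J * Nat.card G + (Finite.equivFin B b).val := by
  simp [num]

theorem num_symm_inl (J : ℕ) (G B : Type) [Finite G] [Finite B] (j : Fin J)
    (g : Fin (Nat.card G)) :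
    (num J G B).symm (Fin.castAdd _ (finProdFinEquiv (j, g))) =
      Sum.inl (j, (Finite.equivFin G).symm g) := by
  rw [Equiv.symm_apply_eq]
  simp [num]

theorem num_symm_inr (J : ℕ) (G B : Type) [Finite G] [Finite B] (b : Fin (Nat.card B)) :
    (num J G B).symm (Fin.natAdd _ b) = Sum.inr ((Finite.equivFin B).symm b) := by
  rw [Equiv.symm_apply_eq]
  simp [num]

theorem flatMap_num {α : Type} (J : ℕ) (G B : Type) [Finite G] [Finite B]
    (f : (Fin J × G) ⊕ B → List α) :
    (List.finRange (J * Nat.card G + Nat.card B)).flatMap (fun q => f ((num J G B).symm q)) =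
      (List.finRange J).flatMap (fun j => (List.finRange (Nat.card G)).flatMap fun g =>
        f (Sum.inl (j, (Finite.equivFin G).symm g))) ++
      (List.finRange (Nat.card B)).flatMap (fun b => f (Sum.inr ((Finite.equivFin B).symm b))) := by
  rw [flatMap_finRange_add, flatMap_finRange_mul]
  congr 1
  · refine List.flatMap_congr fun j _ => List.flatMap_congr fun g _ => ?_
    rw [num_symm_inl]
  · refine List.flatMap_congr fun b _ => ?_
    rw [num_symm_inr]

namespace LSys

variable (s : LSys) (k J : ℕ) (x : List Bool)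

/-- the transition function with numbered states and letters -/
noncomputable def dl (q : Fin (J * Nat.card s.G + Nat.card (Sp s.Cc k)))
    (a : Fin (J * Nat.card s.E + Nat.card Bool)) : Fin (J * Nat.card s.G + Nat.card (Sp s.Cc k)) :=
  num J s.G (Sp s.Cc k) (s.step x ((num J s.G (Sp s.Cc k)).symm q) ((num J s.E Bool).symm a))

open Classical in
/-- the target set -/
noncomputable def tg : Finset (Fin (J * Nat.card s.G + Nat.card (Sp s.Cc k))) :=
  Finset.univ.filter fun q => (num J s.G (Sp s.Cc k)).symm q = Sum.inr .p ∨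
    ∃ i, (num J s.G (Sp s.Cc k)).symm q = Sum.inr (.q i)

theorem mem_tg (q : Fin (J * Nat.card s.G + Nat.card (Sp s.Cc k))) : q ∈ s.tg k J ↔
    ((num J s.G (Sp s.Cc k)).symm q = Sum.inr .p ∨
    ∃ i, (num J s.G (Sp s.Cc k)).symm q = Sum.inr (.q i)) := by
  simp [tg]

/-- the instance produced by the reduction -/
noncomputable def inst : Inst where
  n := J * Nat.card s.G + Nat.card (Sp s.Cc k)
  m := J * Nat.card s.E + Nat.card Bool
  δ := s.dl k J x
  P := s.tg k J

theorem dl_run (w : List (Fin (J * Nat.card s.E + Nat.card Bool)))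
    (q : Fin (J * Nat.card s.G + Nat.card (Sp s.Cc k))) :
    (num J s.G (Sp s.Cc k)).symm (w.foldl (s.dl k J x) q) =
      s.drun x (w.map (num J s.E Bool).symm) ((num J s.G (Sp s.Cc k)).symm q) := by
  induction w generalizing q with
  | nil => rfl
  | cons a w ih =>
    rw [List.map_cons, drun_cons, List.foldl_cons, ih]
    congr 1
    exact Equiv.symm_apply_apply _ _

theorem inst_reachable : (s.inst k J x).Reachable ↔
    ∃ w : List ((Fin J × s.E) ⊕ Bool), Set.range (s.drun (k := k) x w) =
      {a | a = Sum.inr .p ∨ ∃ i, a = Sum.inr (.q i)} := by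
  have h0 : (s.inst k J x).Reachable ↔ ∃ w : List (Fin (J * Nat.card s.E + Nat.card Bool)),
    Finset.univ.image (fun q => w.foldl (s.dl k J x) q) = s.tg k J := Iff.rfl
  rw [h0]
  constructor
  · rintro ⟨w, hw⟩
    refine ⟨w.map (num J s.E Bool).symm, ?_⟩
    ext a
    have h := Finset.ext_iff.1 hw (num J s.G (Sp s.Cc k) a)
    rw [mem_tg, Equiv.symm_apply_apply] at h
    rw [Set.mem_ofPred_eq, ← h]
    simp only [Set.mem_range, Finset.mem_image, Finset.mem_univ, true_and]
    constructor
    · rintro ⟨b, hb⟩
      refine ⟨num J s.G (Sp s.Cc k) b, ?_⟩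
      rw [← Equiv.symm_apply_eq, dl_run, Equiv.symm_apply_apply]
      exact hb
    · rintro ⟨b, hb⟩
      refine ⟨(num J s.G (Sp s.Cc k)).symm b, ?_⟩
      rw [← dl_run, hb, Equiv.symm_apply_apply]
  · rintro ⟨w, hw⟩
    refine ⟨w.map (num J s.E Bool), ?_⟩
    ext q
    have h := Set.ext_iff.1 hw ((num J s.G (Sp s.Cc k)).symm q)
    rw [Set.mem_ofPred_eq] at h
    rw [mem_tg, ← h]
    simp only [Set.mem_range, Finset.mem_image, Finset.mem_univ, true_and]
    have hrun : ∀ b, (num J s.G (Sp s.Cc k)).symm
        ((w.map (num J s.E Bool)).foldl (s.dl k J x) b) =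
        s.drun x w ((num J s.G (Sp s.Cc k)).symm b) := by
      intro b
      rw [dl_run, List.map_map]
      congr 1
      simp
    constructor
    · rintro ⟨b, hb⟩
      exact ⟨(num J s.G (Sp s.Cc k)).symm b, by rw [← hrun, hb]⟩
    · rintro ⟨b, hb⟩
      refine ⟨num J s.G (Sp s.Cc k) b, ?_⟩
      apply (num J s.G (Sp s.Cc k)).symm.injective
      rw [hrun, Equiv.symm_apply_apply, hb]

theorem inst_card : (s.inst k J x).P.card = k + 1 := by
  classical
  have h : s.tg k J = Finset.image (fun o : Option (Fin k) => match o with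
      | none => num J s.G (Sp s.Cc k) (Sum.inr .p)
      | some i => num J s.G (Sp s.Cc k) (Sum.inr (.q i))) Finset.univ := by
    ext q
    rw [mem_tg]
    simp only [Finset.mem_univ, true_and, Finset.mem_image]
    constructor
    · rintro (h | ⟨i, h⟩)
      · exact ⟨none, ((Equiv.symm_apply_eq _).1 h).symm⟩
      · exact ⟨some i, ((Equiv.symm_apply_eq _).1 h).symm⟩
    · rintro ⟨o, rfl⟩
      cases o with
      | none => left; simp
      | some i => right; exact ⟨i, by simp⟩
  have h2 : (s.inst k J x).P.card = (s.tg k J).card := rfl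
  rw [h2, h, Finset.card_image_of_injective]
  · simp
  · intro a b hab
    cases a <;> cases b <;> first | rfl | (simp at hab; try rw [hab])

/-! ### the output of the reduction -/

/-- transition table of a cell under simulation letters -/
noncomputable def cellT (r : Fin 3) (e : Fin (Nat.card s.E)) (g : Fin (Nat.card s.G)) : ℕ :=
  (Finite.equivFin s.G (s.cell r ((Finite.equivFin s.E).symm e)
    ((Finite.equivFin s.G).symm g))).val

/-- initial state of a cell -/
noncomputable def initT (o : Option Bool) : ℕ := (Finite.equivFin s.G (s.init o)).val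

/-- effect of the checking letter on a cell -/
noncomputable def chkT (b : Bool) (g : Fin (Nat.card s.G)) : ℕ :=
  (Finite.equivFin (Sp s.Cc k)
    (if s.accG b ((Finite.equivFin s.G).symm g) then .p else .r)).val

/-- effect of the simulation letters on a special state -/
noncomputable def simB (b : Bool) (e : Fin (Nat.card s.E)) (q : Fin (Nat.card (Sp s.Cc k))) : ℕ :=
  (Finite.equivFin (Sp s.Cc k) (s.spSim b ((Finite.equivFin s.E).symm e)
    ((Finite.equivFin (Sp s.Cc k)).symm q))).val

/-- effect of the other letters on a special state -/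
noncomputable def othB (b : Bool) (q : Fin (Nat.card (Sp s.Cc k))) : ℕ :=
  (Finite.equivFin (Sp s.Cc k) (if b then s.spChk ((Finite.equivFin (Sp s.Cc k)).symm q)
    else s.spInit ((Finite.equivFin (Sp s.Cc k)).symm q))).val

open Classical in
/-- membership of a special state in the target set -/
noncomputable def flagB (q : Fin (Nat.card (Sp s.Cc k))) : ℕ :=
  if ((Finite.equivFin (Sp s.Cc k)).symm q = .p ∨
    ∃ i, (Finite.equivFin (Sp s.Cc k)).symm q = .q i) then 1 else 0

/-- row of the transition table for a cell state -/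
noncomputable def rowC (j : ℕ) (g : Fin (Nat.card s.G)) : List Bool :=
  ((List.range J).flatMap fun h => (List.finRange (Nat.card s.E)).flatMap fun e =>
    unary (Nat.card s.G * j + s.cellT (rel j h) e g)) ++
  (List.finRange (Nat.card Bool)).flatMap fun l =>
    unary (if (Finite.equivFin Bool).symm l then J * Nat.card s.G + s.chkT k (j == 0) g
      else Nat.card s.G * j + s.initT (x.reverse[j]?))

/-- row of the transition table for a special state -/
noncomputable def rowB (q : Fin (Nat.card (Sp s.Cc k))) : List Bool :=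
  ((List.range J).flatMap fun h => (List.finRange (Nat.card s.E)).flatMap fun e =>
    unary (J * Nat.card s.G + s.simB k (h == 0) e q)) ++
  (List.finRange (Nat.card Bool)).flatMap fun l =>
    unary (J * Nat.card s.G + s.othB k ((Finite.equivFin Bool).symm l) q)

/-- the encoded instance -/
noncomputable def out : List Bool :=
  unary (J * Nat.card s.G + Nat.card (Sp s.Cc k)) ++ unary (J * Nat.card s.E + Nat.card Bool) ++
  ((List.range J).flatMap (fun j => (List.finRange (Nat.card s.G)).flatMap fun g =>
      s.rowC k J x j g) ++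
    (List.finRange (Nat.card (Sp s.Cc k))).flatMap fun q => s.rowB k J q) ++
  ((List.range J).flatMap (fun _ => (List.finRange (Nat.card s.G)).flatMap fun _ => unary 0) ++
    (List.finRange (Nat.card (Sp s.Cc k))).flatMap fun q => unary (s.flagB k q))

theorem encode_inst : (s.inst k J x).encode = s.out k J x := by
  classical
  have h0 : (s.inst k J x).encode = unary (J * Nat.card s.G + Nat.card (Sp s.Cc k)) ++
    unary (J * Nat.card s.E + Nat.card Bool) ++
    (List.finRange (J * Nat.card s.G + Nat.card (Sp s.Cc k))).flatMap (fun q =>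
      (List.finRange (J * Nat.card s.E + Nat.card Bool)).flatMap
        fun a => unary (s.dl k J x q a)) ++
    (List.finRange (J * Nat.card s.G + Nat.card (Sp s.Cc k))).flatMap
      fun q => unary (if q ∈ s.tg k J then 1 else 0) := rfl
  rw [h0]
  unfold out
  congr 1
  · congr 1
    -- the transition table
    have h1 := flatMap_num J s.G (Sp s.Cc k) (fun q' =>
      (List.finRange (J * Nat.card s.E + Nat.card Bool)).flatMap fun a =>
          unary (num J s.G (Sp s.Cc k) (s.step x q' ((num J s.E Bool).symm a))))
    unfold dl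
    rw [h1]
    congr 1
    · rw [← flatMap_finRange_val]
      refine List.flatMap_congr fun j _ => List.flatMap_congr fun g _ => ?_
      have h2 := flatMap_num J s.E Bool (fun a => unary (num J s.G (Sp s.Cc k) (s.step x
        (Sum.inl (j, (Finite.equivFin s.G).symm g)) a)))
      rw [h2]
      unfold rowC
      congr 1
      · rw [← flatMap_finRange_val]
        refine List.flatMap_congr fun h _ => List.flatMap_congr fun e _ => ?_
        simp only [step, num_inl, cellT]
      · refine List.flatMap_congr fun l _ => ?_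
        cases (Finite.equivFin Bool).symm l with
        | false => simp [step, num_inl, initT, initG]
        | true => simp only [step, num_inr, chkT, if_true]
    · refine List.flatMap_congr fun q _ => ?_
      have h2 := flatMap_num J s.E Bool (fun a => unary (num J s.G (Sp s.Cc k) (s.step x
        (Sum.inr ((Finite.equivFin (Sp s.Cc k)).symm q)) a)))
      rw [h2]
      unfold rowB
      congr 1
      · rw [← flatMap_finRange_val]
        refine List.flatMap_congr fun h _ => List.flatMap_congr fun e _ => ?_
        simp only [step, num_inr, simB]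
      · refine List.flatMap_congr fun l _ => ?_
        cases (Finite.equivFin Bool).symm l with
        | false => simp [step, num_inr, othB]
        | true => simp [step, num_inr, othB]
  · have h1 := flatMap_num J s.G (Sp s.Cc k)
      (fun q' => unary (if (q' = Sum.inr .p ∨ ∃ i, q' = Sum.inr (.q i)) then 1 else 0))
    simp only [mem_tg]
    rw [h1]
    congr 1
    · rw [← flatMap_finRange_val]
      refine List.flatMap_congr fun j _ => List.flatMap_congr fun g _ => ?_
      simp
    · refine List.flatMap_congr fun q _ => ?_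
      simp [flagB]

/-! ### the reduction is computable in polynomial time -/

theorem pt_unary {α : Type} [DEnc α] {n : α → ℕ} (hn : PT n) : PT (fun a => unary (n a)) := by
  unfold unary
  fun_prop

theorem pt_rel {α : Type} [DEnc α] {j h : α → ℕ} (hj : PT j) (hh : PT h) :
    PT (fun a => rel (j a) (h a)) := by
  unfold rel
  fun_prop

theorem pt_rowC : PT (fun y : (ℕ × List Bool) × ℕ × Fin (Nat.card s.G) =>
    s.rowC k y.1.1 y.1.2 y.2.1 y.2.2) := by
  unfold rowC
  refine PT.append ?_ ?_
  · refine PT.flatMap (f := fun (y : (ℕ × List Bool) × ℕ × Fin (Nat.card s.G)) (h : ℕ) =>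
      (List.finRange (Nat.card s.E)).flatMap fun e =>
        unary (Nat.card s.G * y.2.1 + s.cellT (rel y.2.1 h) e y.2.2)) ?_ (by fun_prop)
    refine PT.flatMap (f := fun (y : ((ℕ × List Bool) × ℕ × Fin (Nat.card s.G)) × ℕ)
      (e : Fin (Nat.card s.E)) => unary (Nat.card s.G * y.1.2.1 +
        s.cellT (rel y.1.2.1 y.2) e y.1.2.2)) ?_ (by fun_prop)
    refine pt_unary (PT.add (by fun_prop) ?_)
    have h1 : PT (fun t : Fin 3 × Fin (Nat.card s.E) × Fin (Nat.card s.G) =>
        s.cellT t.1 t.2.1 t.2.2) :=
      PT.ofFinite (enc_pair_inj (enc_fin_inj _) (enc_pair_inj (enc_fin_inj _) (enc_fin_inj _))) _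
    have h2 : PT (fun y : (((ℕ × List Bool) × ℕ × Fin (Nat.card s.G)) × ℕ) ×
        Fin (Nat.card s.E) => ((rel y.1.1.2.1 y.1.2, y.2, y.1.1.2.2) :
        Fin 3 × Fin (Nat.card s.E) × Fin (Nat.card s.G))) :=
      PT.pair (pt_rel (by fun_prop) (by fun_prop)) (by fun_prop)
    exact h1.comp h2
  · refine PT.flatMap (f := fun (y : (ℕ × List Bool) × ℕ × Fin (Nat.card s.G))
      (l : Fin (Nat.card Bool)) => unary (if (Finite.equivFin Bool).symm l then
        y.1.1 * Nat.card s.G + s.chkT k (y.2.1 == 0) y.2.2
      else Nat.card s.G * y.2.1 + s.initT (y.1.2.reverse[y.2.1]?))) ?_ (by fun_prop)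
    refine pt_unary ?_
    refine PT.ite (c := fun x : ((ℕ × List Bool) × ℕ × Fin (Nat.card s.G)) ×
      Fin (Nat.card Bool) => (Finite.equivFin Bool).symm x.2) ?_ (PT.add (by fun_prop) ?_)
      (PT.add (by fun_prop) ?_)
    · have h1 : PT (fun l : Fin (Nat.card Bool) => (Finite.equivFin Bool).symm l) :=
        PT.ofFinite (enc_fin_inj _) _
      exact h1.comp PT.snd
    · have h1 : PT (fun t : Bool × Fin (Nat.card s.G) => s.chkT k t.1 t.2) :=
        PT.ofFinite (enc_pair_inj enc_bool_inj (enc_fin_inj _)) _
      have h2 : PT (fun y : ((ℕ × List Bool) × ℕ × Fin (Nat.card s.G)) ×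
          Fin (Nat.card Bool) => ((y.1.2.1 == 0, y.1.2.2) : Bool × Fin (Nat.card s.G))) := by
        fun_prop
      exact h1.comp h2
    · have h1 : PT (fun t : Option Bool => s.initT t) :=
        PT.ofFinite (enc_option_inj enc_bool_inj) _
      have h2 : PT (fun y : ((ℕ × List Bool) × ℕ × Fin (Nat.card s.G)) ×
          Fin (Nat.card Bool) => (y.1.1.2.reverse[y.1.2.1]?)) := by
        fun_prop
      exact h1.comp h2

theorem pt_rowB : PT (fun y : ℕ × Fin (Nat.card (Sp s.Cc k)) => s.rowB k y.1 y.2) := by
  unfold rowB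
  refine PT.append ?_ ?_
  · refine PT.flatMap (f := fun (y : ℕ × Fin (Nat.card (Sp s.Cc k))) (h : ℕ) =>
      (List.finRange (Nat.card s.E)).flatMap fun e =>
        unary (y.1 * Nat.card s.G + s.simB k (h == 0) e y.2)) ?_ (by fun_prop)
    refine PT.flatMap (f := fun (y : (ℕ × Fin (Nat.card (Sp s.Cc k))) × ℕ)
      (e : Fin (Nat.card s.E)) => unary (y.1.1 * Nat.card s.G +
        s.simB k (y.2 == 0) e y.1.2)) ?_ (by fun_prop)
    refine pt_unary (PT.add (by fun_prop) ?_)
    have h1 : PT (fun t : Bool × Fin (Nat.card s.E) × Fin (Nat.card (Sp s.Cc k)) =>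
        s.simB k t.1 t.2.1 t.2.2) :=
      PT.ofFinite (enc_pair_inj enc_bool_inj (enc_pair_inj (enc_fin_inj _) (enc_fin_inj _))) _
    have h2 : PT (fun y : ((ℕ × Fin (Nat.card (Sp s.Cc k))) × ℕ) ×
        Fin (Nat.card s.E) => ((y.1.2 == 0, y.2, y.1.1.2) :
        Bool × Fin (Nat.card s.E) × Fin (Nat.card (Sp s.Cc k)))) := by fun_prop
    exact h1.comp h2
  · refine PT.flatMap (f := fun (y : ℕ × Fin (Nat.card (Sp s.Cc k)))
      (l : Fin (Nat.card Bool)) => unary (y.1 * Nat.card s.G +
        s.othB k ((Finite.equivFin Bool).symm l) y.2)) ?_ (by fun_prop)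
    refine pt_unary (PT.add (by fun_prop) ?_)
    have h1 : PT (fun t : Fin (Nat.card Bool) × Fin (Nat.card (Sp s.Cc k)) =>
        s.othB k ((Finite.equivFin Bool).symm t.1) t.2) :=
      PT.ofFinite (enc_pair_inj (enc_fin_inj _) (enc_fin_inj _)) _
    have h2 : PT (fun y : (ℕ × Fin (Nat.card (Sp s.Cc k))) × Fin (Nat.card Bool) =>
        ((y.2, y.1.2) : Fin (Nat.card Bool) × Fin (Nat.card (Sp s.Cc k)))) := by fun_prop
    exact h1.comp h2

theorem pt_out : PT (fun x : ℕ × List Bool => s.out k x.1 x.2) := by
  unfold out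
  refine PT.append (PT.append (PT.append ?_ ?_) (PT.append ?_ ?_)) (PT.append ?_ ?_)
  · exact pt_unary (by fun_prop)
  · exact pt_unary (by fun_prop)
  · refine PT.flatMap (f := fun (x : ℕ × List Bool) (j : ℕ) =>
      (List.finRange (Nat.card s.G)).flatMap fun g =>
        s.rowC k x.1 x.2 j g) ?_ (by fun_prop)
    refine PT.flatMap (f := fun (y : (ℕ × List Bool) × ℕ) (g : Fin (Nat.card s.G)) =>
        s.rowC k y.1.1 y.1.2 y.2 g) ?_ (by fun_prop)
    have h2 : PT (fun y : ((ℕ × List Bool) × ℕ) × Fin (Nat.card s.G) =>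
        ((y.1.1, y.1.2, y.2) : (ℕ × List Bool) × ℕ × Fin (Nat.card s.G))) := by fun_prop
    have h3 := (s.pt_rowC k).comp h2
    exact h3
  · refine PT.flatMap (f := fun (x : ℕ × List Bool) (q : Fin (Nat.card (Sp s.Cc k))) =>
        s.rowB k x.1 q) ?_ (by fun_prop)
    have h2 : PT (fun y : (ℕ × List Bool) × Fin (Nat.card (Sp s.Cc k)) =>
        ((y.1.1, y.2) : ℕ × Fin (Nat.card (Sp s.Cc k)))) := by fun_prop
    have h3 := (s.pt_rowB k).comp h2
    exact h3
  · refine PT.flatMap (f := fun (_ : ℕ × List Bool) (_ : ℕ) =>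
      (List.finRange (Nat.card s.G)).flatMap fun _ => unary 0) ?_ (by fun_prop)
    exact PT.const _
  · exact PT.const _

end LSys

/-! ### the encoding is injective -/

theorem unary_inj {a b : ℕ} {u v : List Bool} (h : unary a ++ u = unary b ++ v) :
    a = b ∧ u = v := by
  induction a generalizing b with
  | zero => cases b with
    | zero => simpa [unary] using h
    | succ b => simp [unary, List.replicate_succ] at h
  | succ a ih => cases b with
    | zero => simp [unary, List.replicate_succ] at h
    | succ b =>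
      have h2 : unary a ++ u = unary b ++ v := by
        simpa [unary, List.replicate_succ] using h
      obtain ⟨h3, h4⟩ := ih h2
      exact ⟨by rw [h3], h4⟩

theorem flatMap_unary_inj {α : Type} (l : List α) (f g : α → ℕ) {u v : List Bool}
    (h : l.flatMap (fun a => unary (f a)) ++ u = l.flatMap (fun a => unary (g a)) ++ v) :
    (∀ a ∈ l, f a = g a) ∧ u = v := by
  induction l with
  | nil => simpa using h
  | cons a l ih =>
    simp only [List.flatMap_cons, List.append_assoc] at h
    obtain ⟨h1, h2⟩ := unary_inj h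
    obtain ⟨h3, h4⟩ := ih h2
    refine ⟨?_, h4⟩
    intro b hb
    rcases List.mem_cons.1 hb with rfl | hb
    · exact h1
    · exact h3 b hb

theorem flatMap2_unary_inj {α β : Type} (l : List α) (l' : List β) (f g : α → β → ℕ)
    {u v : List Bool}
    (h : l.flatMap (fun a => l'.flatMap fun b => unary (f a b)) ++ u =
      l.flatMap (fun a => l'.flatMap fun b => unary (g a b)) ++ v) :
    (∀ a ∈ l, ∀ b ∈ l', f a b = g a b) ∧ u = v := by
  induction l with
  | nil => simpa using h
  | cons a l ih =>
    simp only [List.flatMap_cons, List.append_assoc] at h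
    obtain ⟨h1, h2⟩ := flatMap_unary_inj l' _ _ h
    obtain ⟨h3, h4⟩ := ih h2
    refine ⟨?_, h4⟩
    intro b hb
    rcases List.mem_cons.1 hb with rfl | hb
    · exact h1
    · exact h3 b hb

theorem Inst.encode_injective {I I' : Inst} (h : I.encode = I'.encode) : I = I' := by
  obtain ⟨n, m, δ, P⟩ := I
  obtain ⟨n', m', δ', P'⟩ := I'
  unfold Inst.encode at h
  simp only [List.append_assoc] at h
  obtain ⟨h1, h2⟩ := unary_inj h
  obtain ⟨h3, h4⟩ := unary_inj h2
  subst h1 h3
  obtain ⟨h5, h6⟩ := flatMap2_unary_inj (List.finRange n) (List.finRange m)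
    (fun q a => (δ q a).val) (fun q a => (δ' q a).val) h4
  have h7 := flatMap_unary_inj (List.finRange n) (fun q => if q ∈ P then 1 else 0)
    (fun q => if q ∈ P' then 1 else 0) (u := []) (v := []) (by simpa using h6)
  have h8 : δ = δ' := by
    funext q a
    exact Fin.ext (h5 q (List.mem_finRange q) a (List.mem_finRange a))
  have h9 : P = P' := by
    ext q
    have := h7.1 q (List.mem_finRange q)
    by_cases h1 : q ∈ P <;> by_cases h2 : q ∈ P' <;> simp [h1, h2] at this ⊢
  rw [h8, h9]

namespace LSys

variable (s : LSys) (k J : ℕ) (x : List Bool)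

/-- the language of a system of local automata with `(|x| + 2) ^ K` cells reduces to
REACHABLE SUBSET for subsets with `k + 1` elements -/
theorem reducible (K : ℕ) (hk : 0 < k) (L : Set (List Bool))
    (hL : ∀ x, x ∈ L ↔ s.Acc ((x.length + 2) ^ K) x) :
    PolyReducible L (ReachableSubset (k + 1)) := by
  have h1 : PT (fun x : List Bool => (((x.length + 2) ^ K, x) : ℕ × List Bool)) := by fun_prop
  have h2 := ((s.pt_out k).comp h1).computable
  refine ⟨_, h2, fun x => ?_⟩
  show _ ↔ s.out k ((x.length + 2) ^ K) x ∈ _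
  rw [hL, ← s.gadget x hk, ← s.inst_reachable]
  constructor
  · intro h
    exact ⟨s.inst k ((x.length + 2) ^ K) x, (s.encode_inst k _ x).symm, s.inst_card k _ x, h⟩
  · rintro ⟨I, hI, -, hr⟩
    have : I = s.inst k ((x.length + 2) ^ K) x := by
      apply Inst.encode_injective
      rw [← hI, s.encode_inst k _ x]
    rw [← this]
    exact hr

end LSys

end Pool.Agent.Lib.MP_76b05e_lc
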