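import Pool.Agent.Lib.MP_76b05e_lc.Savitch
import Pool.Agent.Lib.MP_76b05e_lc.Reduce

/-!
REACHABLE SUBSET is in polynomial space.
-/

namespace Pool.Agent.Lib.MP_76b05e_lc

/-! ### instances as lists of numbers -/

/-- the instance as a list of numbers -/
def numsOf (I : Inst) : List ℕ :=
  I.n :: I.m :: (((List.finRange I.n).flatMap fun q => (List.finRange I.m).map fun a =>
    (I.δ q a).val) ++ (List.finRange I.n).map fun q => if q ∈ I.P then 1 else 0)

theorem encode_eq (I : Inst) : I.encode = (numsOf I).flatMap unary := by
  simp only [Inst.encode, numsOf, List.flatMap_cons, List.flatMap_append, List.append_assoc,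
    List.flatMap_map, List.flatMap_assoc]

theorem getElem?_flatMap_const {α β : Type} (f : α → List β) (m : ℕ) (l : List α)
    (hf : ∀ x ∈ l, (f x).length = m) (q a : ℕ) (ha : a < m) :
    (l.flatMap f)[q * m + a]? = l[q]?.bind fun x => (f x)[a]? := by
  induction l generalizing q with
  | nil => simp
  | cons x l ih =>
    have hx := hf x List.mem_cons_self
    rw [List.flatMap_cons]
    cases q with
    | zero =>
      rw [List.getElem?_append_left (by omega)]
      simp
    | succ q =>
      have h1 : (q + 1) * m = q * m + m := by ring
      rw [List.getElem?_append_right (by rw [hx, h1]; omega), hx]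
      have h2 : (q + 1) * m + a - m = q * m + a := by rw [h1]; omega
      rw [h2, ih (fun y hy => hf y (List.mem_cons_of_mem _ hy))]
      simp

theorem length_flatMap_const {α β : Type} (f : α → List β) (m : ℕ) (l : List α)
    (hf : ∀ x ∈ l, (f x).length = m) : (l.flatMap f).length = l.length * m := by
  induction l with
  | nil => simp
  | cons x l ih =>
    rw [List.flatMap_cons, List.length_append, hf x List.mem_cons_self,
      ih (fun y hy => hf y (List.mem_cons_of_mem _ hy)), List.length_cons]
    ring

/-- the transition table -/
def tabOf (I : Inst) : List ℕ :=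
  (List.finRange I.n).flatMap fun q => (List.finRange I.m).map fun a => (I.δ q a).val

theorem length_tabOf (I : Inst) : (tabOf I).length = I.n * I.m := by
  unfold tabOf
  rw [length_flatMap_const _ I.m _ (fun q _ => by simp)]
  simp

theorem tabOf_get (I : Inst) (q : Fin I.n) (a : Fin I.m) :
    (tabOf I)[q.val * I.m + a.val]? = some (I.δ q a).val := by
  unfold tabOf
  rw [getElem?_flatMap_const _ I.m _ (fun q _ => by simp) _ _ a.isLt]
  simp

/-- characteristic list of a set of states -/
def cl {n : ℕ} (S : Finset (Fin n)) : List Bool := (List.finRange n).map fun q => decide (q ∈ S)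

theorem numsOf_eq (I : Inst) : numsOf I = I.n :: I.m :: (tabOf I ++
    (List.finRange I.n).map fun q => if q ∈ I.P then 1 else 0) := rfl

@[simp] theorem nOf_numsOf (I : Inst) : nOf (numsOf I) = I.n := rfl
@[simp] theorem mOf_numsOf (I : Inst) : mOf (numsOf I) = I.m := rfl

theorem dOf_numsOf (I : Inst) (q : Fin I.n) (a : Fin I.m) :
    dOf (numsOf I) q.val a.val = (I.δ q a).val := by
  unfold dOf
  rw [mOf_numsOf, numsOf_eq, List.getD_eq_getElem?_getD]
  have h1 : 2 + q.val * I.m + a.val = (q.val * I.m + a.val) + 2 := by omega
  rw [h1]
  have hlt : q.val * I.m + a.val < (tabOf I).length := by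
    rw [length_tabOf]
    calc q.val * I.m + a.val < q.val * I.m + I.m := by omega
      _ = (q.val + 1) * I.m := by ring
      _ ≤ I.n * I.m := Nat.mul_le_mul_right _ q.isLt
  simp only [List.getElem?_cons_succ]
  rw [List.getElem?_append_left hlt, tabOf_get]
  rfl

theorem drop_numsOf (I : Inst) : (numsOf I).drop (2 + I.n * I.m) =
    (List.finRange I.n).map fun q => if q ∈ I.P then 1 else 0 := by
  rw [numsOf_eq, show 2 + I.n * I.m = I.n * I.m + 2 by omega]
  simp only [List.drop_succ_cons]
  rw [← length_tabOf, List.drop_left]

theorem take_numsOf (I : Inst) : ((numsOf I).drop 2).take (I.n * I.m) = tabOf I := by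
  rw [numsOf_eq]
  simp only [List.drop_succ_cons, List.drop_zero]
  rw [← length_tabOf, List.take_left]

/-- validity of a list of numbers -/
def valid (k : ℕ) (N : List ℕ) : Bool :=
  (N.length == 2 + nOf N * mOf N + nOf N) &&
  (((N.drop 2).take (nOf N * mOf N)).all fun t => decide (t < nOf N)) &&
  ((N.drop (2 + nOf N * mOf N)).all fun t => decide (t ≤ 1)) &&
  (((N.drop (2 + nOf N * mOf N)).flatMap fun t => if t = 1 then [t] else []).length == k)

theorem length_flatMap_ite (l : List ℕ) :
    (l.flatMap fun t => if t = 1 then [t] else []).length =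
      (l.filter fun t => decide (t = 1)).length := by
  induction l with
  | nil => rfl
  | cons a l ih =>
    rw [List.flatMap_cons, List.length_append, ih, List.filter_cons]
    by_cases h : a = 1 <;> simp [h, Nat.add_comm]

theorem length_filter_finRange {n : ℕ} (S : Finset (Fin n)) :
    ((List.finRange n).filter fun q => decide (q ∈ S)).length = S.card := by
  have h1 : S = ((List.finRange n).filter fun q => decide (q ∈ S)).toFinset := by
    ext q; simp
  have h2 : ((List.finRange n).filter fun q => decide (q ∈ S)).Nodup :=
    (List.nodup_finRange n).filter _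
  conv_rhs => rw [h1]
  rw [List.toFinset_card_of_nodup h2]

theorem valid_numsOf (I : Inst) : valid I.P.card (numsOf I) = true := by
  unfold valid
  rw [nOf_numsOf, mOf_numsOf, drop_numsOf, take_numsOf]
  simp only [Bool.and_eq_true, beq_iff_eq, List.all_eq_true, decide_eq_true_eq]
  refine ⟨⟨⟨?_, ?_⟩, ?_⟩, ?_⟩
  · rw [numsOf_eq]
    simp only [List.length_cons, List.length_append, length_tabOf, List.length_map,
      List.length_finRange]
    omega
  · intro t ht
    unfold tabOf at ht
    simp only [List.mem_flatMap, List.mem_map] at ht
    obtain ⟨q, -, a, -, rfl⟩ := ht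
    exact (I.δ q a).isLt
  · intro t ht
    simp only [List.mem_map] at ht
    obtain ⟨q, -, rfl⟩ := ht
    split_ifs <;> omega
  · rw [length_flatMap_ite, List.filter_map, List.length_map,
      ← length_filter_finRange]
    congr 1
    refine List.filter_congr fun q _ => ?_
    by_cases h : q ∈ I.P <;> simp [h]

theorem exists_of_valid {k : ℕ} {N : List ℕ} (h : valid k N = true) :
    ∃ I : Inst, numsOf I = N ∧ I.P.card = k := by
  unfold valid at h
  simp only [Bool.and_eq_true, beq_iff_eq, List.all_eq_true, decide_eq_true_eq] at h
  obtain ⟨⟨⟨h1, h2⟩, h3⟩, h4⟩ := h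
  rcases N with _ | ⟨n, _ | ⟨m, R⟩⟩
  · simp [nOf] at h1
  · simp only [List.length_cons, List.length_nil] at h1; omega
  have hn : nOf (n :: m :: R) = n := rfl
  have hm : mOf (n :: m :: R) = m := rfl
  rw [hn, hm] at h1 h2 h3 h4
  simp only [List.length_cons, List.drop_succ_cons, List.drop_zero] at h1 h2
  rw [show 2 + n * m = n * m + 2 by omega] at h3 h4
  simp only [List.drop_succ_cons] at h3 h4
  have hR : R.length = n * m + n := by omega
  have hidx : ∀ (q : Fin n) (a : Fin m), q.val * m + a.val < n * m := by
    intro q a
    calc q.val * m + a.val < q.val * m + m := by omega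
      _ = (q.val + 1) * m := by ring
      _ ≤ n * m := Nat.mul_le_mul_right _ q.isLt
  have hlt : ∀ (q : Fin n) (a : Fin m), R.getD (q.val * m + a.val) 0 < n := by
    intro q a
    have h5 := hidx q a
    have h6 : q.val * m + a.val < R.length := by omega
    rw [List.getD_eq_getElem _ _ h6]
    apply h2
    have h7 : R[q.val * m + a.val] = (R.take (n * m))[q.val * m + a.val]'(by
      rw [List.length_take]; omega) := by
      rw [List.getElem_take]
    rw [h7]
    exact List.getElem_mem _
  let I : Inst := ⟨n, m, fun q a => ⟨R.getD (q.val * m + a.val) 0, hlt q a⟩,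
    Finset.univ.filter fun q => R.getD (n * m + q.val) 0 = 1⟩
  have htab : tabOf I = R.take (n * m) := by
    apply List.ext_getElem?
    intro i
    by_cases hi : i < n * m
    · have hm0 : 0 < m := by
        rcases Nat.eq_zero_or_pos m with h | h
        · subst h; simp at hi
        · exact h
      have hq : i / m < n := Nat.div_lt_of_lt_mul (by rwa [Nat.mul_comm] at hi)
      have ha : i % m < m := Nat.mod_lt _ hm0
      have hi' : i = (i / m) * m + i % m := by
        rw [Nat.mul_comm]; exact (Nat.div_add_mod i m).symm
      have h5 := tabOf_get I ⟨i / m, hq⟩ ⟨i % m, ha⟩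
      have h6 : (tabOf I)[i]? = some (R.getD i 0) := by
        have h7 : (tabOf I)[(i / m) * m + i % m]? = some (R.getD ((i / m) * m + i % m) 0) := h5
        rw [← hi'] at h7
        exact h7
      rw [h6, List.getElem?_take_of_lt hi, List.getD_eq_getElem _ _ (by omega),
        List.getElem?_eq_getElem]
    · rw [List.getElem?_eq_none (by rw [length_tabOf]; show n * m ≤ i; omega),
        List.getElem?_eq_none (by rw [List.length_take]; omega)]
  have hflag : ((List.finRange I.n).map fun q => if q ∈ I.P then 1 else 0) = R.drop (n * m) := by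
    apply List.ext_getElem?
    intro i
    by_cases hi : i < n
    · have h5 : (List.finRange I.n)[i]? = some (⟨i, hi⟩ : Fin n) := by
        rw [List.getElem?_eq_getElem (by simpa using hi)]
        simp
      rw [List.getElem?_map, h5, List.getElem?_drop]
      have h6 : n * m + i < R.length := by omega
      rw [List.getElem?_eq_getElem h6, Option.map_some]
      congr 1
      have h7 : (⟨i, hi⟩ : Fin n) ∈ I.P ↔ R[n * m + i] = 1 := by
        show _ ∈ Finset.univ.filter _ ↔ _
        rw [Finset.mem_filter]
        simp only [Finset.mem_univ, true_and]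
        rw [List.getD_eq_getElem _ _ h6]
      have h8 : R[n * m + i] ≤ 1 := by
        apply h3
        rw [List.mem_drop_iff_getElem]
        exact ⟨i, by omega, by congr 1⟩
      by_cases h9 : (⟨i, hi⟩ : Fin n) ∈ I.P
      · rw [if_pos h9, h7.1 h9]
      · rw [if_neg h9]
        have : R[n * m + i] ≠ 1 := fun h => h9 (h7.2 h)
        omega
    · rw [List.getElem?_eq_none (by simp; show n ≤ i; omega),
        List.getElem?_eq_none (by rw [List.length_drop]; omega)]
  refine ⟨I, ?_, ?_⟩
  · rw [numsOf_eq, htab, hflag, List.take_append_drop]
  · rw [← h4, ← hflag, length_flatMap_ite, List.filter_map,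
      List.length_map, ← length_filter_finRange]
    congr 1
    refine List.filter_congr fun q _ => ?_
    by_cases h : q ∈ I.P <;> simp [h]

/-! ### reading the numbers -/

/-- read the unary numbers of a word; the first component counts the unfinished ones -/
def nums (x : List Bool) : ℕ × List ℕ :=
  x.foldl (fun s b => if b then (s.1 + 1, s.2) else (0, s.1 :: s.2)) (0, [])

theorem foldl_unary (c : ℕ) (acc : List ℕ) (t : ℕ) :
    (unary t).foldl (fun (s : ℕ × List ℕ) b => if b then (s.1 + 1, s.2) else (0, s.1 :: s.2))
      (c, acc) = (0, (c + t) :: acc) := by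
  induction t generalizing c with
  | zero => rfl
  | succ t ih =>
    have : unary (t + 1) = true :: unary t := by simp [unary, List.replicate_succ]
    rw [this, List.foldl_cons]
    simp only [if_true]
    rw [ih]
    congr 2
    omega

theorem nums_flatMap (N : List ℕ) : nums (N.flatMap unary) = (0, N.reverse) := by
  unfold nums
  suffices ∀ acc, (N.flatMap unary).foldl (fun (s : ℕ × List ℕ) b =>
      if b then (s.1 + 1, s.2) else (0, s.1 :: s.2)) (0, acc) = (0, N.reverse ++ acc) by
    simpa using this []
  induction N with
  | nil => intro acc; rfl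
  | cons t N ih =>
    intro acc
    rw [List.flatMap_cons, List.foldl_append, foldl_unary, ih]
    simp

theorem of_nums (x : List Bool) :
    x = (nums x).2.reverse.flatMap unary ++ List.replicate (nums x).1 true := by
  induction x using List.reverseRecOn with
  | nil => rfl
  | append_singleton x b ih =>
    have h : nums (x ++ [b]) = if b then ((nums x).1 + 1, (nums x).2)
        else (0, (nums x).1 :: (nums x).2) := by
      unfold nums
      rw [List.foldl_append]
      rfl
    rw [h]
    cases b with
    | true =>
      simp only [if_true]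
      rw [List.replicate_succ', ← List.append_assoc, ← ih]
    | false =>
      simp only [Bool.false_eq_true, if_false, List.reverse_cons, List.flatMap_append,
        List.flatMap_cons, List.flatMap_nil, List.append_nil, List.replicate_zero]
      have : unary (nums x).1 = List.replicate (nums x).1 true ++ [false] := rfl
      rw [this, ← List.append_assoc, ← ih]

theorem mem_iff (k : ℕ) (x : List Bool) : x ∈ ReachableSubset k ↔
    ∃ I : Inst, (nums x).1 = 0 ∧ (nums x).2.reverse = numsOf I ∧ I.P.card = k ∧ I.Reachable := by
  constructor
  · rintro ⟨I, rfl, h1, h2⟩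
    refine ⟨I, ?_, ?_, h1, h2⟩
    · rw [encode_eq, nums_flatMap]
    · rw [encode_eq, nums_flatMap]
      simp
  · rintro ⟨I, h1, h2, h3, h4⟩
    refine ⟨I, ?_, h3, h4⟩
    rw [encode_eq, ← h2]
    conv_lhs => rw [of_nums x, h1]
    simp

end Pool.Agent.Lib.MP_76b05e_lc
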