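import Pool.Agent.Lib.MP_76b05e_lc.Member

/-!
REACHABLE SUBSET is in polynomial space (end of the proof).
-/

namespace Pool.Agent.Lib.MP_76b05e_lc

/-! ### sets of states as lists of bits -/

theorem length_cl {n : ℕ} (S : Finset (Fin n)) : (cl S).length = n := by simp [cl]

theorem cl_get {n : ℕ} (S : Finset (Fin n)) (q : Fin n) :
    (cl S).getD q.val false = decide (q ∈ S) := by
  rw [List.getD_eq_getElem _ _ (by rw [length_cl]; exact q.isLt)]
  simp [cl]

theorem cl_inj {n : ℕ} {S T : Finset (Fin n)} : cl S = cl T ↔ S = T := by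
  constructor
  · intro h
    ext q
    have h1 := cl_get S q
    rw [h, cl_get T q] at h1
    exact (decide_eq_decide.1 h1).symm
  · rintro rfl; rfl

theorem exists_cl {n : ℕ} (w : List Bool) (hw : w.length = n) :
    ∃ S : Finset (Fin n), w = cl S := by
  refine ⟨Finset.univ.filter fun q => w.getD q.val false = true, ?_⟩
  apply List.ext_getElem
  · rw [hw, length_cl]
  · intro i h1 h2
    simp only [cl, List.getElem_map, List.getElem_finRange, Finset.mem_filter, Finset.mem_univ,
      true_and, Fin.val_cast]
    rw [List.getD_eq_getElem _ _ h1]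
    simp

theorem any_range {n : ℕ} (f : ℕ → Bool) :
    (List.range n).any f = true ↔ ∃ q : Fin n, f q.val = true := by
  simp only [List.any_eq_true, List.mem_range]
  constructor
  · rintro ⟨q, hq, h⟩; exact ⟨⟨q, hq⟩, h⟩
  · rintro ⟨q, h⟩; exact ⟨q.val, q.isLt, h⟩

theorem img_cl (I : Inst) (a : Fin I.m) (S : Finset (Fin I.n)) :
    img (numsOf I) a.val (cl S) = cl (S.image fun q => I.δ q a) := by
  unfold img
  rw [nOf_numsOf]
  apply List.ext_getElem
  · simp [length_cl]
  · intro i h1 h2
    simp only [List.length_map, List.length_range] at h1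
    simp only [List.getElem_map, List.getElem_range, cl, List.getElem_finRange]
    rw [Bool.eq_iff_iff, any_range, decide_eq_true_iff, Finset.mem_image]
    constructor
    · rintro ⟨q, hq⟩
      simp only [Bool.and_eq_true, beq_iff_eq] at hq
      have h3 := cl_get S q
      unfold cl at h3
      rw [h3, dOf_numsOf] at hq
      refine ⟨q, of_decide_eq_true hq.1, ?_⟩
      ext
      simpa using hq.2
    · rintro ⟨q, hq, h⟩
      refine ⟨q, ?_⟩
      simp only [Bool.and_eq_true, beq_iff_eq]
      have h3 := cl_get S q
      unfold cl at h3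
      rw [h3, dOf_numsOf]
      refine ⟨decide_eq_true hq, ?_⟩
      rw [h]
      simp

theorem leaf_iff (I : Inst) (S T : Finset (Fin I.n)) :
    leaf (numsOf I) (cl S) (cl T) = true ↔ S = T ∨ ∃ a, (S.image fun q => I.δ q a) = T := by
  unfold leaf
  rw [Bool.or_eq_true, beq_iff_eq, cl_inj, mOf_numsOf, any_range]
  refine or_congr Iff.rfl (exists_congr fun a => ?_)
  rw [beq_iff_eq, img_cl, cl_inj]

theorem run_append (I : Inst) (w w' : List (Fin I.m)) (q : Fin I.n) :
    I.run (w ++ w') q = I.run w' (I.run w q) := by simp [Inst.run]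

theorem image_run_append (I : Inst) (w w' : List (Fin I.m)) (S : Finset (Fin I.n)) :
    S.image (I.run (w ++ w')) = (S.image (I.run w)).image (I.run w') := by
  rw [Finset.image_image]
  congr 1
  funext q
  exact run_append I w w' q

theorem evG_iff (I : Inst) (i : ℕ) (S T : Finset (Fin I.n)) :
    evG (numsOf I) i (cl S) (cl T) = true ↔
      ∃ w : List (Fin I.m), w.length ≤ 2 ^ i ∧ S.image (I.run w) = T := by
  induction i generalizing S T with
  | zero =>
    rw [evG, leaf_iff]
    constructor
    · rintro (rfl | ⟨a, rfl⟩)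
      · exact ⟨[], by simp, Finset.image_id⟩
      · exact ⟨[a], by simp, rfl⟩
    · rintro ⟨w, hw, h⟩
      rcases w with _ | ⟨a, _ | ⟨b, w⟩⟩
      · left
        rw [← h]
        exact Finset.image_id.symm
      · right
        exact ⟨a, h⟩
      · simp at hw
  | succ i ih =>
    have h0 : evG (numsOf I) (i + 1) (cl S) (cl T) =
      evH (evG (numsOf I) i) (cl S) (cl T) [] I.n := rfl
    rw [h0, evH_iff]
    simp only [List.append_nil]
    constructor
    · rintro ⟨w', h1, h2, h3⟩
      obtain ⟨R, rfl⟩ := exists_cl w' h1
      rw [ih] at h2 h3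
      obtain ⟨w₁, hw₁, rfl⟩ := h2
      obtain ⟨w₂, hw₂, rfl⟩ := h3
      refine ⟨w₁ ++ w₂, ?_, image_run_append I w₁ w₂ S⟩
      rw [List.length_append, pow_succ]
      omega
    · rintro ⟨w, hw, rfl⟩
      refine ⟨cl (S.image (I.run (w.take (2 ^ i)))), length_cl _, ?_, ?_⟩
      · rw [ih]
        exact ⟨w.take (2 ^ i), by simp, rfl⟩
      · rw [ih]
        refine ⟨w.drop (2 ^ i), ?_, ?_⟩
        · rw [List.length_drop]
          rw [pow_succ] at hw
          omega
        · rw [← image_run_append, List.take_append_drop]

theorem reach_short (I : Inst) : I.Reachable ↔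
    ∃ w : List (Fin I.m), w.length ≤ 2 ^ I.n ∧ Finset.univ.image (I.run w) = I.P := by
  classical
  constructor
  · intro h
    -- a shortest word
    have hex : ∃ l, ∃ w : List (Fin I.m), w.length = l ∧
        Finset.univ.image (I.run w) = I.P := by
      obtain ⟨w, hw⟩ := h
      exact ⟨_, w, rfl, hw⟩
    obtain ⟨w, hwl, hw⟩ := Nat.find_spec hex
    refine ⟨w, ?_, hw⟩
    by_contra hlt
    have hcard : Fintype.card (Finset (Fin I.n)) < Fintype.card (Fin (w.length + 1)) := by
      rw [Fintype.card_finset, Fintype.card_fin, Fintype.card_fin]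
      omega
    obtain ⟨a, b, hab, hf⟩ := Fintype.exists_ne_map_eq_of_card_lt
      (fun i : Fin (w.length + 1) => Finset.univ.image (I.run (w.take i.val))) hcard
    have key : ∀ i j : Fin (w.length + 1), i < j →
        Finset.univ.image (I.run (w.take i.val)) = Finset.univ.image (I.run (w.take j.val)) →
        False := by
      intro i j hij hf
      have h1 : Finset.univ.image (I.run (w.take i.val ++ w.drop j.val)) = I.P := by
        rw [image_run_append, hf, ← image_run_append, List.take_append_drop, hw]
      have h2 : (w.take i.val ++ w.drop j.val).length < Nat.find hex := by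
        rw [List.length_append, List.length_take, List.length_drop, ← hwl]
        have := j.isLt
        have h3 : i.val < j.val := hij
        omega
      exact Nat.find_min hex h2 ⟨_, rfl, h1⟩
    rcases lt_or_gt_of_ne hab with h | h
    · exact key a b h hf
    · exact key b a h hf.symm
  · rintro ⟨w, -, hw⟩
    exact ⟨w, hw⟩

/-! ### the algorithm -/

/-- the initial state of the evaluation -/
def initS (k : ℕ) (x : List Bool) : Sta :=
  if ((nums x).1 == 0) && valid k (nums x).2.reverse then
    ((nums x).2.reverse, mkN (nums x).2.reverse (nOf (nums x).2.reverse)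
      (List.replicate (nOf (nums x).2.reverse) true)
      (((nums x).2.reverse.drop (2 + nOf (nums x).2.reverse * mOf (nums x).2.reverse)).map
        fun t => t == 1), [])
  else ((nums x).2.reverse, Sum.inl false, [])

/-- the result of the evaluation -/
def outS (s : Sta) : Bool := match s.2.1 with
  | Sum.inl b => b
  | Sum.inr _ => false

theorem pt_nums : PT nums := by
  unfold nums
  refine PT.foldl (f := fun (_ : List Bool) (s : ℕ × List ℕ) (b : Bool) =>
    if b then (s.1 + 1, s.2) else (0, s.1 :: s.2)) (by fun_prop) (by fun_prop) (by fun_prop)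
    ⟨1, fun e s b _ => ?_⟩
  obtain ⟨c, acc⟩ := s
  have h := sz_nat c
  cases b
  · simp only [Bool.false_eq_true, if_false, sz_pair, sz_lcons, sz_zero]
    have := le_pow_one (sz e)
    omega
  · simp only [if_true, sz_pair, sz_nat]
    have := le_pow_one (sz e)
    omega

theorem pt_valid (k : ℕ) : PT (valid k) := by
  unfold valid
  refine PT.and (PT.and (PT.and ?_ ?_) ?_) ?_
  · fun_prop
  · exact PT.all (f := fun (N : List ℕ) (t : ℕ) => decide (t < nOf N)) (by fun_prop)
      (by fun_prop)
  · exact PT.all (f := fun (N : List ℕ) (t : ℕ) => decide (t ≤ 1)) (by fun_prop)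
      (by fun_prop)
  · refine PT.natBEq (PT.length ?_) (by fun_prop)
    exact PT.flatMap (f := fun (N : List ℕ) (t : ℕ) => if t = 1 then [t] else []) (by fun_prop)
      (by fun_prop)

theorem pt_initS (k : ℕ) : PT (initS k) := by
  have hN : PT (fun x => (nums x).2.reverse) := by
    have := pt_nums
    fun_prop
  have h1 : PT (fun x => (nums x).1) := by
    have := pt_nums
    fun_prop
  unfold initS
  refine PT.ite (c := fun x => ((nums x).1 == 0) && valid k (nums x).2.reverse) ?_ ?_ ?_
  · exact PT.and (by fun_prop) ((pt_valid k).comp hN)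
  · refine PT.pair hN (PT.pair ?_ (by fun_prop))
    have h2 : PT (fun N : List ℕ => (N.drop (2 + nOf N * mOf N)).map fun t => t == 1) :=
      PT.map (f := fun (_ : List ℕ) (t : ℕ) => t == 1) (by fun_prop) (by fun_prop)
    have h3 : PT (fun N : List ℕ => ((N, nOf N, List.replicate (nOf N) true,
        (N.drop (2 + nOf N * mOf N)).map fun t => t == 1) :
        List ℕ × ℕ × List Bool × List Bool)) := by
      refine PT.pair (by fun_prop) (PT.pair (by fun_prop) (PT.pair (by fun_prop) h2))
    have h4 := (pt_mkN.comp h3).comp hN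
    exact h4
  · fun_prop

theorem pt_outS : PT outS := by
  have h := PT.scases (l := fun s : Sta => s.2.1) (f := fun _ b => b) (g := fun _ _ => false)
    (by fun_prop) (by fun_prop) (by fun_prop)
  refine h.recode fun s _ => ?_
  obtain ⟨N, b | x, st⟩ := s <;> rfl

theorem map_flags (I : Inst) : (((numsOf I).drop (2 + I.n * I.m)).map fun t => t == 1) =
    cl I.P := by
  rw [drop_numsOf, List.map_map]
  unfold cl
  refine List.map_congr_left fun q _ => ?_
  by_cases h : q ∈ I.P <;> simp [h]

theorem replicate_cl (n : ℕ) : List.replicate n true = cl (Finset.univ : Finset (Fin n)) := by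
  apply List.ext_getElem
  · simp [length_cl]
  · intro i h1 h2
    simp [cl]

/-- what the evaluation computes -/
theorem eval_spec (k : ℕ) (x : List Bool) : ∃ (t : ℕ) (b : Bool),
    dstep^[t] (initS k x) = ((nums x).2.reverse, Sum.inl b, []) ∧
    (x ∈ ReachableSubset k ↔ b = true) ∧
    Inv (nums x).2.reverse (nOf (nums x).2.reverse * (nOf (nums x).2.reverse + 1)) (initS k x) := by
  by_cases hc : (((nums x).1 == 0) && valid k (nums x).2.reverse) = true
  · have hc' := hc
    rw [Bool.and_eq_true, beq_iff_eq] at hc'
    obtain ⟨h0, hv⟩ := hc'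
    obtain ⟨I, hI, hcard⟩ := exists_of_valid hv
    have hinit : initS k x = (numsOf I, mkN (numsOf I) I.n (cl (Finset.univ : Finset (Fin I.n))) (cl I.P), []) := by
      unfold initS
      rw [if_pos hc, ← hI]
      simp only [nOf_numsOf, mOf_numsOf]
      rw [map_flags, replicate_cl]
    have hok : OK (nOf (numsOf I)) (mkN (numsOf I) I.n (cl (Finset.univ : Finset (Fin I.n))) (cl I.P)) :=
      ok_mkN _ le_rfl (length_cl _) (length_cl _)
    obtain ⟨t, ht⟩ := dfs_reach (numsOf I) _ (mkN (numsOf I) I.n (cl (Finset.univ : Finset (Fin I.n))) (cl I.P)) []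
      hok le_rfl
    refine ⟨t, _, by rw [hinit, ht, hI], ?_, ?_⟩
    · rw [← hI, val_mkN, evG_iff, ← reach_short, mem_iff]
      constructor
      · rintro ⟨I', -, h1, -, h2⟩
        have : I' = I := by
          apply Inst.encode_injective
          rw [encode_eq, encode_eq, ← h1, hI]
        rw [← this]
        exact h2
      · intro h
        exact ⟨I, h0, hI.symm, hcard, h⟩
    · rw [hinit, ← hI]
      refine ⟨rfl, hok, ?_, trivial⟩
      have := dep_mkN (numsOf I) I.n (cl (Finset.univ : Finset (Fin I.n))) (cl I.P)
      simpa using this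
  · refine ⟨0, false, ?_, ?_, ?_⟩
    · simp only [Function.iterate_zero, id_eq]
      unfold initS
      rw [if_neg hc]
    · simp only [Bool.false_eq_true, iff_false]
      rw [mem_iff]
      rintro ⟨I, h1, h2, h3, -⟩
      apply hc
      rw [Bool.and_eq_true, beq_iff_eq]
      refine ⟨h1, ?_⟩
      rw [h2, ← h3]
      exact valid_numsOf I
    · unfold initS
      rw [if_neg hc]
      exact ⟨rfl, trivial, by simp [dep], trivial⟩

/-- **Membership**: REACHABLE SUBSET with a fixed subset size is in polynomial space. -/
theorem member (k : ℕ) : InPSPACE (ReachableSubset k) := by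
  refine pspace_of_iterate (init := initS k) (step := dstep) (run := drunning) (out := outS)
    (pt_initS k) pt_dstep pt_drunning pt_outS (ReachableSubset k)
    (fun x => stopT (initS k x)) ?_ ?_ ?_ ?_
  · intro x i hi
    obtain ⟨t, b, ht, -, -⟩ := eval_spec k x
    exact (stop_spec ht rfl).1 i hi
  · intro x
    obtain ⟨t, b, ht, -, -⟩ := eval_spec k x
    rw [(stop_spec ht rfl).2]
    rfl
  · intro x
    obtain ⟨t, b, ht, hb, -⟩ := eval_spec k x
    rw [(stop_spec ht rfl).2, hb]
    rfl
  · obtain ⟨c, hc⟩ := pt_nums.sz_le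
    -- the size of the list of numbers
    have hN : ∀ x, sz (nums x).2.reverse ≤ (4 * x.length + 3) ^ c := by
      intro x
      have h1 := hc x
      have h2 : (sz x + 2) ^ c ≤ (4 * x.length + 3) ^ c :=
        Nat.pow_le_pow_left (by have := sz_listBool_le x; omega) c
      have h3 : ∀ l : List ℕ, sz l.reverse = sz l := by
        intro l
        induction l with
        | nil => rfl
        | cons a l ih =>
          rw [List.reverse_cons, sz_lcons]
          have := sz_append l.reverse [a]
          rw [sz_lcons, sz_lnil] at this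
          omega
      rw [h3]
      have h4 : sz (nums x) = sz (nums x).1 + sz (nums x).2 + 1 := rfl
      omega
    have hn : ∀ N : List ℕ, nOf N ≤ sz N := by
      intro N
      cases N with
      | nil => simp [nOf]
      | cons a N =>
        show a ≤ _
        rw [sz_lcons, sz_nat]
        omega
    have hp : Poly (fun n => (4 * n + 3) ^ c + (16 * (4 * n + 3) ^ c + 20) +
        (((4 * n + 3) ^ c * ((4 * n + 3) ^ c + 1)) * (16 * (4 * n + 3) ^ c + 31) + 1) + 2) := by
      have h1 : Poly (fun n => (4 * n + 3) ^ c) :=
        (((Poly.const 4).mul Poly.id).add (Poly.const 3)).pow c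
      exact ((h1.add (((Poly.const 16).mul h1).add (Poly.const 20))).add
        (((h1.mul (h1.add (Poly.const 1))).mul
          (((Poly.const 16).mul h1).add (Poly.const 31))).add (Poly.const 1))).add (Poly.const 2)
    obtain ⟨e, he⟩ := hp
    refine ⟨e, fun x i _ => ?_⟩
    obtain ⟨t, b, ht, -, hinv⟩ := eval_spec k x
    have h1 := sz_inv_le (inv_iterate hinv i)
    refine h1.trans (le_trans ?_ (he x.length))
    have h2 := hN x
    have h3 := (hn (nums x).2.reverse).trans h2
    have h4 : nOf (nums x).2.reverse * (nOf (nums x).2.reverse + 1) ≤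
        (4 * x.length + 3) ^ c * ((4 * x.length + 3) ^ c + 1) :=
      Nat.mul_le_mul h3 (by omega)
    have h5 : nOf (nums x).2.reverse * (nOf (nums x).2.reverse + 1) *
        (16 * nOf (nums x).2.reverse + 31) ≤
        (4 * x.length + 3) ^ c * ((4 * x.length + 3) ^ c + 1) *
        (16 * (4 * x.length + 3) ^ c + 31) := Nat.mul_le_mul h4 (by omega)
    show _ ≤ (4 * x.length + 3) ^ c + (16 * (4 * x.length + 3) ^ c + 20) +
        (((4 * x.length + 3) ^ c * ((4 * x.length + 3) ^ c + 1)) *
          (16 * (4 * x.length + 3) ^ c + 31) + 1) + 2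
    omega

end Pool.Agent.Lib.MP_76b05e_lc
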