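import Pool.Agent.Lib.MP_76b05e_lc.DComp

/-!
Polynomial-time computable functions between encoded types.
-/

namespace Pool.Agent.Lib.MP_76b05e_lc

/-- bounded by a polynomial -/
def Poly (p : ℕ → ℕ) : Prop := ∃ k, ∀ n, p n ≤ (n + 2) ^ k

theorem Poly.mono {p q : ℕ → ℕ} (hq : Poly q) (h : ∀ n, p n ≤ q n) : Poly p := by
  obtain ⟨k, hk⟩ := hq
  exact ⟨k, fun n => (h n).trans (hk n)⟩

theorem Poly.const (c : ℕ) : Poly (fun _ => c) := by
  refine ⟨c, fun n => ?_⟩
  calc c ≤ 2 ^ c := Nat.lt_two_pow_self.le
    _ ≤ (n + 2) ^ c := Nat.pow_le_pow_left (by omega) c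

theorem Poly.id : Poly (fun n => n) := ⟨1, fun n => by simp⟩

theorem Poly.add {p q : ℕ → ℕ} (hp : Poly p) (hq : Poly q) : Poly (fun n => p n + q n) := by
  obtain ⟨k, hk⟩ := hp
  obtain ⟨l, hl⟩ := hq
  refine ⟨k + l + 1, fun n => ?_⟩
  have h1 : (n + 2) ^ k ≤ (n + 2) ^ (k + l) := Nat.pow_le_pow_right (by omega) (by omega)
  have h2 : (n + 2) ^ l ≤ (n + 2) ^ (k + l) := Nat.pow_le_pow_right (by omega) (by omega)
  have h3 : (n + 2) ^ (k + l + 1) = (n + 2) ^ (k + l) * (n + 2) := pow_succ _ _
  have h4 : (n + 2) ^ (k + l) * 2 ≤ (n + 2) ^ (k + l) * (n + 2) := Nat.mul_le_mul_left _ (by omega)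
  have := hk n
  have := hl n
  show p n + q n ≤ _
  omega

theorem Poly.mul {p q : ℕ → ℕ} (hp : Poly p) (hq : Poly q) : Poly (fun n => p n * q n) := by
  obtain ⟨k, hk⟩ := hp
  obtain ⟨l, hl⟩ := hq
  refine ⟨k + l, fun n => ?_⟩
  rw [pow_add]
  exact Nat.mul_le_mul (hk n) (hl n)

theorem Poly.pow {p : ℕ → ℕ} (hp : Poly p) (j : ℕ) : Poly (fun n => p n ^ j) := by
  obtain ⟨k, hk⟩ := hp
  refine ⟨k * j, fun n => ?_⟩
  rw [pow_mul]
  exact Nat.pow_le_pow_left (hk n) j

theorem Poly.comp {p q : ℕ → ℕ} (hp : Poly p) (hq : Poly q) : Poly (fun n => p (q n)) := by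
  obtain ⟨k, hk⟩ := hp
  exact ((hq.add (Poly.const 2)).pow k).mono fun n => hk _

theorem Poly.powk (k : ℕ) : Poly (fun n => (n + 2) ^ k) := ⟨k, fun _ => le_rfl⟩

/-- encoding of the elements of a type by trees -/
class DEnc (α : Type) where
  /-- the encoding -/
  enc : α → D

export DEnc (enc)

/-- size of the code of an object -/
def sz {α : Type} [DEnc α] (a : α) : ℕ := (enc a).size

instance : DEnc D := ⟨fun x => x⟩

instance : DEnc Unit := ⟨fun _ => .nil⟩

instance : DEnc Bool := ⟨fun b => cond b (.cons .nil .nil) .nil⟩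

/-- unary code of a number -/
def encNat : ℕ → D
  | 0 => .nil
  | n + 1 => .cons .nil (encNat n)

instance : DEnc ℕ := ⟨encNat⟩

instance (n : ℕ) : DEnc (Fin n) := ⟨fun i => encNat i.val⟩

instance {α β : Type} [DEnc α] [DEnc β] : DEnc (α × β) := ⟨fun x => .cons (enc x.1) (enc x.2)⟩

/-- code of a list -/
def encList {α : Type} [DEnc α] : List α → D
  | [] => .nil
  | a :: l => .cons (enc a) (encList l)

instance {α : Type} [DEnc α] : DEnc (List α) := ⟨encList⟩

instance {α : Type} [DEnc α] : DEnc (Option α) := ⟨fun x => match x with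
  | none => .nil
  | some a => .cons (enc a) .nil⟩

instance {α β : Type} [DEnc α] [DEnc β] : DEnc (α ⊕ β) := ⟨fun x => match x with
  | Sum.inl a => .cons .nil (enc a)
  | Sum.inr b => .cons (.cons .nil .nil) (enc b)⟩

section
variable {α β : Type} [DEnc α] [DEnc β]
@[simp] theorem enc_D (x : D) : enc x = x := rfl
@[simp] theorem enc_unit (x : Unit) : enc x = .nil := rfl
@[simp] theorem enc_true : enc true = .cons .nil .nil := rfl
@[simp] theorem enc_false : enc false = .nil := rfl
@[simp] theorem enc_zero : enc (0 : ℕ) = .nil := rfl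
@[simp] theorem enc_succ (n : ℕ) : enc (n + 1) = .cons .nil (enc n) := rfl
theorem enc_fin {n : ℕ} (i : Fin n) : enc i = enc i.val := rfl
@[simp] theorem enc_pair (a : α) (b : β) : enc (a, b) = .cons (enc a) (enc b) := rfl
@[simp] theorem enc_lnil : enc ([] : List α) = .nil := rfl
@[simp] theorem enc_lcons (a : α) (l : List α) : enc (a :: l) = .cons (enc a) (enc l) := rfl
@[simp] theorem enc_none : enc (none : Option α) = .nil := rfl
@[simp] theorem enc_some (a : α) : enc (some a) = .cons (enc a) .nil := rfl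
@[simp] theorem enc_inl (a : α) : enc (Sum.inl a : α ⊕ β) = .cons .nil (enc a) := rfl
@[simp] theorem enc_inr (b : β) : enc (Sum.inr b : α ⊕ β) = .cons (.cons .nil .nil) (enc b) := rfl
@[simp] theorem isCons_bool (b : Bool) : (enc b).isCons = b := by cases b <;> rfl
@[simp] theorem sz_zero : sz (0 : ℕ) = 1 := rfl
theorem sz_nat (n : ℕ) : sz n = 2 * n + 1 := by
  induction n with
  | zero => rfl
  | succ n ih =>
    unfold sz at *
    simp only [enc_succ, D.size_cons, D.size_nil]
    omega
theorem sz_pair (a : α) (b : β) : sz (a, b) = sz a + sz b + 1 := rfl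
theorem sz_lnil : sz ([] : List α) = 1 := rfl
theorem sz_lcons (a : α) (l : List α) : sz (a :: l) = sz a + sz l + 1 := rfl
theorem sz_bool_le (b : Bool) : sz b ≤ 3 := by cases b <;> decide
theorem sz_pos (a : α) : 1 ≤ sz a := D.size_pos _
theorem sz_append (l l' : List α) : sz (l ++ l') + 1 = sz l + sz l' := by
  induction l with
  | nil => simp [sz_lnil]; omega
  | cons a l ih => simp only [List.cons_append, sz_lcons]; omega
theorem length_le_sz (l : List α) : 2 * l.length + 1 ≤ sz l := by
  induction l with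
  | nil => simp [sz_lnil]
  | cons a l ih => have := sz_pos a; simp only [List.length_cons, sz_lcons]; omega
theorem sz_mem_le {l : List α} {a : α} (h : a ∈ l) : sz a ≤ sz l := by
  induction l with
  | nil => simp at h
  | cons b l ih =>
    simp only [sz_lcons]
    rcases List.mem_cons.1 h with rfl | h
    · omega
    · have := ih h; omega
end

/-- `f` is polynomial-time computable on the inputs satisfying `P` -/
def PTP {α β : Type} [DEnc α] [DEnc β] (P : α → Prop) (f : α → β) : Prop :=
  ∃ (F : Frag Unit) (k : ℕ), ∀ a, P a → Comp F (enc a) (enc (f a)) ((sz a + 2) ^ k)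

/-- polynomial-time computable functions -/
@[fun_prop]
def PT {α β : Type} [DEnc α] [DEnc β] (f : α → β) : Prop :=
  PTP (fun _ => True) f

section
variable {α β γ δ ε σ : Type} [DEnc α] [DEnc β] [DEnc γ] [DEnc δ] [DEnc ε] [DEnc σ]

theorem PTP.intro {P : α → Prop} {f : α → β} {F : Frag Unit} {p : ℕ → ℕ} (hp : Poly p)
    (h : ∀ a, P a → Comp F (enc a) (enc (f a)) (p (sz a))) : PTP P f := by
  obtain ⟨k, hk⟩ := hp
  exact ⟨F, k, fun a ha => (h a ha).mono (hk _)⟩

theorem PT.ptp {f : α → β} (h : PT f) (P : α → Prop) : PTP P f := by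
  obtain ⟨F, k, hF⟩ := h
  exact ⟨F, k, fun a _ => hF a trivial⟩

theorem PTP.imp {f : α → β} {P Q : α → Prop} (h : PTP Q f) (hPQ : ∀ a, P a → Q a) : PTP P f := by
  obtain ⟨F, k, hF⟩ := h
  exact ⟨F, k, fun a ha => hF a (hPQ a ha)⟩

/-- change the encoding of the value -/
theorem PTP.recode {P : α → Prop} {f : α → β} {g : α → γ} (h : PTP P f)
    (he : ∀ a, P a → enc (f a) = enc (g a)) : PTP P g := by
  obtain ⟨F, k, hF⟩ := h
  refine ⟨F, k, fun a ha => ?_⟩
  rw [← he a ha]
  exact hF a ha

theorem PTP.comp {P : α → Prop} {Q : β → Prop} {f : α → β} {g : β → γ} (hg : PTP Q g)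
    (hf : PTP P f) (h : ∀ a, P a → Q (f a)) : PTP P (fun a => g (f a)) := by
  obtain ⟨F, k, hF⟩ := hf
  obtain ⟨G, l, hG⟩ := hg
  refine PTP.intro (F := seq F G) (p := fun n => (n + 2) ^ k + (n + (n + 2) ^ k + 2) ^ l) ?_ ?_
  · exact (Poly.powk k).add (((Poly.id.add (Poly.powk k)).add (Poly.const 2)).pow l)
  · intro a ha
    have h1 := hF a ha
    have h2 := hG (f a) (h a ha)
    have h3 := h1.size_le
    refine h1.seq (h2.mono ?_)
    exact Nat.pow_le_pow_left (by unfold sz at *; omega) l

theorem PTP.pair {P : α → Prop} {f : α → β} {g : α → γ} (hf : PTP P f) (hg : PTP P g) :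
    PTP P (fun a => (f a, g a)) := by
  obtain ⟨F, k, hF⟩ := hf
  obtain ⟨G, l, hG⟩ := hg
  refine PTP.intro (F := pairF F G) (p := fun n => (n + 2) ^ k + (n + 2) ^ l + 12 * n
    + 11 * (n + (n + 2) ^ k) + 11) ?_ ?_
  · exact ((((Poly.powk k).add (Poly.powk l)).add ((Poly.const 12).mul Poly.id)).add
      ((Poly.const 11).mul (Poly.id.add (Poly.powk k)))).add (Poly.const 11)
  · intro a ha
    have h1 := hF a ha
    have h2 := hG a ha
    have h3 := h1.size_le
    refine (h1.pair h2).mono ?_
    unfold sz at *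
    omega

theorem PTP.ite {P : α → Prop} {c : α → Bool} {f g : α → β} (hc : PTP P c)
    (hf : PTP (fun a => P a ∧ c a = true) f) (hg : PTP (fun a => P a ∧ c a = false) g) :
    PTP P (fun a => if c a then f a else g a) := by
  obtain ⟨C, j, hC⟩ := hc
  obtain ⟨F, k, hF⟩ := hf
  obtain ⟨G, l, hG⟩ := hg
  refine PTP.intro (F := iteF C F G) (p := fun n => 2 * (n + 2) ^ j +
    ((n + 2) ^ k + (n + 2) ^ l) + 13 * n + 8) ?_ ?_
  · exact ((((Poly.const 2).mul (Poly.powk j)).add ((Poly.powk k).add (Poly.powk l))).add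
      ((Poly.const 13).mul Poly.id)).add (Poly.const 8)
  · intro a ha
    have h1 := hC a ha
    refine Comp.ite h1 ?_
    rw [isCons_bool]
    cases h : c a with
    | true =>
      simp only [if_true]
      exact (hF a ⟨ha, h⟩).mono (by omega)
    | false =>
      simp only [Bool.false_eq_true, if_false]
      exact (hG a ⟨ha, h⟩).mono (by omega)

theorem PTP.of_enc {P : α → Prop} {f : α → D} {g : α → β} (h : PTP P f)
    (he : ∀ a, P a → f a = enc (g a)) : PTP P g := h.recode he

@[fun_prop]
theorem PT.id : PT (fun a : α => a) :=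
  PTP.intro (Poly.const 0) (F := ret ()) fun _ _ => Comp.id _

@[fun_prop]
theorem PT.const (b : β) : PT (fun _ : α => b) :=
  PTP.intro (F := constF (enc b)) (p := fun n => n + (enc b).size + 1)
    ((Poly.id.add (Poly.const _)).add (Poly.const 1)) fun a _ => Comp.const _ _

@[fun_prop]
theorem PT.comp {g : β → γ} {f : α → β} (hg : PT g) (hf : PT f) : PT (fun a => g (f a)) :=
  PTP.comp hg hf fun _ _ => trivial

@[fun_prop]
theorem PT.pair {f : α → β} {g : α → γ} (hf : PT f) (hg : PT g) : PT (fun a => (f a, g a)) :=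
  PTP.pair hf hg

theorem PT.enc : PT (fun a : α => (DEnc.enc a : D)) := (PT.id (α := α)).recode fun _ _ => rfl

theorem PT.hd : PT D.hd :=
  PTP.intro (F := hdF) (p := fun n => 8 * n + 5)
    (((Poly.const 8).mul Poly.id).add (Poly.const 5)) fun a _ => Comp.hd a

theorem PT.tl : PT D.tl :=
  PTP.intro (F := tlF) (p := fun n => 8 * n + 5)
    (((Poly.const 8).mul Poly.id).add (Poly.const 5)) fun a _ => Comp.tl a

@[fun_prop]
theorem PT.fst : PT (fun x : α × β => x.1) :=
  PTP.of_enc (PT.hd.comp PT.enc) fun _ _ => rfl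

@[fun_prop]
theorem PT.snd : PT (fun x : α × β => x.2) :=
  PTP.of_enc (PT.tl.comp PT.enc) fun _ _ => rfl

@[fun_prop]
theorem PT.ite {c : α → Bool} {f g : α → β} (hc : PT c) (hf : PT f) (hg : PT g) :
    PT (fun a => if c a then f a else g a) :=
  PTP.ite hc (hf.ptp _) (hg.ptp _)

@[fun_prop]
theorem PT.cond {c : α → Bool} {f g : α → β} (hc : PT c) (hf : PT f) (hg : PT g) :
    PT (fun a => cond (c a) (f a) (g a)) :=
  (PT.ite hc hf hg).recode fun a _ => by cases c a <;> rfl

@[fun_prop]
theorem PT.decideIte {c : α → Prop} [∀ a, Decidable (c a)] {f g : α → β}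
    (hc : PT (fun a => decide (c a))) (hf : PT f) (hg : PT g) :
    PT (fun a => if c a then f a else g a) :=
  (PT.ite hc hf hg).recode fun a _ => by by_cases h : c a <;> simp [h]

/-- is the tree an inner node -/
theorem PT.isCons : PT D.isCons := by
  have h : PT (fun x : D => x) := PT.id
  obtain ⟨F, k, hF⟩ := h
  refine PTP.intro (F := iteF F (constF (DEnc.enc true)) (constF (DEnc.enc false)))
    (p := fun n => 2 * (n + 2) ^ k + (n + 4) + 13 * n + 8) ?_ ?_
  · exact ((((Poly.const 2).mul (Poly.powk k)).add (Poly.id.add (Poly.const 4))).add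
      ((Poly.const 13).mul Poly.id)).add (Poly.const 8)
  · intro a _
    refine Comp.ite (hF a trivial) ?_
    cases a with
    | nil => exact (Comp.const _ _).mono (by simp [sz])
    | cons a b =>
      exact (Comp.const _ _).mono (by simp [sz])

@[fun_prop]
theorem PT.not {f : α → Bool} (hf : PT f) : PT (fun a => !(f a)) :=
  (PT.ite hf (PT.const false) (PT.const true)).recode fun a _ => by cases f a <;> rfl

@[fun_prop]
theorem PT.and {f g : α → Bool} (hf : PT f) (hg : PT g) : PT (fun a => f a && g a) :=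
  (PT.ite hf hg (PT.const false)).recode fun a _ => by cases f a <;> rfl

@[fun_prop]
theorem PT.or {f g : α → Bool} (hf : PT f) (hg : PT g) : PT (fun a => f a || g a) :=
  (PT.ite hf (PT.const true) hg).recode fun a _ => by cases f a <;> rfl

/-! ### lists -/

@[fun_prop]
theorem PT.isEmpty {l : α → List β} (hl : PT l) : PT (fun a => (l a).isEmpty) :=
  ((PT.isCons.comp (PT.enc.comp hl)).not).recode fun a _ => by cases l a <;> rfl

@[fun_prop]
theorem PT.lcons {f : α → β} {l : α → List β} (hf : PT f) (hl : PT l) :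
    PT (fun a => f a :: l a) :=
  (PT.pair hf hl).recode fun _ _ => rfl

@[fun_prop]
theorem PT.ltail {l : α → List β} (hl : PT l) : PT (fun a => (l a).tail) :=
  PTP.of_enc (PT.tl.comp (PT.enc.comp hl)) fun a _ => by cases l a <;> rfl

/-- case distinction on a list -/
theorem PT.lcases {l : α → List β} {f : α → γ} {g : α → β → List β → γ} (hl : PT l) (hf : PT f)
    (hg : PT (fun x : α × β × List β => g x.1 x.2.1 x.2.2)) :
    PT (fun a => match l a with
      | [] => f a
      | b :: t => g a b t) := by
  rcases isEmpty_or_nonempty β with hβ | ⟨⟨b₀⟩⟩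
  · refine hf.recode fun a _ => ?_
    cases l a with
    | nil => rfl
    | cons b t => exact (hβ.false b).elim
  · have h1 : PTP (fun a => True ∧ (!(l a).isEmpty) = true)
        (fun a => (a, (l a).head?.getD b₀, (l a).tail)) := by
      refine PTP.pair (PT.id.ptp _) (PTP.pair ?_ ((PT.ltail hl).ptp _))
      refine PTP.of_enc ((PT.hd.comp (PT.enc.comp hl)).ptp _) ?_
      rintro a ⟨-, ha⟩
      cases h : l a with
      | nil => simp [h] at ha
      | cons b t => rfl
    have h2 := PTP.comp (P := fun a => True ∧ (!(l a).isEmpty) = true) hg h1 (fun _ _ => trivial)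
    refine (PTP.ite (P := fun _ => True) (c := fun a => !(l a).isEmpty) (hl.isEmpty.not) h2
      (hf.ptp _)).recode ?_
    intro a _
    cases h : l a <;> simp

/-- case distinction on a number -/
theorem PT.ncases {n : α → ℕ} {f : α → γ} {g : α → ℕ → γ} (hn : PT n) (hf : PT f)
    (hg : PT (fun x : α × ℕ => g x.1 x.2)) :
    PT (fun a => match n a with
      | 0 => f a
      | m + 1 => g a m) := by
  have hc : PT (fun a => (DEnc.enc (n a) : D).isCons) := PT.isCons.comp (PT.enc.comp hn)
  have h1 : PTP (fun a => True ∧ (DEnc.enc (n a) : D).isCons = true)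
      (fun a => (a, n a - 1)) := by
    refine PTP.pair (PT.id.ptp _) ?_
    refine PTP.of_enc ((PT.tl.comp (PT.enc.comp hn)).ptp _) ?_
    rintro a ⟨-, ha⟩
    cases h : n a with
    | zero => simp [h] at ha
    | succ m => rfl
  have h2 := PTP.comp (P := fun a => True ∧ (DEnc.enc (n a) : D).isCons = true) hg h1
    (fun _ _ => trivial)
  refine (PTP.ite (P := fun _ => True) (c := fun a => (DEnc.enc (n a) : D).isCons) hc h2
      (hf.ptp _)).recode ?_
  intro a _
  cases h : n a <;> simp

/-- case distinction on an optional value -/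
theorem PT.ocases {l : α → Option β} {f : α → γ} {g : α → β → γ} (hl : PT l) (hf : PT f)
    (hg : PT (fun x : α × β => g x.1 x.2)) :
    PT (fun a => match l a with
      | none => f a
      | some b => g a b) := by
  have hl' : PT (fun a => (l a).toList) := hl.recode fun a _ => by cases l a <;> rfl
  have hg' : PT (fun x : α × β × List β => g x.1 x.2.1) := by
    have : PT (fun x : α × β × List β => ((x.1, x.2.1) : α × β)) := by fun_prop
    exact hg.comp this
  refine (PT.lcases (g := fun a b _ => g a b) hl' hf hg').recode fun a _ => ?_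
  cases l a <;> rfl

@[fun_prop]
theorem PT.some {f : α → β} (hf : PT f) : PT (fun a => Option.some (f a)) :=
  (PT.pair hf (PT.const D.nil)).recode fun _ _ => rfl

@[fun_prop]
theorem PT.inl {f : α → β} (hf : PT f) : PT (fun a => (Sum.inl (f a) : β ⊕ γ)) :=
  (PT.pair (PT.const D.nil) hf).recode fun _ _ => rfl

@[fun_prop]
theorem PT.inr {f : α → β} (hf : PT f) : PT (fun a => (Sum.inr (f a) : γ ⊕ β)) :=
  (PT.pair (PT.const (D.cons D.nil D.nil)) hf).recode fun _ _ => rfl

/-- case distinction on a sum -/
theorem PT.scases {l : α → β ⊕ δ} {f : α → β → γ} {g : α → δ → γ} (hl : PT l)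
    (hf : PT (fun x : α × β => f x.1 x.2)) (hg : PT (fun x : α × δ => g x.1 x.2)) :
    PT (fun a => match l a with
      | Sum.inl b => f a b
      | Sum.inr d => g a d) := by
  classical
  have hc : PT (fun a => (DEnc.enc (l a) : D).hd.isCons) :=
    PT.isCons.comp (PT.hd.comp (PT.enc.comp hl))
  have hr : PTP (fun a => (DEnc.enc (l a) : D).hd.isCons = true)
      (fun a => match l a with
      | Sum.inl b => f a b
      | Sum.inr d => g a d) := by
    by_cases hδ : Nonempty δ
    · obtain ⟨d₀⟩ := hδ
      have h1 : PTP (fun a => (DEnc.enc (l a) : D).hd.isCons = true)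
          (fun a => (a, (l a).getRight?.getD d₀)) := by
        refine PTP.pair (PT.id.ptp _) ?_
        refine PTP.of_enc ((PT.tl.comp (PT.enc.comp hl)).ptp _) ?_
        intro a ha
        cases h : l a with
        | inl b => simp [h] at ha
        | inr d => rfl
      refine (PTP.comp (P := fun a => (DEnc.enc (l a) : D).hd.isCons = true) hg h1
        (fun _ _ => trivial)).recode ?_
      intro a ha
      cases h : l a with
      | inl b => simp [h] at ha
      | inr d => rfl
    · refine ⟨ret (), 0, fun a ha => ?_⟩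
      cases h : l a with
      | inl b => simp [h] at ha
      | inr d => exact absurd ⟨d⟩ hδ
  have hl2 : PTP (fun a => (DEnc.enc (l a) : D).hd.isCons = false)
      (fun a => match l a with
      | Sum.inl b => f a b
      | Sum.inr d => g a d) := by
    by_cases hβ : Nonempty β
    · obtain ⟨b₀⟩ := hβ
      have h1 : PTP (fun a => (DEnc.enc (l a) : D).hd.isCons = false)
          (fun a => (a, (l a).getLeft?.getD b₀)) := by
        refine PTP.pair (PT.id.ptp _) ?_
        refine PTP.of_enc ((PT.tl.comp (PT.enc.comp hl)).ptp _) ?_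
        intro a ha
        cases h : l a with
        | inl b => rfl
        | inr d => simp [h] at ha
      refine (PTP.comp (P := fun a => (DEnc.enc (l a) : D).hd.isCons = false) hf h1
        (fun _ _ => trivial)).recode ?_
      intro a ha
      cases h : l a with
      | inl b => rfl
      | inr d => simp [h] at ha
    · refine ⟨ret (), 0, fun a ha => ?_⟩
      cases h : l a with
      | inl b => exact absurd ⟨b⟩ hβ
      | inr d => simp [h] at ha
  refine (PTP.ite (P := fun _ => True) hc (hr.imp fun a h => h.2) (hl2.imp fun a h => h.2)).recode ?_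
  intro a _
  simp

/-! ### while loops and folds -/

/-- the loop rule -/
theorem PT.while {c : σ → Bool} {step : σ → σ} {init : ε → σ} {N : ε → ℕ} (hc : PT c)
    (hs : PT step) (hi : PT init) (hN : ∃ k, ∀ e, N e ≤ (sz e + 2) ^ k)
    (hB : ∃ k, ∀ e, ∀ i ≤ N e, sz (step^[i] (init e)) ≤ (sz e + 2) ^ k)
    (h1 : ∀ e, ∀ i < N e, c (step^[i] (init e)) = true)
    (h2 : ∀ e, c (step^[N e] (init e)) = false) :
    PT (fun e => step^[N e] (init e)) := by
  obtain ⟨C, j, hC⟩ := hc
  obtain ⟨F, k, hF⟩ := hs
  obtain ⟨I, l, hI⟩ := hi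
  obtain ⟨a, ha⟩ := hN
  obtain ⟨b, hb⟩ := hB
  -- time of one round on a state of size at most `B`
  let r : ℕ → ℕ := fun B => 2 * (B + 2) ^ j + (B + 2) ^ k + 13 * B + 8
  have hr : Poly r := ((((Poly.const 2).mul (Poly.powk j)).add (Poly.powk k)).add
    ((Poly.const 13).mul Poly.id)).add (Poly.const 8)
  have hrm : Monotone r := by
    intro x y hxy
    have h1 : (x + 2) ^ j ≤ (y + 2) ^ j := Nat.pow_le_pow_left (by omega) _
    have h2 : (x + 2) ^ k ≤ (y + 2) ^ k := Nat.pow_le_pow_left (by omega) _
    simp only [r]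
    omega
  refine PTP.intro (F := seq I (whileF C F))
    (p := fun n => (n + 2) ^ l + (((n + 2) ^ a + 1) * r ((n + 2) ^ b))) ?_ ?_
  · exact (Poly.powk l).add (((Poly.powk a).add (Poly.const 1)).mul (hr.comp (Poly.powk b)))
  · intro e _
    refine Comp.seq (hI e trivial) ?_
    have key : ∀ m i, i + m = N e → Comp (whileF C F) (DEnc.enc (step^[i] (init e)))
        (DEnc.enc (step^[N e] (init e))) ((m + 1) * r ((sz e + 2) ^ b)) := by
      intro m
      induction m with
      | zero =>
        intro i hi s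
        have hi' : i = N e := by omega
        subst hi'
        have hc1 := hC (step^[N e] (init e)) trivial
        have hst := whileF_stop (F := F) hc1 (by rw [isCons_bool]; exact h2 e) s
        refine hst.mono ?_
        have hbb := hrm (hb e (N e) le_rfl)
        simp only [r, sz, one_mul, zero_add] at hbb ⊢
        omega
      | succ m ih =>
        intro i hi s
        have hnext := ih (i + 1) (by omega) s
        rw [Function.iterate_succ_apply'] at hnext
        have hc1 := hC (step^[i] (init e)) trivial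
        have hf1 := hF (step^[i] (init e)) trivial
        have hst := whileF_step hc1 (by rw [isCons_bool]; exact h1 e i (by omega)) hf1 s hnext
        refine hst.mono ?_
        have hbb := hrm (hb e i (by omega))
        have : (m + 1 + 1) * r ((sz e + 2) ^ b) = (m + 1) * r ((sz e + 2) ^ b) +
          r ((sz e + 2) ^ b) := by ring
        rw [this]
        simp only [r, sz] at hbb ⊢
        omega
    have h0 := key (N e) 0 (by omega)
    simp only [Function.iterate_zero, id_eq] at h0
    refine h0.mono ?_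
    exact Nat.mul_le_mul_right _ (by have := ha e; omega)

theorem PT.sz_le {f : α → β} (hf : PT f) : ∃ k, ∀ a, sz (f a) ≤ (sz a + 2) ^ k := by
  obtain ⟨F, k, hF⟩ := hf
  obtain ⟨m, hm⟩ := Poly.id.add (Poly.powk k)
  refine ⟨m, fun a => ?_⟩
  have h1 := (hF a trivial).size_le
  have h2 : sz a + (sz a + 2) ^ k ≤ (sz a + 2) ^ m := hm (sz a)
  unfold sz at *
  omega

/-- folding a list from the left, general size bound -/
theorem PT.foldl_gen {f : ε → σ → α → σ} {l : ε → List α} {s₀ : ε → σ}
    (hf : PT (fun x : ε × σ × α => f x.1 x.2.1 x.2.2)) (hl : PT l) (hs : PT s₀)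
    (hb : ∃ k, ∀ e i, sz (((l e).take i).foldl (f e) (s₀ e)) ≤ (sz e + 2) ^ k) :
    PT (fun e => (l e).foldl (f e) (s₀ e)) := by
  let step : (List α × ε × σ) → (List α × ε × σ) := fun x => match x.1 with
    | [] => x
    | a :: t => (t, x.2.1, f x.2.1 x.2.2 a)
  have hstep : PT step := by
    have h : PT (fun x : (List α × ε × σ) × α × List α =>
        ((x.2.2, x.1.2.1, f x.1.2.1 x.1.2.2 x.2.1) : List α × ε × σ)) := by
      have : PT (fun x : (List α × ε × σ) × α × List α => f x.1.2.1 x.1.2.2 x.2.1) := by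
        have h2 : PT (fun x : (List α × ε × σ) × α × List α => ((x.1.2.1, x.1.2.2, x.2.1) :
          ε × σ × α)) := by fun_prop
        exact hf.comp h2
      fun_prop
    exact PT.lcases (g := fun x a t => (t, x.2.1, f x.2.1 x.2.2 a)) PT.fst PT.id h
  have hinit : PT (fun e => ((l e, e, s₀ e) : List α × ε × σ)) := by fun_prop
  have hiter : ∀ (m : ℕ) (e : ε), m ≤ (l e).length → step^[m] (l e, e, s₀ e) =
      ((l e).drop m, e, ((l e).take m).foldl (f e) (s₀ e)) := by
    intro m
    induction m with
    | zero => intro e _; simp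
    | succ m ih =>
      intro e hm
      rw [Function.iterate_succ_apply', ih e (by omega)]
      have hlt : m < (l e).length := by omega
      simp only [step]
      rw [List.drop_eq_getElem_cons hlt]
      simp only [List.take_add_one, List.getElem?_eq_getElem hlt, Option.toList_some,
        List.foldl_append, List.foldl_cons, List.foldl_nil]
  obtain ⟨kl, hkl⟩ := hl.sz_le
  obtain ⟨kb, hkb⟩ := hb
  have hw := PT.while (c := fun x : List α × ε × σ => !x.1.isEmpty) (step := step)
    (init := fun e => (l e, e, s₀ e)) (N := fun e => (l e).length) (by fun_prop) hstep hinit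
    ⟨kl, fun e => by have := length_le_sz (l e); have := hkl e; omega⟩ ?_ ?_ ?_
  · have h3 : PT (fun e => (step^[(l e).length] (l e, e, s₀ e)).2.2) := by fun_prop
    refine h3.recode fun e _ => ?_
    rw [hiter _ _ le_rfl]
    simp
  · obtain ⟨m, hm⟩ := ((Poly.powk kl).add (Poly.id)).add ((Poly.powk kb).add (Poly.const 2))
    refine ⟨m, fun e i hi => ?_⟩
    rw [hiter i e hi]
    simp only [sz_pair]
    have h1 := hkl e
    have h2 := hkb e i
    have h3 : sz ((l e).drop i) ≤ sz (l e) := by
      have := sz_append ((l e).take i) ((l e).drop i)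
      rw [List.take_append_drop] at this
      have := sz_pos ((l e).take i)
      omega
    have := hm (sz e)
    simp only at this
    omega
  · intro e i hi
    rw [hiter i e hi.le]
    simp [hi]
  · intro e
    rw [hiter _ e le_rfl]
    simp

/-- folding a list from the left, when every step increases the size by a bounded amount -/
theorem PT.foldl {f : ε → σ → α → σ} {l : ε → List α} {s₀ : ε → σ}
    (hf : PT (fun x : ε × σ × α => f x.1 x.2.1 x.2.2)) (hl : PT l) (hs : PT s₀)
    (hb : ∃ k, ∀ e s, ∀ a ∈ l e, sz (f e s a) ≤ sz s + (sz e + 2) ^ k) :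
    PT (fun e => (l e).foldl (f e) (s₀ e)) := by
  obtain ⟨kl, hkl⟩ := hl.sz_le
  obtain ⟨ks, hks⟩ := hs.sz_le
  obtain ⟨kb, hkb⟩ := hb
  obtain ⟨m, hm⟩ := (Poly.powk ks).add ((Poly.powk kl).mul (Poly.powk kb))
  refine PT.foldl_gen hf hl hs ⟨m, fun e i => ?_⟩
  have key : ∀ (l' : List α) (s : σ), (∀ a ∈ l', a ∈ l e) →
      sz (l'.foldl (f e) s) ≤ sz s + l'.length * (sz e + 2) ^ kb := by
    intro l'
    induction l' with
    | nil => intro s _; simp
    | cons a l' ih =>
      intro s hmem
      have h1 := ih (f e s a) (fun b hb => hmem b (List.mem_cons_of_mem _ hb))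
      have h2 := hkb e s a (hmem a List.mem_cons_self)
      simp only [List.foldl_cons, List.length_cons]
      have : (l'.length + 1) * (sz e + 2) ^ kb = l'.length * (sz e + 2) ^ kb + (sz e + 2) ^ kb := by
        ring
      omega
  have h1 := key ((l e).take i) (s₀ e) (fun a ha => List.mem_of_mem_take ha)
  have h2 := hks e
  have h3 : ((l e).take i).length ≤ (sz e + 2) ^ kl := by
    have := length_le_sz (l e)
    have := hkl e
    simp only [List.length_take]
    omega
  have h4 : ((l e).take i).length * (sz e + 2) ^ kb ≤ (sz e + 2) ^ kl * (sz e + 2) ^ kb :=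
    Nat.mul_le_mul_right _ h3
  have := hm (sz e)
  simp only at this
  omega

end

end Pool.Agent.Lib.MP_76b05e_lc
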