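import Pool.Agent.Lib.MP_76b05e_lc.PT

/-!
Polynomial-time computability of the basic functions on numbers and lists.
-/

namespace Pool.Agent.Lib.MP_76b05e_lc

section
variable {α β γ δ ε σ : Type} [DEnc α] [DEnc β] [DEnc γ] [DEnc δ] [DEnc ε] [DEnc σ]

/-! ### numbers -/

@[fun_prop]
theorem PT.succ {n : α → ℕ} (hn : PT n) : PT (fun a => n a + 1) :=
  (PT.pair (PT.const D.nil) hn).recode fun _ _ => rfl

@[fun_prop]
theorem PT.pred {n : α → ℕ} (hn : PT n) : PT (fun a => n a - 1) :=
  PTP.of_enc (PT.tl.comp (PT.enc.comp hn)) fun a _ => by cases n a <;> rfl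

theorem enc_replicate_unit (n : ℕ) : DEnc.enc (List.replicate n ()) = DEnc.enc n := by
  induction n with
  | zero => rfl
  | succ n ih => simp [List.replicate_succ, ih]

@[fun_prop]
theorem PT.units {n : α → ℕ} (hn : PT n) : PT (fun a => List.replicate (n a) ()) :=
  hn.recode fun a _ => (enc_replicate_unit (n a)).symm

theorem one_le_pow' (n k : ℕ) : 1 ≤ (n + 2) ^ k := Nat.one_le_pow _ _ (by omega)

theorem le_pow_one (n : ℕ) : n + 2 ≤ (n + 2) ^ 1 := by simp

@[fun_prop]
theorem PT.length {l : α → List β} (hl : PT l) : PT (fun a => (l a).length) := by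
  have h := PT.foldl (f := fun (_ : α) (s : ℕ) (_ : β) => s + 1) (l := l) (s₀ := fun _ => 0)
    (by fun_prop) hl (by fun_prop) ⟨1, fun e s a _ => by
      simp only [sz_nat]
      have := le_pow_one (sz e)
      omega⟩
  refine h.recode fun a _ => ?_
  congr 1
  induction l a using List.reverseRecOn with
  | nil => rfl
  | append_singleton l b ih => simp [ih]

@[fun_prop]
theorem PT.add {m n : α → ℕ} (hm : PT m) (hn : PT n) : PT (fun a => m a + n a) := by
  have h := PT.foldl (f := fun (_ : α) (s : ℕ) (_ : Unit) => s + 1)
    (l := fun a => List.replicate (n a) ()) (s₀ := m)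
    (by fun_prop) (by fun_prop) hm ⟨1, fun e s a _ => by
      simp only [sz_nat]
      have := le_pow_one (sz e)
      omega⟩
  refine h.recode fun a _ => ?_
  congr 1
  generalize n a = k
  induction k with
  | zero => rfl
  | succ k ih => rw [List.replicate_succ', List.foldl_append, ih]; rfl

@[fun_prop]
theorem PT.mul {m n : α → ℕ} (hm : PT m) (hn : PT n) : PT (fun a => m a * n a) := by
  obtain ⟨k, hk⟩ := hm.sz_le
  have h := PT.foldl (f := fun (a : α) (s : ℕ) (_ : Unit) => s + m a)
    (l := fun a => List.replicate (n a) ()) (s₀ := fun _ => 0)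
    (by fun_prop) (by fun_prop) (by fun_prop) ⟨k, fun e s a _ => by
      have := hk e
      simp only [sz_nat] at *
      omega⟩
  refine h.recode fun a _ => ?_
  congr 1
  generalize n a = k
  induction k with
  | zero => rfl
  | succ k ih => rw [List.replicate_succ', List.foldl_append, ih]; simp [Nat.mul_succ]

@[fun_prop]
theorem PT.pow {m : α → ℕ} (hm : PT m) (k : ℕ) : PT (fun a => m a ^ k) := by
  induction k with
  | zero => simp only [pow_zero]; exact PT.const 1
  | succ k ih => simpa only [pow_succ] using ih.mul hm

@[fun_prop]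
theorem PT.sub {m n : α → ℕ} (hm : PT m) (hn : PT n) : PT (fun a => m a - n a) := by
  have h := PT.foldl (f := fun (_ : α) (s : ℕ) (_ : Unit) => s - 1)
    (l := fun a => List.replicate (n a) ()) (s₀ := m)
    (by fun_prop) (by fun_prop) hm ⟨1, fun e s a _ => by
      simp only [sz_nat]
      omega⟩
  refine h.recode fun a _ => ?_
  congr 1
  generalize n a = k
  induction k with
  | zero => rfl
  | succ k ih => rw [List.replicate_succ', List.foldl_append, ih]; simp; omega

theorem PT.isZero {n : α → ℕ} (hn : PT n) : PT (fun a => decide (n a = 0)) := by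
  refine (PT.not (PT.isCons.comp (PT.enc.comp hn))).recode fun a _ => ?_
  cases n a <;> rfl

@[fun_prop]
theorem PT.natLe {m n : α → ℕ} (hm : PT m) (hn : PT n) : PT (fun a => decide (m a ≤ n a)) := by
  refine (PT.isZero (hm.sub hn)).recode fun a _ => ?_
  congr 1
  simp [Nat.sub_eq_zero_iff_le]

@[fun_prop]
theorem PT.natLt {m n : α → ℕ} (hm : PT m) (hn : PT n) : PT (fun a => decide (m a < n a)) :=
  (PT.natLe hm.succ hn).recode fun a _ => rfl

@[fun_prop]
theorem PT.natEq {m n : α → ℕ} (hm : PT m) (hn : PT n) : PT (fun a => decide (m a = n a)) := by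
  refine ((PT.natLe hm hn).and (PT.natLe hn hm)).recode fun a _ => ?_
  congr 1
  rw [← Bool.decide_and]
  exact decide_eq_decide.2 ⟨fun h => by omega, fun h => by omega⟩

@[fun_prop]
theorem PT.natBEq {m n : α → ℕ} (hm : PT m) (hn : PT n) : PT (fun a => m a == n a) :=
  (PT.natEq hm hn).recode fun a _ => by congr 1

/-! ### lists -/

@[fun_prop]
theorem PT.reverse {l : α → List β} (hl : PT l) : PT (fun a => (l a).reverse) := by
  obtain ⟨k, hk⟩ := hl.sz_le
  have h := PT.foldl (f := fun (_ : α) (s : List β) (b : β) => b :: s) (l := l)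
    (s₀ := fun _ => []) (by fun_prop) hl (by fun_prop) ⟨k + 1, fun e s a ha => by
      rw [sz_lcons]
      have h1 := sz_mem_le ha
      have h2 := hk e
      have h3 : (sz e + 2) ^ (k + 1) = (sz e + 2) ^ k * (sz e + 2) := pow_succ _ _
      have h4 : (sz e + 2) ^ k * 2 ≤ (sz e + 2) ^ k * (sz e + 2) :=
        Nat.mul_le_mul_left _ (by omega)
      have h5 := one_le_pow' (sz e) k
      omega⟩
  refine h.recode fun a _ => ?_
  congr 1
  generalize l a = l
  suffices ∀ s : List β, l.foldl (fun s b => b :: s) s = l.reverse ++ s by simpa using this []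
  induction l with
  | nil => simp
  | cons b l ih => intro s; simp [ih]

/-- the workhorse: pushing the values of a function onto a list -/
theorem PT.mapRev {f : α → β → γ} {l : α → List β} {s₀ : α → List γ}
    (hf : PT (fun x : α × β => f x.1 x.2)) (hl : PT l) (hs : PT s₀) :
    PT (fun a => (l a).foldl (fun s b => f a b :: s) (s₀ a)) := by
  obtain ⟨k, hk⟩ := hl.sz_le
  obtain ⟨j, hj⟩ := hf.sz_le
  have hp : Poly (fun n => (n + (n + 2) ^ k + 1 + 2) ^ j + 1) :=
    ((((Poly.id.add (Poly.powk k)).add (Poly.const 1)).add (Poly.const 2)).pow j).add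
      (Poly.const 1)
  obtain ⟨m, hm⟩ := hp
  refine PT.foldl (f := fun (a : α) (s : List γ) (b : β) => f a b :: s) ?_ hl hs
    ⟨m, fun e s b hb => ?_⟩
  · have : PT (fun x : α × List γ × β => f x.1 x.2.2) := by
      have h2 : PT (fun x : α × List γ × β => ((x.1, x.2.2) : α × β)) := by fun_prop
      exact hf.comp h2
    fun_prop
  · rw [sz_lcons]
    have h1 : sz (f e b) ≤ (sz (e, b) + 2) ^ j := hj (e, b)
    have h2 := sz_mem_le hb
    have h3 := hk e
    have h4 : (sz (e, b) + 2) ^ j ≤ (sz e + (sz e + 2) ^ k + 1 + 2) ^ j :=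
      Nat.pow_le_pow_left (by rw [sz_pair]; omega) j
    have h5 : (sz e + (sz e + 2) ^ k + 1 + 2) ^ j + 1 ≤ (sz e + 2) ^ m := hm (sz e)
    omega

theorem PT.map {f : α → β → γ} {l : α → List β}
    (hf : PT (fun x : α × β => f x.1 x.2)) (hl : PT l) :
    PT (fun a => (l a).map (f a)) := by
  refine (PT.mapRev (s₀ := fun _ => []) hf hl (by fun_prop)).reverse.recode fun a _ => ?_
  congr 1
  generalize l a = l
  suffices ∀ s : List γ, l.foldl (fun s b => f a b :: s) s = (l.map (f a)).reverse ++ s by
    simp [this]
  induction l with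
  | nil => simp
  | cons b l ih => intro s; simp [ih]

@[fun_prop]
theorem PT.append {l l' : α → List β} (hl : PT l) (hl' : PT l') :
    PT (fun a => l a ++ l' a) := by
  refine (PT.mapRev (f := fun (_ : α) (b : β) => b) (l := fun a => (l a).reverse) (s₀ := l')
    (by fun_prop) (by fun_prop) hl').recode fun a _ => ?_
  congr 1
  generalize l' a = l'
  induction l a using List.reverseRecOn generalizing l' with
  | nil => simp
  | append_singleton l b ih => simp [ih]

theorem PT.flatMap {f : α → β → List γ} {l : α → List β}
    (hf : PT (fun x : α × β => f x.1 x.2)) (hl : PT l) :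
    PT (fun a => (l a).flatMap (f a)) := by
  obtain ⟨k, hk⟩ := hl.sz_le
  obtain ⟨j, hj⟩ := hf.sz_le
  have hp : Poly (fun n => (n + (n + 2) ^ k + 1 + 2) ^ j + 1) :=
    ((((Poly.id.add (Poly.powk k)).add (Poly.const 1)).add (Poly.const 2)).pow j).add
      (Poly.const 1)
  obtain ⟨m, hm⟩ := hp
  have h := PT.foldl (f := fun (a : α) (s : List γ) (b : β) => s ++ f a b) (l := l)
    (s₀ := fun _ => []) (by
      have : PT (fun x : α × List γ × β => f x.1 x.2.2) := by
        have h2 : PT (fun x : α × List γ × β => ((x.1, x.2.2) : α × β)) := by fun_prop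
        exact hf.comp h2
      fun_prop) hl (by fun_prop)
    ⟨m, fun e s b hb => ?_⟩
  · refine h.recode fun a _ => ?_
    congr 1
    generalize l a = l
    suffices ∀ s : List γ, l.foldl (fun s b => s ++ f a b) s = s ++ l.flatMap (f a) by
      simp [this]
    induction l with
    | nil => simp
    | cons b l ih => intro s; simp [ih]
  · have h0 := sz_append s (f e b)
    have h1 : sz (f e b) ≤ (sz (e, b) + 2) ^ j := hj (e, b)
    have h2 := sz_mem_le hb
    have h3 := hk e
    have h4 : (sz (e, b) + 2) ^ j ≤ (sz e + (sz e + 2) ^ k + 1 + 2) ^ j :=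
      Nat.pow_le_pow_left (by rw [sz_pair]; omega) j
    have h5 : (sz e + (sz e + 2) ^ k + 1 + 2) ^ j + 1 ≤ (sz e + 2) ^ m := hm (sz e)
    omega

theorem PT.all {f : α → β → Bool} {l : α → List β}
    (hf : PT (fun x : α × β => f x.1 x.2)) (hl : PT l) :
    PT (fun a => (l a).all (f a)) := by
  have h := PT.foldl (f := fun (a : α) (s : Bool) (b : β) => s && f a b) (l := l)
    (s₀ := fun _ => true) (by
      have : PT (fun x : α × Bool × β => f x.1 x.2.2) := by
        have h2 : PT (fun x : α × Bool × β => ((x.1, x.2.2) : α × β)) := by fun_prop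
        exact hf.comp h2
      fun_prop) hl (by fun_prop)
    ⟨1, fun e s b hb => by
      have h1 := sz_bool_le (s && f e b)
      have h2 := sz_pos s
      have h3 := le_pow_one (sz e)
      omega⟩
  refine h.recode fun a _ => ?_
  congr 1
  generalize l a = l
  suffices ∀ s : Bool, l.foldl (fun s b => s && f a b) s = (s && l.all (f a)) by
    simp [this]
  induction l with
  | nil => simp
  | cons b l ih => intro s; simp [ih, Bool.and_assoc]

theorem PT.any {f : α → β → Bool} {l : α → List β}
    (hf : PT (fun x : α × β => f x.1 x.2)) (hl : PT l) :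
    PT (fun a => (l a).any (f a)) := by
  have h : PT (fun a => (l a).all (fun b => !(f a b))) := PT.all (by fun_prop) hl
  refine h.not.recode fun a _ => ?_
  congr 1
  induction l a with
  | nil => rfl
  | cons b l ih => simp only [List.all_cons, List.any_cons, ← ih]; simp

@[fun_prop]
theorem PT.drop {l : α → List β} {n : α → ℕ} (hn : PT n) (hl : PT l) :
    PT (fun a => (l a).drop (n a)) := by
  have h := PT.foldl (f := fun (_ : α) (s : List β) (_ : Unit) => s.tail)
    (l := fun a => List.replicate (n a) ()) (s₀ := l)
    (by fun_prop) (by fun_prop) hl ⟨1, fun e s a _ => by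
      have : sz s.tail ≤ sz s := by
        cases s with
        | nil => exact le_rfl
        | cons b s => rw [sz_lcons]; simp only [List.tail_cons]; omega
      omega⟩
  refine h.recode fun a _ => ?_
  congr 1
  generalize n a = k
  induction k with
  | zero => rfl
  | succ k ih => rw [List.replicate_succ', List.foldl_append, ih]; simp

@[fun_prop]
theorem PT.head? {l : α → List β} (hl : PT l) : PT (fun a => (l a).head?) := by
  have h : PT (fun a => match l a with
    | [] => (none : Option β)
    | b :: _ => Option.some b) :=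
    PT.lcases (g := fun _ b _ => Option.some b) hl (by fun_prop) (by fun_prop)
  refine h.recode fun a _ => ?_
  cases l a <;> rfl

@[fun_prop]
theorem PT.get? {l : α → List β} {n : α → ℕ} (hn : PT n) (hl : PT l) :
    PT (fun a => (l a)[n a]?) := by
  have h : PT (fun a => ((l a).drop (n a)).head?) := by fun_prop
  exact h.recode fun a _ => by rw [List.head?_drop]

@[fun_prop]
theorem PT.getD' {o : α → Option β} {d : α → β} (ho : PT o) (hd : PT d) :
    PT (fun a => (o a).getD (d a)) := by
  have h : PT (fun a => match o a with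
    | none => d a
    | Option.some b => b) :=
    PT.ocases (g := fun _ b => b) ho hd (by fun_prop)
  refine h.recode fun a _ => ?_
  cases o a <;> rfl

@[fun_prop]
theorem PT.getD {l : α → List β} {n : α → ℕ} {d : α → β} (hn : PT n) (hl : PT l) (hd : PT d) :
    PT (fun a => (l a).getD (n a) (d a)) := by
  have h : PT (fun a => ((l a)[n a]?).getD (d a)) := by fun_prop
  exact h.recode fun a _ => by rw [List.getD_eq_getElem?_getD]

@[fun_prop]
theorem PT.range {n : α → ℕ} (hn : PT n) : PT (fun a => List.range (n a)) := by
  obtain ⟨k, hk⟩ := hn.sz_le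
  have hp : Poly (fun n => ((n + 2) ^ k + 2) ^ 2 + ((n + 2) ^ k + 2) + 2) :=
    ((((Poly.powk k).add (Poly.const 2)).pow 2).add ((Poly.powk k).add (Poly.const 2))).add
      (Poly.const 2)
  obtain ⟨m, hm⟩ := hp
  have key : ∀ (a : α) (i : ℕ), ((List.replicate (n a) ()).take i).foldl
      (fun (s : ℕ × List ℕ) (_ : Unit) => (s.1 + 1, s.1 :: s.2)) (0, []) =
      (min i (n a), (List.range (min i (n a))).reverse) := by
    intro a i
    rw [List.take_replicate]
    generalize min i (n a) = j
    induction j with
    | zero => rfl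
    | succ j ih => rw [List.replicate_succ', List.foldl_append, ih]; simp [List.range_succ]
  have hszr : ∀ j, sz (List.range j).reverse ≤ (2 * j + 2) ^ 2 := by
    intro j
    induction j with
    | zero => simp [sz_lnil]
    | succ j ih =>
      rw [List.range_succ, List.reverse_append, List.reverse_singleton, List.singleton_append,
        sz_lcons, sz_nat]
      nlinarith
  have h := PT.foldl_gen (f := fun (_ : α) (s : ℕ × List ℕ) (_ : Unit) =>
      (s.1 + 1, s.1 :: s.2)) (l := fun a => List.replicate (n a) ())
      (s₀ := fun _ => (0, [])) (by fun_prop) (by fun_prop) (by fun_prop)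
      ⟨m, fun e i => by
        rw [key, sz_pair, sz_nat]
        have h1 := hszr (min i (n e))
        have h2 := hk e
        rw [sz_nat] at h2
        have h3 : (2 * min i (n e) + 2) ^ 2 ≤ ((sz e + 2) ^ k + 2) ^ 2 :=
          Nat.pow_le_pow_left (by omega) 2
        have h4 : ((sz e + 2) ^ k + 2) ^ 2 + ((sz e + 2) ^ k + 2) + 2 ≤ (sz e + 2) ^ m := hm (sz e)
        omega⟩
  have h2 : PT (fun a => ((List.replicate (n a) ()).foldl
      (fun (s : ℕ × List ℕ) (_ : Unit) => (s.1 + 1, s.1 :: s.2)) (0, [])).2.reverse) := by
    have h3 := PT.comp (PT.snd (α := ℕ) (β := List ℕ)) h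
    exact h3.reverse
  refine h2.recode fun a _ => ?_
  congr 1
  have h4 := key a (n a)
  rw [List.take_replicate, min_self] at h4
  rw [h4]
  simp

@[fun_prop]
theorem PT.replicate {n : α → ℕ} {b : α → β} (hn : PT n) (hb : PT b) :
    PT (fun a => List.replicate (n a) (b a)) := by
  have h : PT (fun a => (List.replicate (n a) ()).map (fun _ => b a)) :=
    PT.map (f := fun a _ => b a) (by fun_prop) (by fun_prop)
  exact h.recode fun a _ => by simp

@[fun_prop]
theorem PT.take {l : α → List β} {n : α → ℕ} (hn : PT n) (hl : PT l) :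
    PT (fun a => (l a).take (n a)) := by
  have h : PT (fun a => ((l a).reverse.drop ((l a).length - n a)).reverse) := by fun_prop
  refine h.recode fun a _ => ?_
  rw [List.drop_reverse, List.reverse_reverse]
  congr 1
  rcases le_total (n a) (l a).length with h | h
  · congr 1; omega
  · rw [List.take_of_length_le h, List.take_of_length_le (by omega)]

@[fun_prop]
theorem PT.beqBool {f g : α → Bool} (hf : PT f) (hg : PT g) : PT (fun a => f a == g a) :=
  (PT.ite hf hg hg.not).recode fun a _ => by cases f a <;> cases g a <;> rfl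

/-- equality of two lists for a polynomial-time equality test of the members -/
theorem PT.beqList [BEq β] (hβ : PT (fun x : β × β => x.1 == x.2)) {l l' : α → List β}
    (hl : PT l) (hl' : PT l') : PT (fun a => l a == l' a) := by
  have hstep : PT (fun x : α × (Bool × List β) × β => match x.2.1.2 with
      | [] => (false, [])
      | b :: t => (x.2.1.1 && (x.2.2 == b), t)) := by
    refine PT.lcases (g := fun (x : α × (Bool × List β) × β) b t =>
      ((x.2.1.1 && (x.2.2 == b), t) : Bool × List β)) (by fun_prop) (by fun_prop) ?_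
    have h1 : PT (fun x : (α × (Bool × List β) × β) × β × List β => x.1.2.2 == x.2.1) := by
      have h2 : PT (fun x : (α × (Bool × List β) × β) × β × List β =>
        ((x.1.2.2, x.2.1) : β × β)) := by fun_prop
      exact hβ.comp h2
    fun_prop
  have h := PT.foldl (f := fun (_ : α) (s : Bool × List β) (b : β) => match s.2 with
      | [] => (false, [])
      | c :: t => (s.1 && (b == c), t)) (l := l) (s₀ := fun a => (true, l' a))
      hstep hl (by fun_prop) ⟨2, fun e s b hb => by
        rcases s with ⟨s1, s2⟩
        have h0 := sz_pos s1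
        have h1 : (sz e + 2) ^ 2 = (sz e + 2) * (sz e + 2) := by ring
        have h2 : 2 * 2 ≤ (sz e + 2) * (sz e + 2) := Nat.mul_le_mul (by omega) (by omega)
        cases s2 with
        | nil => simp only [sz_pair, sz_lnil]; have := sz_bool_le false; omega
        | cons c t =>
          simp only [sz_pair, sz_lcons]
          have := sz_bool_le (s1 && (b == c))
          omega⟩
  have h2 : PT (fun a => ((l a).foldl (fun (s : Bool × List β) (b : β) => match s.2 with
      | [] => (false, [])
      | c :: t => (s.1 && (b == c), t)) (true, l' a)).1 &&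
      ((l a).foldl (fun (s : Bool × List β) (b : β) => match s.2 with
      | [] => (false, [])
      | c :: t => (s.1 && (b == c), t)) (true, l' a)).2.isEmpty) := by
    exact (PT.fst.comp h).and (PT.isEmpty (PT.snd.comp h))
  refine h2.recode fun a _ => ?_
  congr 1
  generalize l a = l, l' a = l'
  suffices ∀ (s : Bool), ((l.foldl (fun (s : Bool × List β) (b : β) => match s.2 with
      | [] => (false, [])
      | c :: t => (s.1 && (b == c), t)) (s, l')).1 &&
      (l.foldl (fun (s : Bool × List β) (b : β) => match s.2 with
      | [] => (false, [])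
      | c :: t => (s.1 && (b == c), t)) (s, l')).2.isEmpty) = (s && (l == l')) by
    simpa using this true
  induction l generalizing l' with
  | nil => intro s; cases l' <;> simp
  | cons b l ih =>
    intro s
    cases l' with
    | nil =>
      simp only [List.foldl_cons]
      rw [ih []]
      simp
    | cons c t =>
      simp only [List.foldl_cons]
      rw [ih t]
      rw [List.cons_beq_cons, Bool.and_assoc]

@[fun_prop]
theorem PT.beqListBool {l l' : α → List Bool} (hl : PT l) (hl' : PT l') :
    PT (fun a => l a == l' a) :=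
  PT.beqList (by fun_prop) hl hl'

/-! ### finite types -/

theorem PT.eqConst (d : D) [DecidableEq D] : PT (fun x : D => decide (x = d)) := by
  induction d with
  | nil =>
    refine (PT.not PT.isCons).recode fun x _ => ?_
    cases x <;> simp
  | cons a b iha ihb =>
    refine ((PT.isCons.and (iha.comp PT.hd)).and (ihb.comp PT.tl)).recode fun x _ => ?_
    cases x with
    | nil => simp
    | cons c d =>
      congr 1
      by_cases h1 : c = a <;> by_cases h2 : d = b <;> simp [h1, h2]

theorem PTP.ofList (hinj : Function.Injective (DEnc.enc (α := α))) (f : α → β) (L : List α) :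
    PTP (fun a => a ∈ L) f := by
  classical
  induction L with
  | nil => exact ⟨ret (), 0, fun a ha => by simp at ha⟩
  | cons a₁ L ih =>
    have hc : PT (fun a : α => decide (DEnc.enc a = DEnc.enc a₁)) :=
      (PT.eqConst (DEnc.enc a₁)).comp PT.enc
    have h1 : PTP (fun a => a ∈ a₁ :: L ∧ decide (DEnc.enc a = DEnc.enc a₁) = true) f := by
      refine ((PT.const (α := α) (f a₁)).ptp _).recode ?_
      rintro a ⟨-, ha⟩
      rw [hinj (of_decide_eq_true ha)]
    have h2 : PTP (fun a => a ∈ a₁ :: L ∧ decide (DEnc.enc a = DEnc.enc a₁) = false) f := by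
      refine ih.imp ?_
      rintro a ⟨h, ha⟩
      rcases List.mem_cons.1 h with rfl | h
      · simp at ha
      · exact h
    refine (PTP.ite (hc.ptp _) h1 h2).recode fun a _ => ?_
    simp

/-- all functions on a finite type are polynomial-time computable -/
theorem PT.ofFinite [Finite α] (hinj : Function.Injective (DEnc.enc (α := α))) (f : α → β) :
    PT f := by
  classical
  have := Fintype.ofFinite α
  exact (PTP.ofList hinj f (Finset.univ : Finset α).toList).imp fun a _ => by simp

theorem encNat_inj : Function.Injective encNat := by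
  intro m
  induction m with
  | zero => intro n h; cases n with
    | zero => rfl
    | succ n => simp [encNat] at h
  | succ m ih => intro n h; cases n with
    | zero => simp [encNat] at h
    | succ n =>
      simp only [encNat, D.cons.injEq, true_and] at h
      rw [ih h]

theorem enc_nat_inj : Function.Injective (DEnc.enc (α := ℕ)) := encNat_inj

theorem enc_fin_inj (n : ℕ) : Function.Injective (DEnc.enc (α := Fin n)) := by
  intro a b h
  exact Fin.ext (encNat_inj h)

theorem enc_pair_inj (ha : Function.Injective (DEnc.enc (α := α)))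
    (hb : Function.Injective (DEnc.enc (α := β))) :
    Function.Injective (DEnc.enc (α := α × β)) := by
  rintro ⟨a, b⟩ ⟨c, d⟩ h
  simp only [enc_pair, D.cons.injEq] at h
  rw [ha h.1, hb h.2]

theorem enc_bool_inj : Function.Injective (DEnc.enc (α := Bool)) := by
  intro a b h
  cases a <;> cases b <;> simp at h ⊢

theorem enc_option_inj (ha : Function.Injective (DEnc.enc (α := α))) :
    Function.Injective (DEnc.enc (α := Option α)) := by
  intro a b h
  cases a <;> cases b <;> simp at h ⊢
  exact ha h

@[fun_prop]
theorem PT.finVal {n : ℕ} {f : α → Fin n} (hf : PT f) : PT (fun a => (f a).val) :=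
  hf.recode fun _ _ => rfl

end

end Pool.Agent.Lib.MP_76b05e_lc
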