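import Pool.Agent.Lib.MP_76b05e_lc.Space

/-!
Depth-first evaluation of the reachability recursion, on instances given as lists of numbers.
-/

namespace Pool.Agent.Lib.MP_76b05e_lc

/-- number of states -/
def nOf (N : List ℕ) : ℕ := N.getD 0 0
/-- number of letters -/
def mOf (N : List ℕ) : ℕ := N.getD 1 0
/-- transition table -/
def dOf (N : List ℕ) (q a : ℕ) : ℕ := N.getD (2 + q * mOf N + a) 0

/-- image of a set of states, as a list of bits, under a letter -/
def img (N : List ℕ) (a : ℕ) (u : List Bool) : List Bool :=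
  (List.range (nOf N)).map fun q' => (List.range (nOf N)).any fun q =>
    u.getD q false && (dOf N q a == q')

/-- one step or no step -/
def leaf (N : List ℕ) (u v : List Bool) : Bool :=
  (u == v) || (List.range (mOf N)).any fun a => img N a u == v

/-- inner nodes of the recursion tree: `(i, u, v, w, r)` asks whether there is a midpoint that
ends with `w` and has `r` further bits -/
abbrev Hn := ℕ × List Bool × List Bool × List Bool × ℕ

/-- nodes of the recursion tree -/
abbrev Nd := Bool ⊕ Hn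

/-- frames of the stack: a pending right child or the value of the left child -/
abbrev Fr := Bool × (Nd ⊕ Bool)

/-- states of the evaluation -/
abbrev Sta := List ℕ × Nd × List Fr

/-- the node asking for a path from `u` to `v` of length at most `2 ^ i` -/
def mkN (N : List ℕ) (i : ℕ) (u v : List Bool) : Nd := match i with
  | 0 => Sum.inl (leaf N u v)
  | i + 1 => Sum.inr (i, u, v, [], nOf N)

/-- left child -/
def lft (N : List ℕ) (x : Hn) : Nd := match x.2.2.2.2 with
  | 0 => mkN N x.1 x.2.1 x.2.2.2.1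
  | r + 1 => Sum.inr (x.1, x.2.1, x.2.2.1, false :: x.2.2.2.1, r)

/-- right child -/
def rgt (N : List ℕ) (x : Hn) : Nd := match x.2.2.2.2 with
  | 0 => mkN N x.1 x.2.2.2.1 x.2.2.1
  | r + 1 => Sum.inr (x.1, x.2.1, x.2.2.1, true :: x.2.2.2.1, r)

/-- conjunction or disjunction -/
def isAnd (x : Hn) : Bool := x.2.2.2.2 == 0

/-- one step of the evaluation -/
def dstep (s : Sta) : Sta := match s.2.1 with
  | Sum.inl b => match s.2.2 with
    | [] => s
    | f :: st => match f.2 with
      | Sum.inl y => (s.1, y, (f.1, Sum.inr b) :: st)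
      | Sum.inr b' => (s.1, Sum.inl (if f.1 then b' && b else b' || b), st)
  | Sum.inr x => (s.1, lft s.1 x, (isAnd x, Sum.inl (rgt s.1 x)) :: s.2.2)

/-- is the evaluation still running? -/
def drunning (s : Sta) : Bool := match s.2.1 with
  | Sum.inl _ => !s.2.2.isEmpty
  | Sum.inr _ => true

/-! ### polynomial-time computability -/

section
variable {α : Type} [DEnc α]

@[fun_prop]
theorem pt_nOf {N : α → List ℕ} (hN : PT N) : PT (fun a => nOf (N a)) := by
  unfold nOf; fun_prop

@[fun_prop]
theorem pt_mOf {N : α → List ℕ} (hN : PT N) : PT (fun a => mOf (N a)) := by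
  unfold mOf; fun_prop

theorem pt_dOf {N : α → List ℕ} {q b : α → ℕ} (hN : PT N) (hq : PT q) (hb : PT b) :
    PT (fun a => dOf (N a) (q a) (b a)) := by
  unfold dOf; fun_prop

theorem pt_img : PT (fun x : List ℕ × ℕ × List Bool => img x.1 x.2.1 x.2.2) := by
  unfold img
  refine PT.map (f := fun (x : List ℕ × ℕ × List Bool) (q' : ℕ) =>
    (List.range (nOf x.1)).any fun q => x.2.2.getD q false && (dOf x.1 q x.2.1 == q')) ?_
    (by fun_prop)
  refine PT.any (f := fun (x : (List ℕ × ℕ × List Bool) × ℕ) (q : ℕ) =>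
    x.1.2.2.getD q false && (dOf x.1.1 q x.1.2.1 == x.2)) ?_ (by fun_prop)
  refine PT.and (by fun_prop) (PT.natBEq (pt_dOf ?_ ?_ ?_) ?_) <;> fun_prop

theorem pt_leaf : PT (fun x : List ℕ × List Bool × List Bool => leaf x.1 x.2.1 x.2.2) := by
  unfold leaf
  refine PT.or (by fun_prop) ?_
  refine PT.any (f := fun (x : List ℕ × List Bool × List Bool) (a : ℕ) =>
    img x.1 a x.2.1 == x.2.2) ?_ (by fun_prop)
  refine PT.beqListBool ?_ (by fun_prop)
  have h : PT (fun x : (List ℕ × List Bool × List Bool) × ℕ =>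
    ((x.1.1, x.2, x.1.2.1) : List ℕ × ℕ × List Bool)) := by fun_prop
  have h3 := pt_img.comp h
  exact h3

theorem pt_mkN : PT (fun x : List ℕ × ℕ × List Bool × List Bool =>
    mkN x.1 x.2.1 x.2.2.1 x.2.2.2) := by
  unfold mkN
  refine PT.ncases (n := fun x : List ℕ × ℕ × List Bool × List Bool => x.2.1)
    (f := fun x => (Sum.inl (leaf x.1 x.2.2.1 x.2.2.2) : Nd))
    (g := fun x i => (Sum.inr (i, x.2.2.1, x.2.2.2, [], nOf x.1) : Nd)) (by fun_prop) ?_ ?_
  · refine PT.inl ?_
    have h : PT (fun x : List ℕ × ℕ × List Bool × List Bool =>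
      ((x.1, x.2.2.1, x.2.2.2) : List ℕ × List Bool × List Bool)) := by fun_prop
    have h3 := pt_leaf.comp h
    exact h3
  · refine PT.inr ?_
    fun_prop

theorem pt_lft : PT (fun x : List ℕ × Hn => lft x.1 x.2) := by
  unfold lft
  refine PT.ncases (n := fun x : List ℕ × Hn => x.2.2.2.2.2)
    (f := fun x => mkN x.1 x.2.1 x.2.2.1 x.2.2.2.2.1)
    (g := fun x r => (Sum.inr (x.2.1, x.2.2.1, x.2.2.2.1, false :: x.2.2.2.2.1, r) : Nd))
    (by fun_prop) ?_ ?_
  · have h : PT (fun x : List ℕ × Hn =>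
      ((x.1, x.2.1, x.2.2.1, x.2.2.2.2.1) : List ℕ × ℕ × List Bool × List Bool)) := by fun_prop
    have h3 := pt_mkN.comp h
    exact h3
  · refine PT.inr ?_
    fun_prop

theorem pt_rgt : PT (fun x : List ℕ × Hn => rgt x.1 x.2) := by
  unfold rgt
  refine PT.ncases (n := fun x : List ℕ × Hn => x.2.2.2.2.2)
    (f := fun x => mkN x.1 x.2.1 x.2.2.2.2.1 x.2.2.2.1)
    (g := fun x r => (Sum.inr (x.2.1, x.2.2.1, x.2.2.2.1, true :: x.2.2.2.2.1, r) : Nd))
    (by fun_prop) ?_ ?_
  · have h : PT (fun x : List ℕ × Hn =>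
      ((x.1, x.2.1, x.2.2.2.2.1, x.2.2.2.1) : List ℕ × ℕ × List Bool × List Bool)) := by
      fun_prop
    have h3 := pt_mkN.comp h
    exact h3
  · refine PT.inr ?_
    fun_prop

/-- the step on a returned value and a nonempty stack -/
def dstepF (s : Sta) (b : Bool) (f : Fr) (st : List Fr) : Sta := match f.2 with
  | Sum.inl y => (s.1, y, (f.1, Sum.inr b) :: st)
  | Sum.inr b' => (s.1, Sum.inl (if f.1 then b' && b else b' || b), st)

/-- the step on a returned value -/
def dstepB (s : Sta) (b : Bool) : Sta := match s.2.2 with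
  | [] => s
  | f :: st => dstepF s b f st

theorem pt_dstepF : PT (fun x : (Sta × Bool) × Fr × List Fr => dstepF x.1.1 x.1.2 x.2.1 x.2.2) := by
  have h := PT.scases (l := fun x : (Sta × Bool) × Fr × List Fr => x.2.1.2)
      (f := fun x y => ((x.1.1.1, y, (x.2.1.1, Sum.inr x.1.2) :: x.2.2) : Sta))
      (g := fun x b' => ((x.1.1.1, Sum.inl (if x.2.1.1 then b' && x.1.2 else b' || x.1.2),
        x.2.2) : Sta)) (by fun_prop) (by fun_prop) (by fun_prop)
  refine h.recode fun x _ => ?_
  obtain ⟨⟨s, b⟩, ⟨k, y | b'⟩, st⟩ := x <;> rfl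

theorem pt_dstepB : PT (fun x : Sta × Bool => dstepB x.1 x.2) := by
  have h := PT.lcases (l := fun x : Sta × Bool => x.1.2.2) (f := fun x => x.1)
      (g := fun x f st => dstepF x.1 x.2 f st) (by fun_prop) (by fun_prop) pt_dstepF
  refine h.recode fun x _ => ?_
  obtain ⟨⟨N, cur, _ | ⟨f, st⟩⟩, b⟩ := x <;> rfl

theorem pt_dstep : PT dstep := by
  have h1 : PT (fun x : Sta × Hn => lft x.1.1 x.2) := by
    have h : PT (fun x : Sta × Hn => ((x.1.1, x.2) : List ℕ × Hn)) := by fun_prop
    have h3 := pt_lft.comp h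
    exact h3
  have h2 : PT (fun x : Sta × Hn => rgt x.1.1 x.2) := by
    have h : PT (fun x : Sta × Hn => ((x.1.1, x.2) : List ℕ × Hn)) := by fun_prop
    have h3 := pt_rgt.comp h
    exact h3
  have h4 : PT (fun x : Sta × Hn => isAnd x.2) := by
    unfold isAnd
    fun_prop
  have h := PT.scases (l := fun s : Sta => s.2.1) (f := fun s b => dstepB s b)
    (g := fun s x => ((s.1, lft s.1 x, (isAnd x, Sum.inl (rgt s.1 x)) :: s.2.2) : Sta))
    (by fun_prop) pt_dstepB (by fun_prop)
  refine h.recode fun s _ => ?_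
  obtain ⟨N, b | x, _ | ⟨⟨k, y | b'⟩, st⟩⟩ := s <;> rfl

theorem pt_drunning : PT drunning := by
  have h := PT.scases (l := fun s : Sta => s.2.1) (f := fun s _ => !s.2.2.isEmpty)
    (g := fun _ _ => true) (by fun_prop) (by fun_prop) (by fun_prop)
  refine h.recode fun s _ => ?_
  obtain ⟨N, b | x, st⟩ := s <;> rfl

end

/-! ### the value of a node -/

/-- value of an inner node, given the values `G` of the recursive calls -/
def evH (G : List Bool → List Bool → Bool) (u v : List Bool) : List Bool → ℕ → Bool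
  | w, 0 => G u w && G w v
  | w, r + 1 => evH G u v (false :: w) r || evH G u v (true :: w) r

/-- value of the recursive calls -/
def evG (N : List ℕ) : ℕ → List Bool → List Bool → Bool
  | 0 => leaf N
  | i + 1 => fun u v => evH (evG N i) u v [] (nOf N)

/-- value of a node -/
def val (N : List ℕ) : Nd → Bool
  | Sum.inl b => b
  | Sum.inr x => evH (evG N x.1) x.2.1 x.2.2.1 x.2.2.2.1 x.2.2.2.2

theorem val_mkN (N : List ℕ) (i : ℕ) (u v : List Bool) : val N (mkN N i u v) = evG N i u v := by
  cases i <;> rfl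

theorem val_node (N : List ℕ) (x : Hn) : val N (Sum.inr x) =
    if isAnd x then val N (lft N x) && val N (rgt N x) else val N (lft N x) || val N (rgt N x) := by
  obtain ⟨i, u, v, w, r⟩ := x
  cases r with
  | zero =>
    have e1 : lft N (i, u, v, w, 0) = mkN N i u w := rfl
    have e2 : rgt N (i, u, v, w, 0) = mkN N i w v := rfl
    have e3 : isAnd (i, u, v, w, 0) = true := rfl
    rw [e1, e2, e3, val_mkN, val_mkN]
    rfl
  | succ r => simp [isAnd, lft, rgt, val, evH]

theorem evH_iff (G : List Bool → List Bool → Bool) (u v : List Bool) (r : ℕ) (w : List Bool) :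
    evH G u v w r = true ↔ ∃ w', w'.length = r ∧ G u (w' ++ w) = true ∧ G (w' ++ w) v = true := by
  induction r generalizing w with
  | zero =>
    constructor
    · intro h
      simp only [evH, Bool.and_eq_true] at h
      exact ⟨[], rfl, h.1, h.2⟩
    · rintro ⟨w', h1, h2, h3⟩
      rw [List.length_eq_zero_iff] at h1
      subst h1
      simp only [evH, Bool.and_eq_true]
      exact ⟨h2, h3⟩
  | succ r ih =>
    simp only [evH, Bool.or_eq_true, ih]
    constructor
    · rintro (⟨w', h1, h2, h3⟩ | ⟨w', h1, h2, h3⟩)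
      · exact ⟨w' ++ [false], by simp [h1], by simpa using h2, by simpa using h3⟩
      · exact ⟨w' ++ [true], by simp [h1], by simpa using h2, by simpa using h3⟩
    · rintro ⟨w', h1, h2, h3⟩
      rcases List.eq_nil_or_concat' w' with rfl | ⟨w₁, b, rfl⟩
      · simp at h1
      · simp only [List.length_append, List.length_cons, List.length_nil, zero_add,
          add_left_inj] at h1
        simp only [List.append_assoc, List.cons_append, List.nil_append] at h2 h3
        cases b
        · exact Or.inl ⟨w₁, h1, h2, h3⟩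
        · exact Or.inr ⟨w₁, h1, h2, h3⟩

/-! ### termination and space -/

/-- depth of the recursion below a node -/
def dep (n : ℕ) : Nd → ℕ
  | Sum.inl _ => 0
  | Sum.inr x => x.1 * (n + 1) + x.2.2.2.2 + 1

/-- well-formed nodes -/
def OK (n : ℕ) : Nd → Prop
  | Sum.inl _ => True
  | Sum.inr x => x.1 ≤ n ∧ x.2.1.length = n ∧ x.2.2.1.length = n ∧
      x.2.2.2.1.length + x.2.2.2.2 = n

/-- well-formed stacks, for the bound `B` on the height -/
def StOK (n B : ℕ) : List Fr → Prop
  | [] => True
  | f :: st => (match f.2 with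
    | Sum.inl y => OK n y ∧ dep n y + st.length + 1 ≤ B
    | Sum.inr _ => True) ∧ StOK n B st

/-- the invariant -/
def Inv (N : List ℕ) (B : ℕ) (s : Sta) : Prop :=
  s.1 = N ∧ OK (nOf N) s.2.1 ∧ dep (nOf N) s.2.1 + s.2.2.length ≤ B ∧ StOK (nOf N) B s.2.2

theorem ok_mkN (N : List ℕ) {i : ℕ} {u v : List Bool} (hi : i ≤ nOf N) (hu : u.length = nOf N)
    (hv : v.length = nOf N) : OK (nOf N) (mkN N i u v) := by
  cases i with
  | zero => trivial
  | succ i => exact ⟨by omega, hu, hv, by simp⟩

theorem dep_mkN (N : List ℕ) (i : ℕ) (u v : List Bool) :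
    dep (nOf N) (mkN N i u v) ≤ i * (nOf N + 1) := by
  cases i with
  | zero => simp [mkN, dep]
  | succ i => simp only [mkN, dep]; ring_nf; omega

theorem ok_lft (N : List ℕ) {x : Hn} (h : OK (nOf N) (Sum.inr x)) :
    OK (nOf N) (lft N x) ∧ dep (nOf N) (lft N x) + 1 ≤ dep (nOf N) (Sum.inr x) := by
  obtain ⟨i, u, v, w, r⟩ := x
  obtain ⟨h1, h2, h3, h4⟩ := h
  simp only at h1 h2 h3 h4
  cases r with
  | zero =>
    refine ⟨ok_mkN N h1 h2 (by omega), ?_⟩
    have h5 := dep_mkN N i u w
    have e1 : lft N (i, u, v, w, 0) = mkN N i u w := rfl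
    rw [e1]
    show _ ≤ i * (nOf N + 1) + 0 + 1
    omega
  | succ r =>
    refine ⟨⟨h1, h2, h3, ?_⟩, ?_⟩
    · simp only [List.length_cons]; omega
    · simp only [lft, dep]; omega

theorem ok_rgt (N : List ℕ) {x : Hn} (h : OK (nOf N) (Sum.inr x)) :
    OK (nOf N) (rgt N x) ∧ dep (nOf N) (rgt N x) + 1 ≤ dep (nOf N) (Sum.inr x) := by
  obtain ⟨i, u, v, w, r⟩ := x
  obtain ⟨h1, h2, h3, h4⟩ := h
  simp only at h1 h2 h3 h4
  cases r with
  | zero =>
    refine ⟨ok_mkN N h1 (by omega) h3, ?_⟩
    have h5 := dep_mkN N i w v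
    have e1 : rgt N (i, u, v, w, 0) = mkN N i w v := rfl
    rw [e1]
    show _ ≤ i * (nOf N + 1) + 0 + 1
    omega
  | succ r =>
    refine ⟨⟨h1, h2, h3, ?_⟩, ?_⟩
    · simp only [List.length_cons]; omega
    · simp only [rgt, dep]; omega

theorem inv_dstep {N : List ℕ} {B : ℕ} {s : Sta} (h : Inv N B s) : Inv N B (dstep s) := by
  obtain ⟨N', cur, st⟩ := s
  obtain ⟨h1, h2, h3, h4⟩ := h
  simp only at h1 h2 h3 h4
  subst h1
  rcases cur with b | x
  · rcases st with _ | ⟨⟨k, y | b'⟩, st⟩
    · exact ⟨rfl, trivial, h3, trivial⟩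
    · obtain ⟨⟨h5, h6⟩, h7⟩ := h4
      refine ⟨rfl, h5, ?_, trivial, h7⟩
      simp only [dstep, List.length_cons]
      omega
    · obtain ⟨-, h7⟩ := h4
      refine ⟨rfl, trivial, ?_, h7⟩
      simp only [dstep, dep, List.length_cons] at *
      omega
  · obtain ⟨h5, h6⟩ := ok_lft N' h2
    obtain ⟨h7, h8⟩ := ok_rgt N' h2
    refine ⟨rfl, h5, ?_, ⟨h7, ?_⟩, h4⟩
    · simp only [dstep, List.length_cons]; omega
    · show dep (nOf N') (rgt N' x) + st.length + 1 ≤ B
      omega

/-- the evaluation reaches the value of the current node -/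
theorem dfs_reach (N : List ℕ) : ∀ (d : ℕ) (y : Nd) (st : List Fr), OK (nOf N) y →
    dep (nOf N) y ≤ d → ∃ t, dstep^[t] (N, y, st) = (N, Sum.inl (val N y), st) := by
  intro d
  induction d with
  | zero =>
    intro y st hy hd
    rcases y with b | x
    · exact ⟨0, rfl⟩
    · simp [dep] at hd
  | succ d ih =>
    intro y st hy hd
    rcases y with b | x
    · exact ⟨0, rfl⟩
    · obtain ⟨h5, h6⟩ := ok_lft N hy
      obtain ⟨h7, h8⟩ := ok_rgt N hy
      obtain ⟨t₁, ht₁⟩ := ih (lft N x) ((isAnd x, Sum.inl (rgt N x)) :: st) h5 (by omega)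
      obtain ⟨t₂, ht₂⟩ := ih (rgt N x) ((isAnd x, Sum.inr (val N (lft N x))) :: st) h7 (by omega)
      refine ⟨1 + (t₂ + (1 + (t₁ + 1))), ?_⟩
      rw [Function.iterate_add_apply, Function.iterate_add_apply dstep t₂,
        Function.iterate_add_apply dstep 1, Function.iterate_add_apply dstep t₁,
        Function.iterate_one]
      have e1 : dstep (N, Sum.inr x, st) =
        (N, lft N x, (isAnd x, Sum.inl (rgt N x)) :: st) := rfl
      rw [e1, ht₁]
      have e2 : dstep (N, Sum.inl (val N (lft N x)), (isAnd x, Sum.inl (rgt N x)) :: st) =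
        (N, rgt N x, (isAnd x, Sum.inr (val N (lft N x))) :: st) := rfl
      rw [e2, ht₂]
      have e3 : dstep (N, Sum.inl (val N (rgt N x)),
        (isAnd x, Sum.inr (val N (lft N x))) :: st) =
        (N, Sum.inl (if isAnd x then val N (lft N x) && val N (rgt N x)
          else val N (lft N x) || val N (rgt N x)), st) := rfl
      rw [e3, val_node]

theorem dstep_done {s : Sta} (h : drunning s = false) : dstep s = s := by
  obtain ⟨N, cur, st⟩ := s
  rcases cur with b | x
  · rcases st with _ | ⟨f, st⟩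
    · rfl
    · simp [drunning] at h
  · simp [drunning] at h

/-- running time of the evaluation started at `s`: the first time the evaluation stops -/
noncomputable def stopT (s : Sta) : ℕ := sInf {t | drunning (dstep^[t] s) = false}

theorem stop_spec {s s' : Sta} {t : ℕ} (h : dstep^[t] s = s') (hs' : drunning s' = false) :
    (∀ i < stopT s, drunning (dstep^[i] s) = true) ∧ dstep^[stopT s] s = s' := by
  have hne : ({t | drunning (dstep^[t] s) = false} : Set ℕ).Nonempty := ⟨t, by
    rw [Set.mem_ofPred_eq, h, hs']⟩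
  have hmem : drunning (dstep^[stopT s] s) = false := Nat.sInf_mem hne
  have hle : stopT s ≤ t := Nat.sInf_le (by rw [Set.mem_ofPred_eq, h, hs'])
  refine ⟨fun i hi => ?_, ?_⟩
  · have := Nat.notMem_of_lt_sInf hi
    rw [Set.mem_ofPred_eq] at this
    simpa using this
  · have hfix : ∀ m, dstep^[m] (dstep^[stopT s] s) = dstep^[stopT s] s := by
      intro m
      induction m with
      | zero => rfl
      | succ m ih => rw [Function.iterate_succ_apply, dstep_done hmem, ih]
    have h2 := hfix (t - stopT s)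
    rw [← Function.iterate_add_apply, Nat.sub_add_cancel hle, h] at h2
    exact h2.symm

theorem inv_iterate {N : List ℕ} {B : ℕ} {s : Sta} (h : Inv N B s) (t : ℕ) :
    Inv N B (dstep^[t] s) := by
  induction t with
  | zero => exact h
  | succ t ih => rw [Function.iterate_succ_apply']; exact inv_dstep ih

/-- size of a well-formed node -/
theorem sz_nd_le {n : ℕ} {y : Nd} (h : OK n y) : sz y ≤ 16 * n + 20 := by
  rcases y with b | x
  · have := sz_bool_le b
    have h2 : sz (Sum.inl b : Nd) = sz b + 2 := by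
      show (D.cons D.nil (enc b)).size = _
      simp only [D.size_cons, D.size_nil, sz]
      omega
    omega
  · obtain ⟨i, u, v, w, r⟩ := x
    obtain ⟨h1, h2, h3, h4⟩ := h
    simp only at h1 h2 h3 h4
    have h5 : sz (Sum.inr (i, u, v, w, r) : Nd) = sz (i, u, v, w, r) + 4 := by
      show (D.cons (D.cons D.nil D.nil) (enc (i, u, v, w, r))).size = _
      simp only [D.size_cons, D.size_nil, sz]
      omega
    have a1 := sz_listBool_le u
    have a2 := sz_listBool_le v
    have a3 := sz_listBool_le w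
    rw [h5]
    simp only [sz_pair, sz_nat]
    omega

theorem sz_fr_le {n B : ℕ} {f : Fr} {st : List Fr} (h : StOK n B (f :: st)) :
    sz f ≤ 16 * n + 30 := by
  obtain ⟨k, y | b⟩ := f
  · have h1 := sz_nd_le h.1.1
    have h2 := sz_bool_le k
    have h3 : sz (k, (Sum.inl y : Nd ⊕ Bool)) = sz k + (sz y + 2) + 1 := by
      show (D.cons (enc k) (D.cons D.nil (enc y))).size = _
      simp only [D.size_cons, D.size_nil, sz]
      omega
    rw [h3]
    omega
  · have h1 := sz_bool_le b
    have h2 := sz_bool_le k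
    have h3 : sz (k, (Sum.inr b : Nd ⊕ Bool)) = sz k + (sz b + 4) + 1 := by
      show (D.cons (enc k) (D.cons (D.cons D.nil D.nil) (enc b))).size = _
      simp only [D.size_cons, D.size_nil, sz]
      omega
    rw [h3]
    omega

theorem sz_st_le {n B : ℕ} : ∀ {st : List Fr}, StOK n B st →
    sz st ≤ st.length * (16 * n + 31) + 1 := by
  intro st
  induction st with
  | nil => intro _; simp [sz_lnil]
  | cons f st ih =>
    intro h
    have h1 := sz_fr_le h
    have h2 := ih h.2
    rw [sz_lcons, List.length_cons]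
    have h3 : (st.length + 1) * (16 * n + 31) = st.length * (16 * n + 31) + (16 * n + 31) := by
      ring
    omega

theorem sz_inv_le {N : List ℕ} {B : ℕ} {s : Sta} (h : Inv N B s) :
    sz s ≤ sz N + (16 * nOf N + 20) + (B * (16 * nOf N + 31) + 1) + 2 := by
  obtain ⟨N', cur, st⟩ := s
  obtain ⟨h1, h2, h3, h4⟩ := h
  simp only at h1 h2 h3 h4
  subst h1
  have h5 := sz_nd_le h2
  have h6 := sz_st_le h4
  have h7 : st.length * (16 * nOf N' + 31) ≤ B * (16 * nOf N' + 31) :=
    Nat.mul_le_mul_right _ (by omega)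
  simp only [sz_pair]
  omega

end Pool.Agent.Lib.MP_76b05e_lc
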