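import Pool.Agent.Lib.MP_76b05e_lc.TM

/-!
Polynomial space from the iteration of a polynomial-time function.
-/

namespace Pool.Agent.Lib.MP_76b05e_lc

open Turing

/-- the body of `whileF` -/
def whileBody (C F : Frag Unit) : Frag (Option Unit) :=
  seq dup (seq C (bind testF fun b => seq (clearI .main) (seq (moveVal .save)
    (seq (moveAll .ta .main) (if b then seq F (ret none) else ret (some ()))))))

theorem whileBody_stop {C F : Frag Unit} {x c : D} {t₁ : ℕ} (h₁ : Comp C x c t₁)
    (hc : c.isCons = false) (s : List Bool) :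
    RL (whileBody C F) (mk5 x.enc s [] [] []) (some ()) (mk5 x.enc s [] [] [])
      (2 * t₁ + 13 * x.size + 8) := by
  have a := dup_rl x.enc s
  have b := h₁ (x.enc ++ s)
  have c1 := testF_rl c (x.enc ++ s)
  have d := clearI_rl (A := .main) c.enc (mk5 c.enc (x.enc ++ s) [] [] []) rfl
  have d' : RL (clearI .main) (mk5 c.enc (x.enc ++ s) [] [] []) ()
    (mk5 [] (x.enc ++ s) [] [] []) _ := RL.to d rfl (by simp)
  have e := moveVal_save x [] s [] []
  have f := moveAll_rl (A := .ta) (B := .main) (by decide) x.enc.reverse
    (mk5 [] s (x.enc.reverse ++ []) [] []) (by simp)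
  have f' : RL (moveAll .ta .main) (mk5 [] s (x.enc.reverse ++ []) [] []) ()
    (mk5 x.enc s [] [] []) _ := RL.to f rfl (by simp)
  have g : RL (if c.isCons then seq F (ret none) else ret (some ())) (mk5 x.enc s [] [] [])
    (some ()) (mk5 x.enc s [] [] []) 0 := by simpa [hc] using RL.ret _ _ _
  have hs := h₁.size_le
  exact (a.seq (b.seq (c1.bind (d'.seq (e.seq (f'.seq g)))))).mono (by simp; omega)

theorem whileBody_step {C F : Frag Unit} {x c y : D} {t₁ t₂ : ℕ} (h₁ : Comp C x c t₁)
    (hc : c.isCons = true) (h₂ : Comp F x y t₂) (s : List Bool) :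
    RL (whileBody C F) (mk5 x.enc s [] [] []) none (mk5 y.enc s [] [] [])
      (2 * t₁ + t₂ + 13 * x.size + 8) := by
  have a := dup_rl x.enc s
  have b := h₁ (x.enc ++ s)
  have c1 := testF_rl c (x.enc ++ s)
  have d := clearI_rl (A := .main) c.enc (mk5 c.enc (x.enc ++ s) [] [] []) rfl
  have d' : RL (clearI .main) (mk5 c.enc (x.enc ++ s) [] [] []) ()
    (mk5 [] (x.enc ++ s) [] [] []) _ := RL.to d rfl (by simp)
  have e := moveVal_save x [] s [] []
  have f := moveAll_rl (A := .ta) (B := .main) (by decide) x.enc.reverse
    (mk5 [] s (x.enc.reverse ++ []) [] []) (by simp)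
  have f' : RL (moveAll .ta .main) (mk5 [] s (x.enc.reverse ++ []) [] []) ()
    (mk5 x.enc s [] [] []) _ := RL.to f rfl (by simp)
  have g : RL (if c.isCons then seq F (ret none) else ret (some ())) (mk5 x.enc s [] [] [])
    none (mk5 y.enc s [] [] []) t₂ := by
    simpa [hc] using (h₂ s).seq (t₂ := 0) (RL.ret _ _ _)
  have hs := h₁.size_le
  exact (a.seq (b.seq (c1.bind (d'.seq (e.seq (f'.seq g)))))).mono (by simp; omega)

theorem sz_listBool_le (x : List Bool) : sz x ≤ 4 * x.length + 1 := by
  induction x with
  | nil => simp [sz_lnil]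
  | cons b x ih => rw [sz_lcons]; have := sz_bool_le b; simp only [List.length_cons]; omega

theorem outputs_of_reachB {F : Frag Unit} {x y : List Bool} {B : ℕ}
    (h : ReachB F B F.entry (mk5 x [] [] [] []) (Sum.inr ()) (mk5 y [] [] [] [])) :
    Nonempty (TM2Outputs (toTM F) x (some y)) := by
  obtain ⟨t, ht⟩ := h.reach
  obtain ⟨o⟩ := outputs_of_runs ht
  exact ⟨o.toTM2Outputs⟩

/-- a language is in polynomial space if it is decided by iterating a polynomial-time function
on states of polynomial size -/
theorem pspace_of_iterate {σ : Type} [DEnc σ] {init : List Bool → σ} {step : σ → σ}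
    {run : σ → Bool} {out : σ → Bool} (hi : PT init) (hs : PT step) (hr : PT run) (ho : PT out)
    (L : Set (List Bool)) (N : List Bool → ℕ)
    (h1 : ∀ x, ∀ i < N x, run (step^[i] (init x)) = true)
    (h2 : ∀ x, run (step^[N x] (init x)) = false)
    (h3 : ∀ x, x ∈ L ↔ out (step^[N x] (init x)) = true)
    (hB : ∃ k, ∀ x, ∀ i ≤ N x, sz (step^[i] (init x)) ≤ (x.length + 2) ^ k) : InPSPACE L := by
  have ho' : PT (fun s : σ => [out s]) := by fun_prop
  obtain ⟨Fi, ki, hFi⟩ := hi
  obtain ⟨Fs, ks, hFs⟩ := hs
  obtain ⟨Fr, kr, hFr⟩ := hr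
  obtain ⟨Fo, ko, hFo⟩ := ho'
  obtain ⟨b, hb⟩ := hB
  let G : Frag Unit := seq readIn (seq Fi (seq (loop (whileBody Fr Fs)) (seq Fo writeOut)))
  -- the space bound
  let r : ℕ → ℕ := fun s => 2 * (s + 2) ^ kr + (s + 2) ^ ks + (s + 2) ^ ko + 14 * s + 8
  have hrp : Poly r := (((((Poly.const 2).mul (Poly.powk kr)).add (Poly.powk ks)).add
    (Poly.powk ko)).add ((Poly.const 14).mul Poly.id)).add (Poly.const 8)
  have hrm : Monotone r := by
    intro x y hxy
    have h1 : (x + 2) ^ kr ≤ (y + 2) ^ kr := Nat.pow_le_pow_left (by omega) _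
    have h2 : (x + 2) ^ ks ≤ (y + 2) ^ ks := Nat.pow_le_pow_left (by omega) _
    have h3 : (x + 2) ^ ko ≤ (y + 2) ^ ko := Nat.pow_le_pow_left (by omega) _
    simp only [r]
    omega
  let Bd : ℕ → ℕ := fun n => (8 * n + 3) + ((4 * n + 1) + (4 * n + 1 + 2) ^ ki) +
    r ((n + 2) ^ b) + 30
  have hBd : ∃ p : Polynomial ℕ, ∀ n, Bd n ≤ p.eval n := by
    have hp : Poly Bd := by
      refine (((((Poly.const 8).mul Poly.id).add (Poly.const 3)).add
        ((((Poly.const 4).mul Poly.id).add (Poly.const 1)).add
        (((((Poly.const 4).mul Poly.id).add (Poly.const 1)).add (Poly.const 2)).pow ki))).add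
        (hrp.comp (Poly.powk b))).add (Poly.const 30)
    obtain ⟨k, hk⟩ := hp
    exact ⟨(Polynomial.X + 2) ^ k, fun n => by simpa using hk n⟩
  obtain ⟨p, hp⟩ := hBd
  have hrun : ∀ x, ReachB G (Bd x.length) G.entry (mk5 x [] [] [] []) (Sum.inr ())
      (mk5 [out (step^[N x] (init x))] [] [] [] []) := by
    intro x
    have a1 := readIn_rl x
    have a2 := hFi x trivial
    have a4 := hFo (step^[N x] (init x)) trivial
    have a5 := writeOut_rl [out (step^[N x] (init x))]
    have hszx := sz_listBool_le x
    have key : ∀ m i, i + m = N x → RB (loop (whileBody Fr Fs))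
        (mk5 (enc (step^[i] (init x)) : D).enc [] [] [] []) ()
        (mk5 (enc (step^[N x] (init x)) : D).enc [] [] [] []) (Bd x.length) := by
      intro m
      induction m with
      | zero =>
        intro i hi
        have hi' : i = N x := by omega
        subst hi'
        have hc1 := hFr (step^[N x] (init x)) trivial
        have hst := whileBody_stop (F := Fs) hc1 (by rw [isCons_bool]; exact h2 x) []
        refine RB.loop_exit (hst.rb ?_)
        have hbb := hrm (hb x (N x) le_rfl)
        rw [tot_mk5]
        simp only [D.length_enc, List.length_nil]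
        simp only [r, Bd, sz] at hbb ⊢
        omega
      | succ m ih =>
        intro i hi
        have hnext := ih (i + 1) (by omega)
        rw [Function.iterate_succ_apply'] at hnext
        have hc1 := hFr (step^[i] (init x)) trivial
        have hf1 := hFs (step^[i] (init x)) trivial
        have hst := whileBody_step hc1 (by rw [isCons_bool]; exact h1 x i (by omega)) hf1 []
        refine RB.loop_next (hst.rb ?_) hnext
        have hbb := hrm (hb x i (by omega))
        rw [tot_mk5]
        simp only [D.length_enc, List.length_nil]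
        simp only [r, Bd, sz] at hbb ⊢
        omega
    have a3 := key (N x) 0 (by omega)
    simp only [Function.iterate_zero, id_eq] at a3
    have hbN := hb x (N x) le_rfl
    have hrN := hrm hbN
    have a6 : (sz x + 2) ^ ki ≤ (4 * x.length + 1 + 2) ^ ki :=
      Nat.pow_le_pow_left (by omega) _
    have b1 := a1.rb (B := Bd x.length) (by
      rw [tot_mk5]
      simp only [List.length_nil, Bd]
      omega)
    have b2 := (a2 []).rb (B := Bd x.length) (by
      rw [tot_mk5]
      simp only [D.length_enc, List.length_nil, Bd]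
      unfold sz at *
      omega)
    have b4 := (a4 []).rb (B := Bd x.length) (by
      rw [tot_mk5]
      simp only [D.length_enc, List.length_nil, Bd]
      simp only [r, sz] at *
      omega)
    have b5 := a5.rb (B := Bd x.length) (by
      rw [tot_mk5]
      have := sz_listBool_le [out (step^[N x] (init x))]
      simp only [D.length_enc, List.length_nil, List.length_cons, Bd]
      simp only [r, sz, List.length_cons, List.length_nil] at *
      omega)
    exact b1.seq (b2.seq (a3.seq (b4.seq b5)))
  refine ⟨toTM G, fun _ => (inferInstance : Finite Bool), Equiv.refl _, Equiv.refl _, p,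
    fun x => ⟨fun hx => ?_, fun hx => ?_, fun c hc => ?_⟩⟩
  · have h := outputs_of_reachB (hrun x)
    rw [(h3 x).1 hx] at h
    have e : x.map (Equiv.refl Bool).symm = x := List.map_id x
    exact e.symm ▸ h
  · have h := outputs_of_reachB (hrun x)
    have h4 : out (step^[N x] (init x)) = false := by
      cases ho : out (step^[N x] (init x)) with
      | false => rfl
      | true => exact absurd ((h3 x).2 ho) hx
    rw [h4] at h
    have e : x.map (Equiv.refl Bool).symm = x := List.map_id x
    exact e.symm ▸ h
  · have e : x.map (Equiv.refl Bool).symm = x := List.map_id x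
    have hc' : StateTransition.Reaches (toTM G).step (initList (toTM G) x) c := by
      have : ∀ u : List Bool, u = x → StateTransition.Reaches (toTM G).step
          (initList (toTM G) u) c → StateTransition.Reaches (toTM G).step
          (initList (toTM G) x) c := by
        rintro u rfl h; exact h
      exact this _ e hc
    refine le_trans ?_ (hp x.length)
    show tot c.stk ≤ _
    rw [initList_eq] at hc'
    rcases Relation.ReflTransGen.cases_head hc' with h | ⟨d, hd, hdc⟩
    · rw [← h, tot_mk5]
      simp only [List.length_nil, Bd]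
      omega
    · rw [step_none] at hd
      have hd' := Option.mem_some_iff.1 hd
      subst hd'
      exact space_of_rb (hrun x) c hdc

end Pool.Agent.Lib.MP_76b05e_lc
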