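import Pool.Agent.Lib.MP_76b05e_lc.PTList
import Pool.Agent.Lib.MP_76b05e_lc.Defs

/-!
From program fragments to the Turing machines of Mathlib.
-/

namespace Pool.Agent.Lib.MP_76b05e_lc

open Turing

/-! ### space-bounded runs -/

/-- reachability through configurations of total size at most `B` -/
inductive ReachB {E : Type} (F : Frag E) (B : ℕ) : (F.L ⊕ E) → Stk → (F.L ⊕ E) → Stk → Prop
  | refl (l : F.L ⊕ E) (S : Stk) : tot S ≤ B → ReachB F B l S l S
  | head (l : F.L) (S : Stk) (l' : F.L ⊕ E) (S' : Stk) : tot S ≤ B →
      ReachB F B ((F.code l).exec S).1 ((F.code l).exec S).2 l' S' →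
      ReachB F B (Sum.inl l) S l' S'

theorem ReachB.trans {E : Type} {F : Frag E} {B : ℕ} {l₁ l₂ l₃ : F.L ⊕ E} {S₁ S₂ S₃ : Stk}
    (h₁ : ReachB F B l₁ S₁ l₂ S₂) (h₂ : ReachB F B l₂ S₂ l₃ S₃) :
    ReachB F B l₁ S₁ l₃ S₃ := by
  induction h₁ with
  | refl l S _ => exact h₂
  | head l S l' S' hS _ ih => exact ReachB.head l S l₃ S₃ hS (ih h₂)

theorem ReachB.reach {E : Type} {F : Frag E} {B : ℕ} {l₁ l₂ : F.L ⊕ E} {S₁ S₂ : Stk}
    (h : ReachB F B l₁ S₁ l₂ S₂) : ∃ t, Reach F l₁ S₁ l₂ S₂ t := by
  induction h with
  | refl l S _ => exact ⟨0, Reach.refl _ _⟩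
  | head l S l' S' hS _ ih =>
    obtain ⟨t, ht⟩ := ih
    exact ⟨t + 1, Reach.head _ _ _ _ _ ht⟩

theorem Reach.reachB {E : Type} {F : Frag E} {l₁ l₂ : F.L ⊕ E} {S₁ S₂ : Stk} {t B : ℕ}
    (h : Reach F l₁ S₁ l₂ S₂ t) (hB : tot S₁ + t ≤ B) : ReachB F B l₁ S₁ l₂ S₂ := by
  induction h with
  | refl l S => exact ReachB.refl _ _ (by omega)
  | head l S l' S' t _ ih =>
    have := (F.code l).tot_exec S
    exact ReachB.head _ _ _ _ (by omega) (ih (by omega))

theorem ReachB.bind_left {E E' : Type} [Finite E] (F : Frag E) (G : E → Frag E') {B : ℕ}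
    {l l' : F.L ⊕ E} {S S' : Stk} (h : ReachB F B l S l' S') :
    ReachB (bind F G) B (bindT F G l) S (bindT F G l') S' := by
  induction h with
  | refl l S hS => exact ReachB.refl _ _ hS
  | head l S l' S' hS _ ih =>
    refine ReachB.head (F := MP_76b05e_lc.bind F G) (Sum.inl l) S _ S' hS ?_
    simpa [MP_76b05e_lc.bind, bindT] using ih

theorem ReachB.bind_right {E E' : Type} [Finite E] (F : Frag E) (G : E → Frag E') (e : E) {B : ℕ}
    {l l' : (G e).L ⊕ E'} {S S' : Stk} (h : ReachB (G e) B l S l' S') :
    ReachB (bind F G) B (l.map (fun l => Sum.inr ⟨e, l⟩) id) S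
      (l'.map (fun l => Sum.inr ⟨e, l⟩) id) S' := by
  induction h with
  | refl l S hS => exact ReachB.refl _ _ hS
  | head l S l' S' hS _ ih =>
    refine ReachB.head (F := MP_76b05e_lc.bind F G) (Sum.inr ⟨e, l⟩) S _ S' hS ?_
    simpa [MP_76b05e_lc.bind] using ih

theorem ReachB.loop {E : Type} (F : Frag (Option E)) {l l' : F.L ⊕ Option E} {S S' : Stk} {B : ℕ}
    (h : ReachB F B l S l' S') :
    ReachB (loop F) B (loopT F l) S (loopT F l') S' := by
  induction h with
  | refl l S hS => exact ReachB.refl _ _ hS
  | head l S l' S' hS _ ih =>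
    refine ReachB.head (F := MP_76b05e_lc.loop F) (some l) S _ S' hS ?_
    simp only [MP_76b05e_lc.loop, loopT] at ih ⊢
    simpa using ih

/-- run from entry to exit with space bound `B` -/
def RB {E : Type} (F : Frag E) (S : Stk) (e : E) (S' : Stk) (B : ℕ) : Prop :=
  ReachB F B F.entry S (Sum.inr e) S'

theorem RL.rb {E : Type} {F : Frag E} {S S' : Stk} {e : E} {t B : ℕ} (h : RL F S e S' t)
    (hB : tot S + t ≤ B) : RB F S e S' B := by
  obtain ⟨u, hu, r⟩ := h
  exact Reach.reachB r (by omega)

theorem RB.bind {E E' : Type} [Finite E] {F : Frag E} {G : E → Frag E'} {S S₁ S' : Stk}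
    {e : E} {e' : E'} {B : ℕ} (h₁ : RB F S e S₁ B) (h₂ : RB (G e) S₁ e' S' B) :
    RB (bind F G) S e' S' B := by
  have a := ReachB.bind_left F G h₁
  have b := ReachB.bind_right F G e h₂
  have : (MP_76b05e_lc.bind F G).entry = bindT F G F.entry := by
    simp only [MP_76b05e_lc.bind, bindT]
  unfold RB
  rw [this]
  exact a.trans b

theorem RB.seq {E : Type} {F : Frag Unit} {G : Frag E} {S S₁ S' : Stk}
    {e' : E} {B : ℕ} (h₁ : RB F S () S₁ B) (h₂ : RB G S₁ e' S' B) :
    RB (seq F G) S e' S' B := RB.bind h₁ h₂

theorem RB.loop_exit {E : Type} {F : Frag (Option E)} {S S' : Stk} {e : E} {B : ℕ}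
    (h : RB F S (some e) S' B) : RB (loop F) S e S' B := by
  have a := ReachB.loop F h
  rw [loopT_entry] at a
  exact a

theorem RB.loop_next {E : Type} {F : Frag (Option E)} {S S₁ S' : Stk} {e : E} {B : ℕ}
    (h : RB F S none S₁ B) (h₂ : RB (loop F) S₁ e S' B) : RB (loop F) S e S' B := by
  have a := ReachB.loop F h
  rw [loopT_entry] at a
  exact a.trans h₂

/-! ### translation -/

/-- the statement jumping to a target -/
def tgt {L : Type} : L ⊕ Unit → TM2.Stmt (fun _ : St => Bool) (Option L) (Option Bool)
  | Sum.inl l => .load (fun _ => none) (.goto fun _ => some l)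
  | Sum.inr _ => .load (fun _ => none) .halt

/-- the statement executing an instruction -/
def trInstr {L : Type} : Instr (L ⊕ Unit) →
    TM2.Stmt (fun _ : St => Bool) (Option L) (Option Bool)
  | .push k b l => .push k (fun _ => b) (tgt l)
  | .pop k l => .pop k (fun _ o => o) (.branch (fun v => v.isNone) (tgt (l none))
      (.branch (fun v => v == some true) (tgt (l (some true))) (tgt (l (some false)))))

/-- the Turing machine of a fragment -/
noncomputable def toTM (F : Frag Unit) : FinTM2 where
  K := St
  k₀ := .main
  k₁ := .main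
  Γ := fun _ => Bool
  Λ := Option F.L
  main := none
  ΛFin := Fintype.ofFinite _
  σ := Option Bool
  initialState := none
  m := fun l => match l with
    | none => tgt F.entry
    | some l => trInstr (F.code l)

/-- the configuration of the Turing machine -/
def trCfg {F : Frag Unit} : (F.L ⊕ Unit) → Stk → (toTM F).Cfg
  | Sum.inl l, S => ⟨some (some l), none, S⟩
  | Sum.inr _, S => ⟨none, none, S⟩

theorem stepAux_tgt {F : Frag Unit} (l : F.L ⊕ Unit) (v : Option Bool) (S : Stk) :
    TM2.stepAux (tgt l) v S = trCfg (F := F) l S := by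
  cases l <;> rfl

theorem step_inl {F : Frag Unit} (l : F.L) (S : Stk) :
    (toTM F).step (trCfg (F := F) (Sum.inl l) S) =
      some (trCfg ((F.code l).exec S).1 ((F.code l).exec S).2) := by
  show some (TM2.stepAux (trInstr (F.code l)) none S) = _
  congr 1
  cases h : F.code l with
  | push k b l' =>
    simp only [trInstr, TM2.stepAux, Instr.exec]
    exact stepAux_tgt l' _ _
  | pop k l' =>
    simp only [trInstr, TM2.stepAux, Instr.exec]
    cases hS : (S k).head? with
    | none => simpa using stepAux_tgt (l' none) _ _
    | some b =>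
      cases b
      · simpa using stepAux_tgt (l' (some false)) _ _
      · simpa using stepAux_tgt (l' (some true)) _ _

theorem step_none {F : Frag Unit} (v : Option Bool) (S : Stk) :
    (toTM F).step (⟨some none, v, S⟩ : (toTM F).Cfg) = some (trCfg F.entry S) := by
  show some (TM2.stepAux (tgt F.entry) v S) = _
  rw [stepAux_tgt]
  rfl

theorem step_inr {F : Frag Unit} (S : Stk) :
    (toTM F).step (trCfg (F := F) (Sum.inr ()) S) = none := rfl

theorem iterate_reach {F : Frag Unit} {l l' : F.L ⊕ Unit} {S S' : Stk} {t : ℕ}
    (h : Reach F l S l' S' t) :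
    (flip Option.bind (toTM F).step)^[t] (some (trCfg l S)) = some (trCfg l' S') := by
  induction h with
  | refl l S => rfl
  | head l S l' S' t _ ih =>
    rw [Function.iterate_succ_apply]
    have : flip Option.bind (toTM F).step (some (trCfg (F := F) (Sum.inl l) S)) =
      some (trCfg ((F.code l).exec S).1 ((F.code l).exec S).2) := step_inl l S
    rw [this]
    exact ih

theorem initList_eq (F : Frag Unit) (x : List Bool) :
    initList (toTM F) x = (⟨some none, none, mk5 x [] [] [] []⟩ : (toTM F).Cfg) := by
  unfold initList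
  congr 1
  funext k
  cases k <;> rfl

theorem haltList_eq (F : Frag Unit) (x : List Bool) :
    haltList (toTM F) x = (trCfg (F := F) (Sum.inr ()) (mk5 x [] [] [] []) : (toTM F).Cfg) := by
  unfold haltList trCfg
  congr 1
  funext k
  cases k <;> rfl

theorem outputs_of_runs {F : Frag Unit} {x y : List Bool} {t : ℕ}
    (h : Runs F (mk5 x [] [] [] []) () (mk5 y [] [] [] []) t) :
    Nonempty (TM2OutputsInTime (toTM F) x (some y) (t + 1)) := by
  refine ⟨⟨⟨t + 1, ?_⟩, le_rfl⟩⟩
  have h1 : flip Option.bind (toTM F).step
      (some (initList (toTM F) x)) =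
      some (trCfg F.entry (mk5 x [] [] [] [])) := by
    rw [initList_eq]
    exact step_none _ _
  have h2 := iterate_reach h
  have h3 : (flip Option.bind (toTM F).step)^[t + 1] (some (initList (toTM F) x)) =
      some (haltList (toTM F) y) := by
    rw [Function.iterate_succ_apply, h1, h2, haltList_eq]
  exact h3

theorem space_of_rb {F : Frag Unit} {B : ℕ} {l : F.L ⊕ Unit} {S S' : Stk}
    (h : ReachB F B l S (Sum.inr ()) S') (c : (toTM F).Cfg)
    (hc : StateTransition.Reaches (toTM F).step (trCfg l S) c) :
    tot c.stk ≤ B := by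
  generalize hl' : (Sum.inr () : F.L ⊕ Unit) = l' at h
  induction h generalizing c with
  | refl l S hS =>
    subst hl'
    rcases Relation.ReflTransGen.cases_head hc with h | ⟨d, hd, _⟩
    · rw [← h]; exact hS
    · have : (toTM F).step (trCfg (F := F) (Sum.inr ()) S) = none := rfl
      rw [this] at hd
      exact absurd hd (by simp)
  | head l S l' S' hS _ ih =>
    rcases Relation.ReflTransGen.cases_head hc with h | ⟨d, hd, hdc⟩
    · rw [← h]; exact hS
    · rw [step_inl] at hd
      have hd' := Option.mem_some_iff.1 hd
      subst hd'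
      exact ih _ hdc hl'

/-! ### reading the input and writing the output -/

/-- turn the input word into the code of a list of bits -/
def readIn : Frag Unit :=
  seq (moveAll .main .ta) (seq (pushI .main false) (loop (bind (popI .ta) fun o => match o with
    | none => ret (some ())
    | some b => seq (pushList .main (true :: (enc b : D).enc)) (ret none))))

theorem readIn_loop (x : List Bool) : ∀ (y : List Bool),
    RL (loop (bind (popI .ta) fun o => match o with
    | none => ret (some ())
    | some b => seq (pushList .main (true :: (enc b : D).enc)) (ret none)))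
    (mk5 (enc y : D).enc [] x.reverse [] []) () (mk5 (enc (x ++ y) : D).enc [] [] [] [])
    (5 * x.length + 1) := by
  induction x using List.reverseRecOn with
  | nil =>
    intro y
    have p : RL (popI .ta) (mk5 (enc y : D).enc [] [] [] []) none _ 1 := RL.pop rfl
    refine RL.loop_exit ?_
    exact RL.to (RL.bind (t₁ := 1) (t₂ := 0) p (RL.ret _ _ 0)) rfl (by simp)
  | append_singleton x b ih =>
    intro y
    have h1 := ih (b :: y)
    have p : RL (popI .ta) (mk5 (enc y : D).enc [] (x ++ [b]).reverse [] []) (some b) _ 1 :=
      RL.pop (by simp)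
    have q := pushList_rl (A := .main) (true :: (enc b : D).enc)
      (mk5 (enc y : D).enc [] x.reverse [] [])
    have step : RL (bind (popI .ta) fun o => match o with
        | none => ret (some ())
        | some b => seq (pushList .main (true :: (enc b : D).enc)) (ret none))
        (mk5 (enc y : D).enc [] (x ++ [b]).reverse [] []) none
        (mk5 (enc (b :: y) : D).enc [] x.reverse [] []) 5 := by
      refine RL.mono (RL.bind p (RL.seq (RL.to q (by simp) rfl) ?_)) ?_ (t := 1 + (_ + 0))
      · exact RL.to (RL.ret _ _ 0) (by simp) rfl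
      · have := sz_bool_le b
        simp only [List.length_cons, D.length_enc] at *
        unfold sz at this
        omega
    exact (RL.to (RL.loop_next step h1) rfl (by simp)).mono (by simp; omega)

theorem readIn_rl (x : List Bool) : RL readIn (mk5 x [] [] [] []) ()
    (mk5 (enc x : D).enc [] [] [] []) (7 * x.length + 3) := by
  have h1 := moveAll_rl (A := .main) (B := .ta) (by decide) x (mk5 x [] [] [] []) rfl
  have h2 := RL.push .main false (mk5 [] [] x.reverse [] [])
  have h3 := readIn_loop x []
  refine (RL.seq (h1.to rfl (by simp)) (RL.seq h2 (h3.to (by simp) (by simp)))).mono (by omega)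

/-- turn the code of a list of bits into the word -/
def writeOut : Frag Unit :=
  seq (loop (bind (popI .main) fun o => match o with
    | some true => bind (popI .main) fun o' => match o' with
      | some true => bind (popI .main) fun _ => bind (popI .main) fun _ =>
          seq (pushI .ta true) (ret none)
      | _ => seq (pushI .ta false) (ret none)
    | _ => ret (some ()))) (moveAll .ta .main)

theorem writeOut_loop (x : List Bool) : ∀ (y : List Bool),
    RL (loop (bind (popI .main) fun o => match o with
    | some true => bind (popI .main) fun o' => match o' with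
      | some true => bind (popI .main) fun _ => bind (popI .main) fun _ =>
          seq (pushI .ta true) (ret none)
      | _ => seq (pushI .ta false) (ret none)
    | _ => ret (some ())))
    (mk5 (enc x : D).enc [] y [] []) () (mk5 [] [] (x.reverse ++ y) [] [])
    (5 * x.length + 1) := by
  induction x with
  | nil =>
    intro y
    have p : RL (popI .main) (mk5 (enc ([] : List Bool) : D).enc [] y [] []) (some false) _ 1 :=
      RL.pop rfl
    refine RL.loop_exit ?_
    exact RL.to (RL.bind (t₁ := 1) (t₂ := 0) p (RL.ret _ _ 0)) rfl (by simp)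
  | cons b x ih =>
    intro y
    have h1 := ih (b :: y)
    have p : RL (popI .main) (mk5 (enc (b :: x) : D).enc [] y [] []) (some true)
        (mk5 ((enc b : D).enc ++ (enc x : D).enc) [] y [] []) 1 :=
      RL.to (RL.pop rfl) rfl (by simp)
    have step : RL (bind (popI .main) fun o => match o with
        | some true => bind (popI .main) fun o' => match o' with
          | some true => bind (popI .main) fun _ => bind (popI .main) fun _ =>
              seq (pushI .ta true) (ret none)
          | _ => seq (pushI .ta false) (ret none)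
        | _ => ret (some ()))
        (mk5 (enc (b :: x) : D).enc [] y [] []) none
        (mk5 (enc x : D).enc [] (b :: y) [] []) 5 := by
      cases b with
      | false =>
        have q : RL (popI .main) (mk5 ((enc false : D).enc ++ (enc x : D).enc) [] y [] [])
            (some false) (mk5 (enc x : D).enc [] y [] []) 1 := RL.to (RL.pop rfl) rfl (by simp)
        refine (RL.bind p (RL.bind q (RL.seq (RL.push .ta false _) ?_))).mono
          (t := 1 + (1 + (1 + 0))) (by omega)
        exact RL.to (RL.ret _ _ 0) rfl (by simp)
      | true =>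
        have q : RL (popI .main) (mk5 ((enc true : D).enc ++ (enc x : D).enc) [] y [] [])
            (some true) (mk5 (false :: false :: (enc x : D).enc) [] y [] []) 1 :=
          RL.to (RL.pop rfl) rfl (by simp)
        have q2 : RL (popI .main) (mk5 (false :: false :: (enc x : D).enc) [] y [] [])
            (some false) (mk5 (false :: (enc x : D).enc) [] y [] []) 1 :=
          RL.to (RL.pop rfl) rfl (by simp)
        have q3 : RL (popI .main) (mk5 (false :: (enc x : D).enc) [] y [] [])
            (some false) (mk5 ((enc x : D).enc) [] y [] []) 1 :=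
          RL.to (RL.pop rfl) rfl (by simp)
        refine (RL.bind p (RL.bind q (RL.bind q2 (RL.bind q3
          (RL.seq (RL.push .ta true _) ?_))))).mono (t := 1 + (1 + (1 + (1 + (1 + 0))))) (by omega)
        exact RL.to (RL.ret _ _ 0) rfl (by simp)
    exact (RL.to (RL.loop_next step h1) rfl (by simp)).mono (by simp; omega)

theorem writeOut_rl (x : List Bool) : RL writeOut (mk5 (enc x : D).enc [] [] [] []) ()
    (mk5 x [] [] [] []) (7 * x.length + 2) := by
  have h1 := writeOut_loop x []
  have h2 := moveAll_rl (A := .ta) (B := .main) (by decide) x.reverse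
    (mk5 [] [] x.reverse [] []) rfl
  exact (RL.seq (h1.to rfl (by simp)) (h2.to rfl (by simp))).mono (by simp; omega)

/-- polynomial-time computable functions in the sense of this library are polynomial-time
computable in the sense of Mathlib -/
theorem PT.computable {f : List Bool → List Bool} (hf : PT f) :
    Nonempty (Turing.TM2ComputableInPolyTime (_root_.id : List Bool → List Bool) _root_.id f) := by
  obtain ⟨F, k, hF⟩ := hf
  let G : Frag Unit := seq readIn (seq F writeOut)
  have hsz : ∀ x : List Bool, sz x ≤ 4 * x.length + 1 := by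
    intro x
    induction x with
    | nil => simp [sz_lnil]
    | cons b x ih => rw [sz_lcons]; have := sz_bool_le b; simp only [List.length_cons]; omega
  have hG : ∀ x : List Bool, RL G (mk5 x [] [] [] []) () (mk5 (f x) [] [] [] [])
      (((7 * x.length + 3) + ((4 * x.length + 1 + 2) ^ k +
        (7 * (4 * x.length + 1 + (4 * x.length + 1 + 2) ^ k) + 2)))) := by
    intro x
    have h1 := readIn_rl x
    have h2 := hF x trivial
    have h3 := writeOut_rl (f x)
    have h4 : (sz x + 2) ^ k ≤ (4 * x.length + 1 + 2) ^ k :=
      Nat.pow_le_pow_left (by have := hsz x; omega) k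
    have h5 : 2 * (f x).length + 1 ≤ sz (f x) := length_le_sz _
    have h6 := h2.size_le
    have h7 := hsz x
    refine h1.seq (RL.seq ((h2 []).mono h4) (h3.mono ?_))
    unfold sz at *
    omega
  have hpoly : ∃ p : Polynomial ℕ, ∀ n : ℕ, (((7 * n + 3) + ((4 * n + 1 + 2) ^ k +
        (7 * (4 * n + 1 + (4 * n + 1 + 2) ^ k) + 2)))) + 1 = p.eval n := by
    refine ⟨(7 * Polynomial.X + 3) + ((4 * Polynomial.X + 1 + 2) ^ k +
        (7 * (4 * Polynomial.X + 1 + (4 * Polynomial.X + 1 + 2) ^ k) + 2)) + 1, fun n => ?_⟩
    simp
  obtain ⟨p, hp⟩ := hpoly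
  refine ⟨{ tm := toTM G, inputAlphabet := Equiv.refl _, outputAlphabet := Equiv.refl _,
            time := p, outputsFun := fun x => Classical.choice ?_ }⟩
  obtain ⟨t, ht, hr⟩ := hG x
  obtain ⟨o⟩ := outputs_of_runs hr
  refine ⟨⟨⟨o.steps, ?_⟩, ?_⟩⟩
  · have key : ∀ (u v : List Bool), u = x → v = f x →
        (flip Option.bind (toTM G).step)^[o.steps] (Option.some (initList (toTM G) u)) =
        Option.some (haltList (toTM G) v) := by
      rintro _ _ rfl rfl
      exact o.evals_in_steps
    exact key _ _ (List.map_id _) (List.map_id _)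
  · have h1 := o.steps_le_m
    have h2 := hp x.length
    simp only [id_eq] at *
    omega

end Pool.Agent.Lib.MP_76b05e_lc
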